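import Pool.Agent.MP_4b405e_nt.H17.Tow

/-! An entropy certificate on a tower of copies. -/

namespace Pool.Agent.MP_4b405e_nt.H17.C42

def T : List Stage := [
  ⟨1, [[(1,0)],[(1,0),(2,4)],[(1,0),(2,5)]],
    [[1,0,0,0,0,0,0,-1,0,0,0,1,0,0,0,-1],
     [0,1,0,0,0,0,0,-1,0,0,0,1,0,0,0,-1],
     [0,0,1,0,0,0,0,-1,0,0,0,1,0,0,0,-1],
     [0,0,0,1,0,0,0,-1,0,0,0,1,0,0,0,-1],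
     [0,0,0,0,1,0,0,-1,0,0,0,0,0,0,1,-1],
     [0,0,0,0,0,1,0,-1],
     [0,0,0,0,0,0,1,-1,0,0,0,0,0,0,1,-1],
     [0,0,0,0,0,0,0,0,1,0,0,-1,0,-1,0,1],
     [0,0,0,0,0,0,0,0,0,1,0,-1,0,-1,0,1],
     [0,0,0,0,0,0,0,0,0,0,1,-1],
     [0,0,0,0,0,0,0,0,0,0,0,0,1,-1,-1,1]],
    [.sw 0 1, .up [0] [] []]⟩,
  ⟨1, [[(1,0)],[(1,1)]],
    [[1,0,0,-1,0,1,0,-1],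
     [0,1,0,-1,0,1,0,-1],
     [0,0,1,-1],
     [0,0,0,0,1,-1,-1,1]],
    [.sw 0 1, .up [0] [] []]⟩,
  ⟨1, [[(1,0),(1,1)]],
    [[1,-1,1,-1]],
    [.sw 0 1]⟩]

def tab : Tab := [
  (3, [[(1,1)]]),
  (3, [[(1,0),(0,1)]]),
  (3, [[(1,0),(1,1)]]),
  (3, [[(1,0),(2,1)]]),
  (3, []),
  (2, [[(1,0)],[(1,2)],[(1,1)]]),
  (0, [[(1,0),(2,10)],[(-1,5),(2,8),(-2,10)],[(1,4),(2,10)]]),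
  (1, [[(-1,2),(2,4),(-2,5)]]),
  (1, [[(1,0),(2,5)],[(-1,2),(2,4),(-2,5)]]),
  (0, [[(2,0),(-1,4),(2,10)],[(-1,5),(2,8),(-2,10)]]),
  (1, [[(1,0),(2,5)],[(1,4),(-1,5)],[(1,2),(2,5)]]),
  (2, [[(1,0),(-1,1)]]),
  (2, [[(1,0),(-1,1)],[(1,1),(2,2)]]),
  (2, [[(1,0),(-1,1),(2,2)]]),
  (2, [[(1,0),(2,2)],[(1,1)]]),
  (0, [[(1,0),(1,10)],[(1,4)],[(1,5)]]),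
  (0, [[(2,0),(-1,4),(-1,5),(2,10)]]),
  (0, [[(2,0),(-1,4),(2,10)],[(1,5)]]),
  (1, [[(1,0),(1,5)],[(1,4),(-1,5)],[(1,2)]]),
  (1, [[(1,4),(-1,5)],[(1,2)]]),
  (1, [[(1,0),(1,5)],[(-1,2),(2,4),(-2,5)]]),
  (0, [[(1,0),(-1,5)],[(1,8),(-1,10)],[(1,4),(-2,5),(-2,10)]]),
  (1, [[(1,4),(-1,5)]]),
  (1, [[(1,0),(-1,2)],[(1,4),(-1,5)]]),
  (1, [[(2,0),(-1,2),(2,5)],[(1,4),(-1,5)]]),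
  (2, [[(1,0)],[(1,1)]]),
  (0, [[(1,0)],[(1,4)],[(1,10)],[(1,5)]]),
  (0, [[(1,0),(-1,5)],[(1,5),(2,8)],[(1,4),(-1,5)],[(1,5),(2,10)]]),
  (0, [[(1,0)],[(1,8)],[(1,4)],[(1,10)],[(1,5)]]),
  (0, [[(1,0),(-1,5)],[(1,4),(-1,5)],[(1,5),(2,10)]]),
  (1, [[(1,0)],[(1,4)],[(1,2)],[(1,5)]])]

def R0 : List (ℕ × Row) := [
  (22, .md 2 ⟨5,[],[]⟩ ⟨2,[],[]⟩ [] [(⟨0,[],[]⟩, [0], []), (⟨0,[],[]⟩, [0], [])]),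
  (2, .sub 0 ⟨6,[],[]⟩ ⟨7,[([],1)],[]⟩ ⟨8,[([],1)],[]⟩ ⟨9,[],[]⟩ [] [] []),
  (3, .sub 1 ⟨10,[],[]⟩ ⟨11,[([],0)],[]⟩ ⟨12,[([],1)],[]⟩ ⟨12,[([],0)],[]⟩ [] [] []),
  (5, .sub 2 ⟨5,[],[]⟩ ⟨13,[],[]⟩ ⟨14,[],[]⟩ ⟨14,[],[0]⟩ [] [] []),
  (2, .sub 0 ⟨15,[],[]⟩ ⟨16,[],[]⟩ ⟨17,[],[]⟩ ⟨17,[],[0]⟩ [] [] []),
  (1, .sub 1 ⟨18,[],[]⟩ ⟨7,[],[]⟩ ⟨19,[],[]⟩ ⟨20,[],[]⟩ [] [] []),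
  (1, .sub 0 ⟨21,[],[]⟩ ⟨22,[([],0)],[]⟩ ⟨23,[([],1)],[]⟩ ⟨24,[([],0)],[]⟩ [] [] []),
  (8, .sub 2 ⟨25,[],[]⟩ ⟨4,[([],0)],[]⟩ ⟨1,[([],1)],[]⟩ ⟨1,[([],0)],[]⟩ [] [] []),
  (10, .sub 2 ⟨14,[],[]⟩ ⟨4,[([],0)],[]⟩ ⟨1,[([],1)],[]⟩ ⟨3,[([],0)],[]⟩ [] [] []),
  (4, .sub 0 ⟨17,[],[]⟩ ⟨4,[([],0),([],0),([],0)],[]⟩ ⟨1,[([],1),([],0),([],1)],[]⟩ ⟨3,[([],0),([],1),([],1)],[]⟩ [] [] []),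
  (2, .sub 0 ⟨9,[],[0]⟩ ⟨4,[([],0),([],0),([],0)],[]⟩ ⟨3,[([],1),([],1),([],1)],[]⟩ ⟨16,[],[1]⟩ [] [] []),
  (3, .sub 1 ⟨18,[],[]⟩ ⟨4,[([],0),([],0)],[]⟩ ⟨7,[],[]⟩ ⟨3,[([],1),([],1)],[]⟩ [] [] [2]),
  (2, .sub 0 ⟨26,[],[]⟩ ⟨0,[([],1),([],1),([],1)],[]⟩ ⟨5,[([],1),([],1)],[]⟩ ⟨15,[],[]⟩ [] [] []),
  (1, .sub 0 ⟨27,[],[]⟩ ⟨23,[([],1)],[]⟩ ⟨10,[([],1)],[]⟩ ⟨21,[],[]⟩ [] [] []),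
  (2, .sub 0 ⟨28,[],[]⟩ ⟨29,[],[]⟩ ⟨26,[],[]⟩ ⟨27,[],[]⟩ [] [] []),
  (1, .sub 1 ⟨20,[],[]⟩ ⟨4,[([],0),([],0)],[]⟩ ⟨2,[([],1),([],0)],[]⟩ ⟨3,[([],0),([],1)],[]⟩ [] [] []),
  (2, .sub 1 ⟨8,[],[1]⟩ ⟨4,[([],0),([],0)],[]⟩ ⟨3,[([],1),([],1)],[]⟩ ⟨13,[([],0)],[]⟩ [] [] []),
  (4, .sub 2 ⟨12,[],[]⟩ ⟨4,[([],0)],[]⟩ ⟨3,[([],1)],[]⟩ ⟨3,[([],0)],[]⟩ [] [] []),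
  (8, .md 1 ⟨30,[],[]⟩ ⟨25,[],[]⟩ [] [(⟨5,[],[]⟩, [], []), (⟨5,[],[]⟩, [], [])]),
  (4, .md 0 ⟨28,[],[]⟩ ⟨18,[],[1]⟩ [] [(⟨30,[],[]⟩, [], []), (⟨30,[],[]⟩, [], [])]),
  (1, .sub 1 ⟨19,[],[]⟩ ⟨4,[([],0),([],0)],[]⟩ ⟨1,[([],0),([],1)],[]⟩ ⟨22,[],[]⟩ [] [] []),
  (3, .sub 2 ⟨5,[],[]⟩ ⟨4,[([],0)],[]⟩ ⟨11,[],[]⟩ ⟨13,[],[]⟩ [] [] [0]),
  (2, .sub 0 ⟨28,[],[]⟩ ⟨12,[([],1),([],1)],[]⟩ ⟨29,[],[]⟩ ⟨6,[],[0]⟩ [] [] [0]),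
  (1, .sub 0 ⟨27,[],[]⟩ ⟨24,[([],0)],[1]⟩ ⟨10,[([],1)],[]⟩ ⟨10,[([],0)],[]⟩ [] [] []),
  (38, .pos 4)]

theorem ok0 : (R0.all fun r => r.2.ok T tab) = true := by decide +kernel

theorem okT : twOK T = true := by decide +kernel

def R : List (ℕ × Row) := R0

theorem okR : (R.all fun r => r.2.ok T tab) = true := ok0

theorem main {Z : Type} [AddCommGroup Z] [Module ℚ Z] (Γ : Cfg Z) :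
    46 * Γ.A ≤ 31 * Γ.b 0 + 23 * Γ.b 1 + 30 * Γ.b 2 := by
  have h := cert_sound Γ.mod_good okT okR (g := [(46, 0), (-31, 1), (-23, 2), (-30, 3)]) (by decide +kernel)
  have h0 : val Γ.mod T tab 0 = Γ.A := Γ.mod_A
  have h1 : val Γ.mod T tab 1 = Γ.b (0 : ℤ) := Γ.mod_b 0
  have h2 : val Γ.mod T tab 2 = Γ.b (1 : ℤ) := Γ.mod_b 1
  have h3 : val Γ.mod T tab 3 = Γ.b (2 : ℤ) := Γ.mod_b 2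
  simp only [ev, h0, h1, h2, h3, zsmul_eq_mul] at h
  push_cast at h
  linarith

end Pool.Agent.MP_4b405e_nt.H17.C42
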