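import Pool.Agent.MP_4b405e_nt.H17.Tow

/-! An entropy certificate on several towers of copies. -/

namespace Pool.Agent.MP_4b405e_nt.H17.C82

def P0 : List Stage := []

def P1 : List Stage :=
  ⟨1, [[(1,0),(1,1)]],
    [[1,-1,1,-1]],
    [.sw 0 1]⟩ :: P0

def P2 : List Stage :=
  ⟨1, [[(1,0)],[(1,1)]],
    [[1,0,0,-1,0,1,0,-1],
     [0,1,0,-1,0,1,0,-1],
     [0,0,1,-1],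
     [0,0,0,0,1,-1,-1,1]],
    [.sw 0 1, .up [0] [] []]⟩ :: P1

def P3 : List Stage :=
  ⟨1, [[(1,0)],[(1,0),(2,4)],[(1,0),(2,5)]],
    [[1,0,0,0,0,0,0,-1,0,0,0,1,0,0,0,-1],
     [0,1,0,0,0,0,0,-1,0,0,0,1,0,0,0,-1],
     [0,0,1,0,0,0,0,-1,0,0,0,1,0,0,0,-1],
     [0,0,0,1,0,0,0,-1,0,0,0,1,0,0,0,-1],
     [0,0,0,0,1,0,0,-1,0,0,0,0,0,0,1,-1],
     [0,0,0,0,0,1,0,-1],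
     [0,0,0,0,0,0,1,-1,0,0,0,0,0,0,1,-1],
     [0,0,0,0,0,0,0,0,1,0,0,-1,0,-1,0,1],
     [0,0,0,0,0,0,0,0,0,1,0,-1,0,-1,0,1],
     [0,0,0,0,0,0,0,0,0,0,1,-1],
     [0,0,0,0,0,0,0,0,0,0,0,0,1,-1,-1,1]],
    [.sw 0 1, .up [0] [] []]⟩ :: P2

def P4 : List Stage :=
  ⟨1, [[(1,0)],[(2,0),(-1,1),(2,2)]],
    [[1,0,0,-1,0,1,0,-1],
     [0,1,0,-1,0,1,0,-1],
     [0,0,1,-1,0,0,2,-2],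
     [0,0,0,0,1,-1,1,-1]],
    [.sw 0 1]⟩ :: P1

def P5 : List Stage :=
  ⟨1, [[(1,0)],[(1,0),(2,4)],[(1,0),(2,5)]],
    [[1,0,0,0,0,0,0,-1,0,0,0,1,0,0,0,-1],
     [0,1,0,0,0,0,0,-1,0,0,0,1,0,0,0,-1],
     [0,0,1,0,0,0,0,-1,0,0,0,1,0,0,0,-1],
     [0,0,0,1,0,0,0,-1,0,0,0,1,0,0,0,-1],
     [0,0,0,0,1,0,0,-1,0,0,0,0,0,2,1,-3],
     [0,0,0,0,0,1,0,-1,0,0,0,0,0,2,0,-2],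
     [0,0,0,0,0,0,1,-1,0,0,0,0,0,0,1,-1],
     [0,0,0,0,0,0,0,0,1,0,0,-1,0,1,0,-1],
     [0,0,0,0,0,0,0,0,0,1,0,-1,0,1,0,-1],
     [0,0,0,0,0,0,0,0,0,0,1,-1],
     [0,0,0,0,0,0,0,0,0,0,0,0,1,-1,-1,1]],
    [.sw 0 1, .up [0] [] []]⟩ :: P4

def P6 : List Stage :=
  ⟨1, [[(1,0),(1,4)],[(1,2)],[(1,0),(1,5)]],
    [[1,0,0,0,0,0,0,-1,0,0,1,0,0,0,0,-1],
     [0,1,0,0,0,0,0,-1,0,0,0,1,0,0,0,-1],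
     [0,0,1,0,0,0,0,-1,0,0,1,0,0,0,0,-1],
     [0,0,0,1,0,0,0,-1,0,0,0,1,0,0,0,-1],
     [0,0,0,0,1,0,0,-1,0,0,0,0,0,2,0,-2],
     [0,0,0,0,0,1,0,-1,0,0,0,0,0,2,0,-2],
     [0,0,0,0,0,0,1,-1],
     [0,0,0,0,0,0,0,0,1,0,-1,0,0,1,0,-1],
     [0,0,0,0,0,0,0,0,0,1,0,-1,0,1,0,-1],
     [0,0,0,0,0,0,0,0,0,0,0,0,1,-1],
     [0,0,0,0,0,0,0,0,0,0,0,0,0,0,1,-1]],
    [.sw 0 1, .up [0] [] []]⟩ :: P4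

def tab1 : Tab := [
  (2, [[(1,0),(1,2)],[(1,0)],[(1,1)]]),
  (3, [[(1,0),(1,1)]]),
  (3, [[(1,1)]]),
  (2, [[(1,0)],[(1,1)]]),
  (3, []),
  (3, [[(1,0),(0,1)]]),
  (0, [[(1,0)],[(1,0),(2,8)],[(1,0),(2,10)],[(1,4)],[(1,5)]]),
  (1, [[(1,0)],[(1,0),(1,4)],[(1,0),(1,5)]]),
  (1, [[(1,0)],[(1,2)],[(1,0),(1,4)],[(1,0),(1,5)]]),
  (3, [[(1,0),(2,1)]]),
  (1, [[(1,0),(-2,4),(2,5)]]),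
  (2, [[(2,0),(-1,1),(2,2)],[(1,0)]]),
  (0, [[(2,0),(-1,4),(2,10)],[(1,5)]]),
  (0, [[(1,0),(1,10)],[(1,4)],[(1,5)]]),
  (0, [[(2,0),(-1,4),(-1,5),(2,10)]]),
  (0, [[(2,0),(-1,5),(2,10)],[(-1,4),(2,8),(-2,10)]]),
  (1, [[(1,0),(2,5)],[(-1,2),(2,4),(-2,5)]]),
  (2, [[(1,0),(-1,1),(2,2)]]),
  (2, [[(2,0),(-1,1),(2,2)],[(1,0),(-1,1)]]),
  (1, [[(1,0),(2,5)],[(1,0),(1,4)]]),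
  (1, [[(1,2)],[(1,4),(-1,5)]]),
  (1, [[(1,0),(2,5)],[(2,0),(-1,2),(2,5)],[(1,4),(-1,5)]]),
  (2, [[(1,0),(-1,1)]]),
  (0, [[(1,0),(-1,5)],[(1,0),(2,10)],[(1,4),(-1,5)]]),
  (0, [[(1,0),(-1,5)],[(1,0),(-1,4),(2,8)],[(1,0),(2,10)]]),
  (0, [[(1,0),(-1,5)],[(1,0),(2,8)],[(1,0),(2,10)],[(1,4),(-1,5)]]),
  (1, [[(1,0),(2,5)],[(1,4),(-1,5)]]),
  (0, [[(1,0)],[(1,0),(2,10)],[(1,4)],[(1,5)]]),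
  (1, [[(1,4),(-1,5)]])]

def R1_0 : List (ℕ × Row) := [
  (212, .md 2 ⟨0,[],[]⟩ ⟨1,[],[]⟩ [] [(⟨2,[],[]⟩, [0], []), (⟨2,[],[]⟩, [0], [])]),
  (64, .sub 2 ⟨3,[],[]⟩ ⟨4,[([],0)],[]⟩ ⟨5,[([],1)],[]⟩ ⟨5,[([],0)],[]⟩ [] [] []),
  (32, .md 0 ⟨6,[],[]⟩ ⟨7,[],[]⟩ [] [(⟨8,[],[]⟩, [], []), (⟨8,[],[]⟩, [], [])]),
  (24, .sub 1 ⟨7,[],[]⟩ ⟨4,[([],0),([],0)],[]⟩ ⟨9,[([],1),([],0)],[]⟩ ⟨10,[],[]⟩ [] [] [0]),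
  (84, .sub 2 ⟨11,[],[0]⟩ ⟨4,[([],0)],[]⟩ ⟨5,[([],1)],[]⟩ ⟨9,[([],0)],[]⟩ [] [] []),
  (32, .sub 0 ⟨12,[],[]⟩ ⟨4,[([],0),([],0),([],0)],[]⟩ ⟨5,[([],1),([],0),([],1)],[]⟩ ⟨9,[([],0),([],1),([],1)],[]⟩ [] [] []),
  (16, .sub 0 ⟨13,[],[]⟩ ⟨14,[],[]⟩ ⟨12,[],[]⟩ ⟨12,[],[0]⟩ [] [] []),
  (16, .sub 0 ⟨15,[],[]⟩ ⟨4,[([],0),([],0),([],0)],[]⟩ ⟨9,[([],1),([],1),([],1)],[]⟩ ⟨14,[],[1]⟩ [] [] []),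
  (16, .sub 1 ⟨16,[],[]⟩ ⟨4,[([],0),([],0)],[]⟩ ⟨9,[([],1),([],0)],[]⟩ ⟨17,[([],0)],[]⟩ [] [] []),
  (32, .sub 2 ⟨18,[],[]⟩ ⟨4,[([],0)],[]⟩ ⟨9,[([],0)],[]⟩ ⟨9,[([],1)],[]⟩ [] [] []),
  (8, .sub 1 ⟨19,[],[]⟩ ⟨4,[([],0),([],0)],[]⟩ ⟨9,[([],1),([],0)],[]⟩ ⟨1,[([],0),([],0)],[]⟩ [] [] []),
  (8, .sub 1 ⟨7,[],[1]⟩ ⟨10,[],[1]⟩ ⟨20,[],[]⟩ ⟨19,[],[1,0]⟩ [] [] []),
  (24, .sub 1 ⟨21,[],[]⟩ ⟨22,[([],0)],[]⟩ ⟨18,[([],1)],[]⟩ ⟨18,[([],0)],[]⟩ [] [] []),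
  (16, .sub 0 ⟨6,[],[]⟩ ⟨18,[([],1),([],1)],[]⟩ ⟨23,[],[]⟩ ⟨24,[],[]⟩ [] [] [0]),
  (16, .sub 0 ⟨25,[],[]⟩ ⟨26,[([],0)],[]⟩ ⟨21,[([],1)],[]⟩ ⟨21,[([],0)],[]⟩ [] [] []),
  (16, .sub 0 ⟨24,[],[0]⟩ ⟨10,[([],1)],[1]⟩ ⟨16,[([],1)],[]⟩ ⟨15,[],[0]⟩ [] [] []),
  (16, .sub 0 ⟨6,[],[]⟩ ⟨23,[],[]⟩ ⟨27,[],[]⟩ ⟨25,[],[]⟩ [] [] []),
  (8, .sub 1 ⟨21,[],[]⟩ ⟨28,[],[]⟩ ⟨26,[],[]⟩ ⟨26,[],[1]⟩ [] [] []),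
  (64, .md 1 ⟨8,[],[]⟩ ⟨3,[],[]⟩ [] [(⟨0,[],[]⟩, [], []), (⟨0,[],[]⟩, [], [])]),
  (8, .sub 1 ⟨20,[],[]⟩ ⟨4,[([],0),([],0)],[]⟩ ⟨5,[([],0),([],1)],[]⟩ ⟨28,[],[]⟩ [] [] [])]

theorem ok1_0 : (R1_0.all fun r => r.2.ok P3 tab1) = true := by decide +kernel

def R1_1 : List (ℕ × Row) := [
  (16, .sub 0 ⟨27,[],[]⟩ ⟨2,[([],1),([],1),([],1)],[]⟩ ⟨13,[],[]⟩ ⟨0,[([],1),([],1)],[]⟩ [] [] []),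
  (284, .pos 4)]

theorem ok1_1 : (R1_1.all fun r => r.2.ok P3 tab1) = true := by decide +kernel

theorem okT1 : twOK P3 = true := by decide +kernel

def R1 : List (ℕ × Row) := R1_0 ++ (R1_1)

theorem okR1 : (R1.all fun r => r.2.ok P3 tab1) = true := by
  simp only [R1, List.all_append, Bool.and_eq_true]
  exact ⟨ok1_0, ok1_1⟩

def tab2 : Tab := [
  (1, [[(1,0)],[(2,0),(-1,2),(2,4)],[(1,0),(1,4)],[(1,0),(1,5)]]),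
  (2, [[(2,0),(-1,1),(2,2)],[(1,0)]]),
  (2, [[(1,0),(1,2)],[(1,0)],[(1,1)]]),
  (0, [[(1,0)],[(1,0),(2,8)],[(1,0),(2,10)],[(2,0),(-1,4),(2,8)],[(2,0),(-1,5),(2,8)]]),
  (0, [[(1,0),(-1,5),(2,8)],[(1,0),(2,10)],[(1,4),(-1,5)]]),
  (0, [[(1,0),(-1,5),(2,8)],[(1,0),(-1,4)],[(1,0),(2,10)]]),
  (0, [[(1,0),(-1,5),(2,8)],[(1,0),(2,8)],[(1,0),(2,10)],[(1,4),(-1,5)]]),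
  (1, [[(1,0),(2,5)],[(1,4),(-1,5)]]),
  (1, [[(1,0),(2,5)],[(-1,2),(2,4),(-2,5)],[(1,4),(-1,5)]]),
  (0, [[(-1,5),(2,8),(-2,10)],[(1,4),(-1,5)]]),
  (0, [[(-1,5),(2,8),(-2,10)],[(1,0),(-1,5)],[(1,4),(-1,5)]]),
  (1, [[(1,0),(2,5)],[(2,0),(-1,2),(2,5)]]),
  (3, []),
  (3, [[(1,0),(2,1)]]),
  (2, [[(1,0),(-1,1)]]),
  (1, [[(1,0)],[(1,0),(1,4)],[(1,0),(1,5)]]),
  (1, [[(1,0),(-2,4),(2,5)]]),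
  (0, [[(-1,4),(2,8),(-2,10)],[(2,0),(-1,5),(2,8)]]),
  (3, [[(1,0),(0,1)]]),
  (0, [[(1,8),(-1,10)],[(1,4),(-1,5)]]),
  (0, [[(1,0),(2,8)],[(1,0),(2,10)],[(1,4),(-1,5)]]),
  (0, [[(-1,5),(2,8),(-2,10)],[(1,8),(-1,10)],[(1,4),(-1,5)]]),
  (0, [[(1,0),(1,10)],[(2,0),(-1,4),(2,8)],[(2,0),(-1,5),(2,8)]]),
  (0, [[(2,0),(-1,4),(-1,5),(4,8),(-2,10)]]),
  (0, [[(-1,5),(2,8),(-2,10)],[(2,0),(-1,4),(2,10)]]),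
  (1, [[(1,0),(2,4)],[(1,0),(1,5)]]),
  (1, [[(1,0)],[(1,4),(-1,5)]]),
  (3, [[(1,0),(1,1)]]),
  (1, [[(1,0),(-2,4),(2,5)],[(-1,2),(2,4),(-2,5)]]),
  (1, [[(2,0),(-1,2),(2,4)],[(1,0),(1,4)],[(1,0),(1,5)]]),
  (1, [[(2,0),(-1,2),(2,5)]]),
  (1, [[(1,2)],[(1,0),(1,5)]]),
  (0, [[(1,0)],[(1,0),(2,10)],[(2,0),(-1,4),(2,8)],[(2,0),(-1,5),(2,8)]]),
  (3, [[(1,1)]]),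
  (0, [[(1,4),(-1,5)]]),
  (1, [[(1,4),(-1,5)]]),
  (2, [[(1,0),(-1,1),(2,2)]]),
  (1, [[(2,0),(-1,2),(2,4)],[(1,4),(-1,5)]])]

def R2_0 : List (ℕ × Row) := [
  (56, .md 1 ⟨0,[],[]⟩ ⟨1,[],[]⟩ [] [(⟨2,[],[]⟩, [], []), (⟨2,[],[]⟩, [], [])]),
  (2, .sub 0 ⟨3,[],[]⟩ ⟨1,[([],1),([],1)],[0]⟩ ⟨4,[],[]⟩ ⟨5,[],[]⟩ [] [] [0]),
  (7, .sub 0 ⟨6,[],[]⟩ ⟨7,[([],0)],[]⟩ ⟨8,[([],1)],[]⟩ ⟨8,[([],0)],[]⟩ [] [] []),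
  (10, .sub 0 ⟨3,[],[]⟩ ⟨9,[],[]⟩ ⟨4,[],[]⟩ ⟨10,[],[]⟩ [] [] [0]),
  (2, .sub 1 ⟨11,[],[]⟩ ⟨12,[([],0),([],0)],[]⟩ ⟨13,[([],1),([],0)],[]⟩ ⟨14,[([],0)],[]⟩ [] [] []),
  (24, .md 0 ⟨3,[],[]⟩ ⟨15,[],[]⟩ [] [(⟨0,[],[]⟩, [], []), (⟨0,[],[]⟩, [], [])]),
  (18, .sub 1 ⟨15,[],[]⟩ ⟨12,[([],0),([],0)],[]⟩ ⟨13,[([],1),([],0)],[]⟩ ⟨16,[],[]⟩ [] [] [0]),
  (14, .sub 0 ⟨17,[],[]⟩ ⟨12,[([],0),([],0),([],0)],[]⟩ ⟨13,[([],1),([],0),([],1)],[]⟩ ⟨18,[([],0),([],1),([],1)],[]⟩ [] [] []),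
  (5, .sub 0 ⟨6,[],[]⟩ ⟨19,[],[]⟩ ⟨20,[],[]⟩ ⟨21,[],[]⟩ [] [] []),
  (7, .sub 0 ⟨22,[],[]⟩ ⟨23,[],[]⟩ ⟨17,[],[]⟩ ⟨17,[],[0]⟩ [] [] []),
  (2, .sub 0 ⟨24,[],[]⟩ ⟨12,[([],0),([],0),([],0)],[]⟩ ⟨18,[([],1),([],1),([],1)],[]⟩ ⟨23,[],[1]⟩ [] [] []),
  (6, .sub 1 ⟨15,[],[]⟩ ⟨16,[],[]⟩ ⟨25,[],[]⟩ ⟨26,[],[]⟩ [] [] []),
  (6, .sub 1 ⟨25,[],[0]⟩ ⟨12,[([],0),([],0)],[]⟩ ⟨13,[([],1),([],0)],[]⟩ ⟨27,[([],0),([],0)],[]⟩ [] [] []),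
  (22, .sub 1 ⟨28,[],[0]⟩ ⟨12,[([],0),([],0)],[]⟩ ⟨14,[([],1)],[]⟩ ⟨18,[([],0),([],1)],[]⟩ [] [] []),
  (3, .sub 1 ⟨29,[],[]⟩ ⟨12,[([],0),([],0)],[]⟩ ⟨30,[],[]⟩ ⟨18,[([],1),([],1)],[]⟩ [] [] [2]),
  (1, .sub 1 ⟨31,[],[]⟩ ⟨12,[([],0),([],0)],[]⟩ ⟨27,[([],1),([],0)],[]⟩ ⟨18,[([],0),([],1)],[]⟩ [] [] []),
  (12, .sub 0 ⟨32,[],[]⟩ ⟨33,[([],1),([],1),([],1)],[]⟩ ⟨22,[],[]⟩ ⟨2,[([],1),([],1)],[]⟩ [] [] []),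
  (5, .sub 0 ⟨21,[],[]⟩ ⟨34,[],[]⟩ ⟨9,[],[]⟩ ⟨9,[],[1]⟩ [] [] []),
  (5, .sub 0 ⟨20,[],[]⟩ ⟨35,[([],0)],[]⟩ ⟨19,[],[]⟩ ⟨7,[([],0)],[]⟩ [] [] []),
  (16, .sub 1 ⟨8,[],[]⟩ ⟨36,[([],0)],[]⟩ ⟨1,[([],1)],[0]⟩ ⟨1,[([],0)],[0]⟩ [] [] [])]

theorem ok2_0 : (R2_0.all fun r => r.2.ok P5 tab2) = true := by decide +kernel

def R2_1 : List (ℕ × Row) := [
  (1, .sub 1 ⟨37,[],[]⟩ ⟨12,[([],0),([],0)],[]⟩ ⟨13,[([],0),([],1)],[]⟩ ⟨35,[],[]⟩ [] [] []),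
  (2, .sub 0 ⟨5,[],[0]⟩ ⟨30,[([],1)],[]⟩ ⟨11,[([],1)],[]⟩ ⟨24,[],[0]⟩ [] [] []),
  (1, .sub 1 ⟨29,[],[]⟩ ⟨30,[],[]⟩ ⟨37,[],[]⟩ ⟨31,[],[]⟩ [] [] []),
  (12, .sub 0 ⟨3,[],[]⟩ ⟨4,[],[]⟩ ⟨32,[],[]⟩ ⟨6,[],[]⟩ [] [] []),
  (6, .sub 1 ⟨26,[],[]⟩ ⟨12,[([],0),([],0)],[]⟩ ⟨35,[],[]⟩ ⟨18,[([],0),([],0)],[]⟩ [] [] []),
  (5, .sub 0 ⟨22,[],[]⟩ ⟨12,[([],0),([],0),([],0)],[]⟩ ⟨34,[],[]⟩ ⟨23,[],[]⟩ [] [] [6]),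
  (10, .sub 0 ⟨10,[],[]⟩ ⟨16,[([],0)],[]⟩ ⟨28,[([],1)],[]⟩ ⟨28,[([],0)],[]⟩ [] [] []),
  (80, .pos 12)]

theorem ok2_1 : (R2_1.all fun r => r.2.ok P5 tab2) = true := by decide +kernel

theorem okT2 : twOK P5 = true := by decide +kernel

def R2 : List (ℕ × Row) := R2_0 ++ (R2_1)

theorem okR2 : (R2.all fun r => r.2.ok P5 tab2) = true := by
  simp only [R2, List.all_append, Bool.and_eq_true]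
  exact ⟨ok2_0, ok2_1⟩

def tab3 : Tab := [
  (0, [[(1,0),(1,8)],[(1,4)],[(1,0),(1,10)],[(1,0)],[(1,1)]]),
  (0, [[(2,0),(-1,1),(-1,4),(2,8)],[(2,0),(-1,1),(2,10)],[(1,0),(-1,1)]]),
  (0, [[(2,0),(-1,4),(2,8)],[(1,0),(1,10)],[(1,0)],[(1,1)]]),
  (0, [[(2,0),(-1,1),(2,8)],[(1,4)],[(2,0),(-1,1),(2,10)],[(1,0),(-1,1)]]),
  (0, [[(1,0),(-1,1),(2,8)],[(-1,1),(1,4)],[(1,0),(2,10)]]),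
  (1, [[(1,0),(-2,4),(2,5)]]),
  (0, [[(1,0),(-1,1),(2,8)],[(1,0),(2,10)]]),
  (1, [[(1,0),(-2,4),(2,5)],[(-1,2),(2,4),(-2,5)]]),
  (1, [[(2,0),(-1,2),(2,4)],[(1,0),(1,4)],[(1,0),(1,5)]]),
  (1, [[(1,0)],[(2,0),(-1,2),(2,4)],[(1,0),(1,4)],[(1,0),(1,5)]]),
  (1, [[(-1,2),(2,4),(-2,5)],[(1,4),(-1,5)]]),
  (1, [[(1,0),(2,5)],[(-1,2),(2,4),(-2,5)],[(1,4),(-1,5)]]),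
  (0, [[(1,0),(1,10)],[(1,0),(1,1)]]),
  (0, [[(1,0),(1,10)],[(1,0)],[(1,1)]]),
  (0, [[(2,0),(-1,4),(2,8)],[(1,0),(1,10)],[(1,0),(1,1)]]),
  (0, [[(1,8),(-1,10)],[(1,4)],[(1,0),(-1,1)]]),
  (1, [[(1,4),(-1,5)]]),
  (0, [[(1,8),(-1,10)],[(1,0),(-1,1)]]),
  (3, [[(1,0),(1,1)]]),
  (3, [[(1,1)]]),
  (0, [[(2,0),(-1,1),(2,8)],[(2,0),(-1,1),(2,10)],[(1,0),(-1,1)]]),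
  (1, [[(1,0),(2,5)],[(1,4),(-1,5)]]),
  (0, [[(1,0),(2,10)],[(1,1)]]),
  (3, []),
  (3, [[(1,0),(0,1)]]),
  (3, [[(1,0),(2,1)]]),
  (0, [[(1,0),(-1,1),(2,10)]]),
  (2, [[(2,0),(-1,1),(2,2)],[(1,0)]])]

def R3_0 : List (ℕ × Row) := [
  (2, .sub 0 ⟨0,[],[]⟩ ⟨1,[],[]⟩ ⟨2,[],[]⟩ ⟨3,[],[]⟩ [] [] []),
  (2, .sub 0 ⟨4,[],[]⟩ ⟨5,[([],1)],[]⟩ ⟨6,[],[]⟩ ⟨7,[([],1)],[]⟩ [] [] []),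
  (4, .md 0 ⟨0,[],[]⟩ ⟨8,[],[]⟩ [] [(⟨9,[],[]⟩, [], []), (⟨9,[],[]⟩, [], [])]),
  (1, .sub 0 ⟨3,[],[]⟩ ⟨10,[([],0)],[]⟩ ⟨11,[([],1)],[]⟩ ⟨11,[([],0)],[]⟩ [] [] []),
  (2, .sub 0 ⟨2,[],[]⟩ ⟨12,[],[]⟩ ⟨13,[],[]⟩ ⟨14,[],[]⟩ [] [] []),
  (1, .sub 0 ⟨15,[],[]⟩ ⟨16,[([],0)],[]⟩ ⟨17,[],[]⟩ ⟨10,[([],0)],[]⟩ [] [] []),
  (2, .sub 0 ⟨14,[],[]⟩ ⟨18,[([],0),([],1),([],0)],[]⟩ ⟨12,[],[]⟩ ⟨19,[([],0),([],1),([],1)],[]⟩ [] [6] []),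
  (1, .sub 0 ⟨20,[],[]⟩ ⟨16,[([],0)],[]⟩ ⟨21,[([],1)],[]⟩ ⟨21,[([],0)],[]⟩ [] [] []),
  (4, .sub 0 ⟨22,[],[]⟩ ⟨23,[([],0),([],0),([],0)],[]⟩ ⟨24,[([],1),([],0),([],0)],[]⟩ ⟨25,[([],0),([],1),([],0)],[]⟩ [] [] []),
  (2, .sub 0 ⟨13,[],[]⟩ ⟨26,[],[]⟩ ⟨22,[],[]⟩ ⟨22,[],[0]⟩ [] [] []),
  (2, .sub 0 ⟨6,[],[0]⟩ ⟨23,[([],0),([],0),([],0)],[]⟩ ⟨25,[([],1),([],1),([],0)],[]⟩ ⟨26,[],[1]⟩ [] [] []),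
  (2, .sub 0 ⟨0,[],[]⟩ ⟨27,[([],1),([],1)],[0]⟩ ⟨1,[],[]⟩ ⟨4,[],[0]⟩ [] [] [0]),
  (1, .sub 0 ⟨3,[],[]⟩ ⟨17,[],[]⟩ ⟨20,[],[]⟩ ⟨15,[],[]⟩ [] [] []),
  (6, .pos 23)]

theorem ok3_0 : (R3_0.all fun r => r.2.ok P6 tab3) = true := by decide +kernel

theorem okT3 : twOK P6 = true := by decide +kernel

def R3 : List (ℕ × Row) := R3_0

theorem okR3 : (R3.all fun r => r.2.ok P6 tab3) = true := ok3_0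

variable {Z : Type} [AddCommGroup Z] [Module ℚ Z] (Γ : Cfg Z)

noncomputable def X0 : ℝ := (tw Γ.mod P0).h [[(1,1)]]

noncomputable def X1 : ℝ := (tw Γ.mod P0).h [[(1,0),(0,1)]]

noncomputable def X2 : ℝ := (tw Γ.mod P0).h [[(1,0),(1,1)]]

noncomputable def X3 : ℝ := (tw Γ.mod P0).h [[(1,0),(2,1)]]

noncomputable def X4 : ℝ := (tw Γ.mod P0).h []

noncomputable def X5 : ℝ := (tw Γ.mod P1).h [[(1,0),(1,2)],[(1,0)],[(1,1)]]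

noncomputable def X6 : ℝ := (tw Γ.mod P4).h [[(1,0)],[(2,0),(-1,2),(2,4)],[(1,0),(1,4)],[(1,0),(1,5)]]

noncomputable def X7 : ℝ := (tw Γ.mod P1).h [[(2,0),(-1,1),(2,2)],[(1,0)]]

noncomputable def X21 : ℝ := (tw Γ.mod P4).h [[(1,0),(2,5)],[(1,4),(-1,5)]]

noncomputable def X22 : ℝ := (tw Γ.mod P4).h [[(1,0),(2,5)],[(-1,2),(2,4),(-2,5)],[(1,4),(-1,5)]]

noncomputable def X24 : ℝ := (tw Γ.mod P1).h [[(1,0),(-1,1),(2,2)]]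

noncomputable def X35 : ℝ := (tw Γ.mod P4).h [[(1,0),(-2,4),(2,5)]]

noncomputable def X37 : ℝ := (tw Γ.mod P4).h [[(1,0),(-2,4),(2,5)],[(-1,2),(2,4),(-2,5)]]

noncomputable def X38 : ℝ := (tw Γ.mod P4).h [[(2,0),(-1,2),(2,4)],[(1,0),(1,4)],[(1,0),(1,5)]]

noncomputable def X40 : ℝ := (tw Γ.mod P1).h [[(1,0),(-1,1)]]

noncomputable def X52 : ℝ := (tw Γ.mod P4).h [[(1,4),(-1,5)]]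

theorem piece1 : (-100) * X5 Γ + (-220) * X2 Γ + (440) * X0 Γ + (-252) * X1 Γ + (-244) * X3 Γ + (84) * X7 Γ + (-16) * X24 Γ + (24) * X40 Γ ≤ 0 := by
  have h := cert_sound Γ.mod_good okT1 okR1 (g := [(-100, 0), (-220, 1), (440, 2), (-252, 5), (-244, 9), (84, 11), (-16, 17), (24, 22)]) (by decide +kernel)
  have e5 : val Γ.mod P3 tab1 0 = X5 Γ := rfl
  have e2 : val Γ.mod P3 tab1 1 = X2 Γ := rfl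
  have e0 : val Γ.mod P3 tab1 2 = X0 Γ := rfl
  have e1 : val Γ.mod P3 tab1 5 = X1 Γ := rfl
  have e3 : val Γ.mod P3 tab1 9 = X3 Γ := rfl
  have e7 : val Γ.mod P3 tab1 11 = X7 Γ := rfl
  have e24 : val Γ.mod P3 tab1 17 = X24 Γ := rfl
  have e40 : val Γ.mod P3 tab1 22 = X40 Γ := rfl
  simp only [ev, e5, e2, e0, e1, e3, e7, e24, e40, zsmul_eq_mul] at h
  push_cast at h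
  linarith

theorem piece2 : (-8) * X6 Γ + (-86) * X7 Γ + (100) * X5 Γ + (2) * X21 Γ + (2) * X22 Γ + (-41) * X3 Γ + (-24) * X40 Γ + (-2) * X35 Γ + (-48) * X1 Γ + (-7) * X2 Γ + (2) * X37 Γ + (4) * X38 Γ + (12) * X0 Γ + (-2) * X52 Γ + (16) * X24 Γ ≤ 0 := by
  have h := cert_sound Γ.mod_good okT2 okR2 (g := [(-8, 0), (-86, 1), (100, 2), (2, 7), (2, 8), (-41, 13), (-24, 14), (-2, 16), (-48, 18), (-7, 27), (2, 28), (4, 29), (12, 33), (-2, 35), (16, 36)]) (by decide +kernel)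
  have e6 : val Γ.mod P5 tab2 0 = X6 Γ := rfl
  have e7 : val Γ.mod P5 tab2 1 = X7 Γ := rfl
  have e5 : val Γ.mod P5 tab2 2 = X5 Γ := rfl
  have e21 : val Γ.mod P5 tab2 7 = X21 Γ := rfl
  have e22 : val Γ.mod P5 tab2 8 = X22 Γ := rfl
  have e3 : val Γ.mod P5 tab2 13 = X3 Γ := rfl
  have e40 : val Γ.mod P5 tab2 14 = X40 Γ := rfl
  have e35 : val Γ.mod P5 tab2 16 = X35 Γ := rfl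
  have e1 : val Γ.mod P5 tab2 18 = X1 Γ := rfl
  have e2 : val Γ.mod P5 tab2 27 = X2 Γ := rfl
  have e37 : val Γ.mod P5 tab2 28 = X37 Γ := rfl
  have e38 : val Γ.mod P5 tab2 29 = X38 Γ := rfl
  have e0 : val Γ.mod P5 tab2 33 = X0 Γ := rfl
  have e52 : val Γ.mod P5 tab2 35 = X52 Γ := rfl
  have e24 : val Γ.mod P5 tab2 36 = X24 Γ := rfl
  simp only [ev, e6, e7, e5, e21, e22, e3, e40, e35, e1, e2, e37, e38, e0, e52, e24, zsmul_eq_mul] at h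
  push_cast at h
  linarith

theorem piece3 : (2) * X35 Γ + (-2) * X37 Γ + (-4) * X38 Γ + (8) * X6 Γ + (-2) * X22 Γ + (2) * X52 Γ + (2) * X2 Γ + (-2) * X0 Γ + (-2) * X21 Γ + (-4) * X1 Γ + (-6) * X3 Γ + (2) * X7 Γ ≤ 0 := by
  have h := cert_sound Γ.mod_good okT3 okR3 (g := [(2, 5), (-2, 7), (-4, 8), (8, 9), (-2, 11), (2, 16), (2, 18), (-2, 19), (-2, 21), (-4, 24), (-6, 25), (2, 27)]) (by decide +kernel)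
  have e35 : val Γ.mod P6 tab3 5 = X35 Γ := rfl
  have e37 : val Γ.mod P6 tab3 7 = X37 Γ := rfl
  have e38 : val Γ.mod P6 tab3 8 = X38 Γ := rfl
  have e6 : val Γ.mod P6 tab3 9 = X6 Γ := rfl
  have e22 : val Γ.mod P6 tab3 11 = X22 Γ := rfl
  have e52 : val Γ.mod P6 tab3 16 = X52 Γ := rfl
  have e2 : val Γ.mod P6 tab3 18 = X2 Γ := rfl
  have e0 : val Γ.mod P6 tab3 19 = X0 Γ := rfl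
  have e21 : val Γ.mod P6 tab3 21 = X21 Γ := rfl
  have e1 : val Γ.mod P6 tab3 24 = X1 Γ := rfl
  have e3 : val Γ.mod P6 tab3 25 = X3 Γ := rfl
  have e7 : val Γ.mod P6 tab3 27 = X7 Γ := rfl
  simp only [ev, e35, e37, e38, e6, e22, e52, e2, e0, e21, e1, e3, e7, zsmul_eq_mul] at h
  push_cast at h
  linarith

theorem main :
    450 * Γ.A ≤ 304 * Γ.b 0 + 225 * Γ.b 1 + 291 * Γ.b 2 := by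
  have h0 : X0 Γ = Γ.A := Γ.mod_A
  have h1 : X1 Γ = Γ.b (0 : ℤ) := Γ.mod_b 0
  have h2 : X2 Γ = Γ.b (1 : ℤ) := Γ.mod_b 1
  have h3 : X3 Γ = Γ.b (2 : ℤ) := Γ.mod_b 2
  have hn : X4 Γ = 0 := sub_eq_zero.2 (Γ.S.H_congr (Γ.mod.det_W []) fun _ _ h => Mod.X_eq.2 ⟨h, fun _ hv => absurd hv List.not_mem_nil⟩)
  push_cast at h1 h2 h3
  linarith [piece1 Γ, piece2 Γ, piece3 Γ]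

end Pool.Agent.MP_4b405e_nt.H17.C82
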