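import Pool.Agent.MP_4b405e_nt.H17.Ent

/-! Configurations, pairs, corners, paths, and the local entropy inequalities. -/

namespace Pool.Agent.MP_4b405e_nt.H17

variable {Z : Type} [AddCommGroup Z] [Module ℚ Z]

/-- A random progression `a + r d`, with `a` determined by `d` and the conditioning `W`. -/
structure Cfg (Z : Type) [AddCommGroup Z] [Module ℚ Z] where
  S : Sp
  τ : Type
  W : S.Ω → τ
  a : S.Ω → Z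
  d : S.Ω → Z
  det : ∀ ω ω', W ω = W ω' → d ω = d ω' → a ω = a ω'

theorem smul_cancel {c : ℚ} (hc : c ≠ 0) {x y : Z} (h : c • x = c • y) : x = y :=
  smul_right_injective Z hc h

theorem pm {α β : Type} {a c : α} {b d : β} (h1 : a = c) (h2 : b = d) : (a, b) = (c, d) := by
  rw [h1, h2]

namespace Cfg

variable (Γ : Cfg Z)

def pi (r : ℚ) (ω : Γ.S.Ω) : Z := Γ.a ω + r • Γ.d ω

def g (ω : Γ.S.Ω) : Γ.τ × Z := (Γ.W ω, Γ.d ω)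

def wp (r : ℚ) (ω : Γ.S.Ω) : Γ.τ × Z := (Γ.W ω, Γ.pi r ω)

noncomputable def hW : ℝ := Γ.S.H Γ.W

noncomputable def A : ℝ := Γ.S.H Γ.g - Γ.hW

noncomputable def b (r : ℚ) : ℝ := Γ.S.H (Γ.wp r) - Γ.hW

variable {Γ}

theorem g_pi {ω ω' : Γ.S.Ω} (hW : Γ.W ω = Γ.W ω') (hd : Γ.d ω = Γ.d ω') (r : ℚ) :
    Γ.pi r ω = Γ.pi r ω' := by
  unfold pi; rw [Γ.det _ _ hW hd, hd]

theorem pi_pi {ω ω' : Γ.S.Ω} {r s : ℚ} (hrs : r ≠ s) (h1 : Γ.pi r ω = Γ.pi r ω')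
    (h2 : Γ.pi s ω = Γ.pi s ω') : Γ.d ω = Γ.d ω' := by
  refine smul_cancel (sub_ne_zero.2 hrs) ?_
  unfold pi at h1 h2
  linear_combination (norm := module) h1 - h2

variable (Γ)

theorem det_g_wp (r : ℚ) : Det Γ.g (Γ.wp r) := fun _ _ h =>
  pm (Prod.mk.inj h).1 (g_pi (Prod.mk.inj h).1 (Prod.mk.inj h).2 r)

theorem det_wp_W (r : ℚ) : Det (Γ.wp r) Γ.W := fun _ _ h => (Prod.mk.inj h).1

theorem det_g_W : Det Γ.g Γ.W := fun _ _ h => (Prod.mk.inj h).1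

theorem b_nonneg (r : ℚ) : 0 ≤ Γ.b r := sub_nonneg.2 (Γ.S.H_mono (Γ.det_wp_W r))

theorem A_nonneg : 0 ≤ Γ.A := sub_nonneg.2 (Γ.S.H_mono Γ.det_g_W)

theorem A_le_two {r s : ℚ} (hrs : r ≠ s) : Γ.A ≤ Γ.b r + Γ.b s := by
  have := Γ.S.submod (U := Γ.g) (Γ.det_wp_W r) (Γ.det_wp_W s) fun ω ω' h1 h2 =>
    pm (Prod.mk.inj h1).1 (pi_pi hrs (Prod.mk.inj h1).2 (Prod.mk.inj h2).2)
  unfold A b hW
  linarith

/-- Attach to `S` a new point that is conditionally independent of `S` given `(W, π_e)` of the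
point `ρ`. -/
noncomputable def att (e : ℚ) {S : Sp} {ρ : S.Ω → Γ.S.Ω} (h : MP S Γ.S ρ) : Sp :=
  glue S Γ.S (fun ω => Γ.wp e (ρ ω)) (Γ.wp e) (h.law _)

section Att

variable {Γ} {e : ℚ} {S : Sp} {ρ : S.Ω → Γ.S.Ω} (h : MP S Γ.S ρ)

def old (x : (Γ.att e h).Ω) : S.Ω := x.1.1

def new (x : (Γ.att e h).Ω) : Γ.S.Ω := x.1.2

theorem mp_old : MP (Γ.att e h) S (old h) := glue_fst _

theorem mp_new : MP (Γ.att e h) Γ.S (new h) := glue_snd _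

theorem att_W (x : (Γ.att e h).Ω) : Γ.W (new h x) = Γ.W (ρ (old h x)) :=
  (Prod.mk.inj x.2).1.symm

theorem att_pi (x : (Γ.att e h).Ω) : Γ.pi e (new h x) = Γ.pi e (ρ (old h x)) :=
  (Prod.mk.inj x.2).2.symm

theorem att_ci {α β : Type} {X : S.Ω → α} {Y : Γ.S.Ω → β} (hX : Det X fun ω => Γ.wp e (ρ ω))
    (hY : Det Y (Γ.wp e)) :
    (Γ.att e h).H (fun x => (X (old h x), Y (new h x))) + Γ.S.H (Γ.wp e) = S.H X + Γ.S.H Y :=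
  glue_ci _ hX hY

theorem att_map :
    Law (Γ.att e h) (fun x => (ρ (old h x), new h x)) (Γ.att e (MP.id Γ.S))
      fun x => (old (MP.id Γ.S) x, new (MP.id Γ.S) x) :=
  glue_map h _ _

end Att

/-- Pairs sharing `π_e`. -/
noncomputable def V (e : ℚ) : Sp := Γ.att e (MP.id Γ.S)

def v1 (e : ℚ) : (Γ.V e).Ω → Γ.S.Ω := old (MP.id Γ.S)

def v2 (e : ℚ) : (Γ.V e).Ω → Γ.S.Ω := new (MP.id Γ.S)

theorem mp_v1 (e : ℚ) : MP (Γ.V e) Γ.S (Γ.v1 e) := mp_old _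

theorem mp_v2 (e : ℚ) : MP (Γ.V e) Γ.S (Γ.v2 e) := mp_new _

theorem V_W (e : ℚ) (x : (Γ.V e).Ω) : Γ.W (Γ.v2 e x) = Γ.W (Γ.v1 e x) := att_W _ x

theorem V_pi (e : ℚ) (x : (Γ.V e).Ω) : Γ.pi e (Γ.v2 e x) = Γ.pi e (Γ.v1 e x) := att_pi _ x

/-- Joint entropy of `π_r` of the first and `π_s` of the second point of a pair. -/
noncomputable def u (e r s : ℚ) : ℝ :=
  (Γ.V e).H (fun x => (Γ.W (Γ.v1 e x), Γ.pi r (Γ.v1 e x), Γ.pi s (Γ.v2 e x))) - Γ.hW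

/-- Mutual information of `π_r` of the first and `π_s` of the second point of a pair. -/
noncomputable def io (e r s : ℚ) : ℝ := Γ.b r + Γ.b s - Γ.u e r s

theorem io_nonneg (e r s : ℚ) : 0 ≤ Γ.io e r s := by
  have := (Γ.V e).submod (X := fun x => Γ.wp r (Γ.v1 e x)) (Y := fun x => Γ.wp s (Γ.v2 e x))
    (Z := fun x => Γ.W (Γ.v1 e x))
    (U := fun x => (Γ.W (Γ.v1 e x), Γ.pi r (Γ.v1 e x), Γ.pi s (Γ.v2 e x)))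
    (fun _ _ h => (Prod.mk.inj h).1)
    (fun x y h => (Γ.V_W e x).symm.trans ((Prod.mk.inj h).1.trans (Γ.V_W e y)))
    (fun _ _ h1 h2 => pm (Prod.mk.inj h1).1
      (pm (Prod.mk.inj h1).2 (Prod.mk.inj h2).2))
  rw [(Γ.mp_v1 e).H, (Γ.mp_v1 e).H, (Γ.mp_v2 e).H] at this
  unfold io u b hW
  linarith

theorem io_le (e r s : ℚ) : Γ.io e r s ≤ Γ.b r := by
  have := (Γ.V e).H_mono (Y := fun x => Γ.wp s (Γ.v2 e x))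
    (X := fun x => (Γ.W (Γ.v1 e x), Γ.pi r (Γ.v1 e x), Γ.pi s (Γ.v2 e x)))
    fun x y h => pm ((Γ.V_W e x).trans ((Prod.mk.inj h).1.trans (Γ.V_W e y).symm))
      (Prod.mk.inj (Prod.mk.inj h).2).2
  rw [(Γ.mp_v2 e).H] at this
  unfold io u b
  linarith

end Cfg

/-- `Γ'` is `Γ` with a finer conditioning. -/
structure Sub (Γ Γ' : Cfg Z) where
  φ : Γ'.S.Ω → Γ.S.Ω
  mp : MP Γ'.S Γ.S φ
  ha : ∀ ω, Γ'.a ω = Γ.a (φ ω)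
  hd : ∀ ω, Γ'.d ω = Γ.d (φ ω)
  hW : Det Γ'.W fun ω => Γ.W (φ ω)

/-- Another random progression whose `π_c` agrees with that of `Γ`. -/
structure Ext (Γ : Cfg Z) (c : ℚ) where
  S : Sp
  ψ : S.Ω → Γ.S.Ω
  mp : MP S Γ.S ψ
  a : S.Ω → Z
  d : S.Ω → Z
  det : ∀ ω ω', Γ.W (ψ ω) = Γ.W (ψ ω') → d ω = d ω' → a ω = a ω'
  hc : ∀ ω, a ω + c • d ω = Γ.pi c (ψ ω)

def Ext.cfg {Γ : Cfg Z} {c : ℚ} (X : Ext Γ c) : Cfg Z :=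
  ⟨X.S, Γ.τ, fun ω => Γ.W (X.ψ ω), X.a, X.d, X.det⟩

/-- The point `ρ` conditioned on the extra variable `Y`. -/
def Cfg.cond (Γ : Cfg Z) {S : Sp} (ρ : S.Ω → Γ.S.Ω) (Y : S.Ω → Z) : Cfg Z :=
  ⟨S, Γ.τ × Z, fun x => (Γ.W (ρ x), Y x), fun x => Γ.a (ρ x), fun x => Γ.d (ρ x),
    fun _ _ h1 h2 => Γ.det _ _ (Prod.mk.inj h1).1 h2⟩

def Cfg.condSub (Γ : Cfg Z) {S : Sp} {ρ : S.Ω → Γ.S.Ω} (h : MP S Γ.S ρ) (Y : S.Ω → Z) :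
    Sub Γ (Γ.cond ρ Y) :=
  ⟨ρ, h, fun _ => rfl, fun _ => rfl, fun _ _ h => (Prod.mk.inj h).1⟩

theorem Sub.pi {Γ Γ' : Cfg Z} (s : Sub Γ Γ') (r : ℚ) (ω : Γ'.S.Ω) :
    Γ'.pi r ω = Γ.pi r (s.φ ω) := by
  unfold Cfg.pi; rw [s.ha, s.hd]

theorem Sub.b_le {Γ Γ' : Cfg Z} (s : Sub Γ Γ') (r : ℚ) : Γ'.b r ≤ Γ.b r := by
  have := Γ'.S.submod (X := Γ'.W) (Y := fun ω => Γ.wp r (s.φ ω)) (Z := fun ω => Γ.W (s.φ ω))
    (U := Γ'.wp r) s.hW (fun _ _ h => (Prod.mk.inj h).1)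
    fun ω ω' h1 h2 => pm h1 (by
      rw [s.pi, s.pi]; exact (Prod.mk.inj h2).2)
  rw [s.mp.H, s.mp.H] at this
  unfold Cfg.b Cfg.hW
  linarith

/-- Re-randomise along the `π_c`-fibre of the coarser configuration. -/
theorem Sub.ext {Γ Γ' : Cfg Z} (s : Sub Γ Γ') (c : ℚ) :
    ∃ X : Ext Γ' c, Γ'.b c + Γ.A - Γ.b c ≤ X.cfg.A ∧ ∀ r, X.cfg.b r ≤ Γ.b r := by
  let X : Ext Γ' c := ⟨Γ.att c s.mp, Cfg.old s.mp, Cfg.mp_old _, fun x => Γ.a (Cfg.new s.mp x),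
    fun x => Γ.d (Cfg.new s.mp x), fun x y h1 h2 => Γ.det _ _ (by
      rw [Cfg.att_W, Cfg.att_W]; exact s.hW _ _ h1) h2, fun x => by
      rw [s.pi]; exact Cfg.att_pi s.mp x⟩
  have s' : Sub Γ X.cfg := ⟨Cfg.new s.mp, Cfg.mp_new _, fun _ => rfl, fun _ => rfl,
    fun x y h1 => (Cfg.att_W s.mp x).trans ((s.hW _ _ h1).trans (Cfg.att_W s.mp y).symm)⟩
  refine ⟨X, ?_, s'.b_le⟩
  have h1 := Cfg.att_ci s.mp (e := c) (X := Γ'.wp c) (Y := Γ.g)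
    (fun ω ω' h => pm (s.hW _ _ (Prod.mk.inj h).1) (by
      rw [← s.pi, ← s.pi]; exact (Prod.mk.inj h).2)) (Γ.det_g_wp c)
  have h2 : (Γ.att c s.mp).H (fun x => (Γ'.wp c (Cfg.old s.mp x), Γ.g (Cfg.new s.mp x))) ≤
      X.cfg.S.H X.cfg.g := by
    refine (Γ.att c s.mp).H_mono fun x y h => ?_
    have hW' : Γ'.W (Cfg.old s.mp x) = Γ'.W (Cfg.old s.mp y) := (Prod.mk.inj h).1
    have hd : Γ.d (Cfg.new s.mp x) = Γ.d (Cfg.new s.mp y) := (Prod.mk.inj h).2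
    have hW : Γ.W (Cfg.new s.mp x) = Γ.W (Cfg.new s.mp y) := by
      rw [Cfg.att_W, Cfg.att_W]; exact s.hW _ _ hW'
    refine pm (pm hW' ?_) (pm hW hd)
    rw [s.pi, s.pi, ← Cfg.att_pi, ← Cfg.att_pi]
    exact Cfg.g_pi hW hd c
  have h3 : X.cfg.hW = Γ'.hW := (Cfg.mp_old s.mp).H Γ'.W
  unfold Cfg.A Cfg.b
  rw [h3]
  linarith

end Pool.Agent.MP_4b405e_nt.H17
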