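import Mathlib

/-! Shannon entropy on finite probability spaces, and conditionally independent gluing. -/

namespace Pool.Agent.MP_4b405e_nt.H17

open Finset
open scoped Classical

/-- A finite probability space with positive weights. -/
structure Sp where
  Ω : Type
  fin : Fintype Ω
  p : Ω → ℝ
  pos : ∀ ω, 0 < p ω
  tot : ∑ ω, p ω = 1

attribute [instance] Sp.fin

variable {α β γ δ : Type}

/-- Real indicator of a proposition. -/
noncomputable def ind (P : Prop) : ℝ := if P then 1 else 0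

theorem ind_pos {P : Prop} (h : P) : ind P = 1 := if_pos h

theorem ind_neg {P : Prop} (h : ¬ P) : ind P = 0 := if_neg h

theorem ind_nonneg (P : Prop) : 0 ≤ ind P := by unfold ind; split_ifs <;> norm_num

theorem ind_le_one (P : Prop) : ind P ≤ 1 := by unfold ind; split_ifs <;> norm_num

theorem ind_mono {P Q : Prop} (h : P → Q) : ind P ≤ ind Q := by
  by_cases hP : P
  · rw [ind_pos hP, ind_pos (h hP)]
  · rw [ind_neg hP]; exact ind_nonneg _

theorem ind_and (P Q : Prop) : ind (P ∧ Q) = ind P * ind Q := by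
  by_cases hP : P <;> by_cases hQ : Q <;> simp [ind, hP, hQ]

theorem ind_congr {P Q : Prop} (h : P ↔ Q) : ind P = ind Q := by rw [propext h]

namespace Sp

/-- Expectation. -/
noncomputable def E (S : Sp) (f : S.Ω → ℝ) : ℝ := ∑ ω, S.p ω * f ω

/-- Probability that `X = t`. -/
noncomputable def mass (S : Sp) (X : S.Ω → α) (t : α) : ℝ :=
  S.E fun ω => ind (X ω = t)

/-- Shannon entropy. -/
noncomputable def H (S : Sp) (X : S.Ω → α) : ℝ := -S.E fun ω => Real.log (S.mass X (X ω))

theorem E_mono (S : Sp) {f g : S.Ω → ℝ} (h : ∀ ω, f ω ≤ g ω) : S.E f ≤ S.E g :=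
  Finset.sum_le_sum fun ω _ => mul_le_mul_of_nonneg_left (h ω) (S.pos ω).le

theorem E_congr (S : Sp) {f g : S.Ω → ℝ} (h : ∀ ω, f ω = g ω) : S.E f = S.E g := by
  rw [show f = g from funext h]

theorem E_const (S : Sp) (c : ℝ) : S.E (fun _ => c) = c := by
  unfold E; rw [← Finset.sum_mul, S.tot, one_mul]

theorem E_add (S : Sp) (f g : S.Ω → ℝ) : S.E (fun ω => f ω + g ω) = S.E f + S.E g := by
  unfold E; rw [← Finset.sum_add_distrib]; exact Finset.sum_congr rfl fun _ _ => by ring

theorem E_sub (S : Sp) (f g : S.Ω → ℝ) : S.E (fun ω => f ω - g ω) = S.E f - S.E g := by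
  unfold E; rw [← Finset.sum_sub_distrib]; exact Finset.sum_congr rfl fun _ _ => by ring

theorem E_mul (S : Sp) (f : S.Ω → ℝ) (c : ℝ) : S.E (fun ω => f ω * c) = S.E f * c := by
  unfold E; rw [Finset.sum_mul]; exact Finset.sum_congr rfl fun _ _ => by ring

theorem E_div (S : Sp) (f : S.Ω → ℝ) (c : ℝ) : S.E (fun ω => f ω / c) = S.E f / c := by
  simp only [div_eq_mul_inv]; exact S.E_mul f _

theorem E_comm (S T : Sp) (F : S.Ω → T.Ω → ℝ) :
    S.E (fun x => T.E fun y => F x y) = T.E fun y => S.E fun x => F x y := by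
  unfold E
  simp only [Finset.mul_sum]
  rw [Finset.sum_comm]
  exact Finset.sum_congr rfl fun _ _ => Finset.sum_congr rfl fun _ _ => by ring

theorem E_nonneg (S : Sp) {f : S.Ω → ℝ} (h : ∀ ω, 0 ≤ f ω) : 0 ≤ S.E f := by
  have := S.E_mono (f := fun _ => 0) h
  rwa [E_const] at this

theorem mass_nonneg (S : Sp) (X : S.Ω → α) (t : α) : 0 ≤ S.mass X t :=
  S.E_nonneg fun _ => ind_nonneg _

theorem mass_pos (S : Sp) (X : S.Ω → α) (ω : S.Ω) : 0 < S.mass X (X ω) := by
  unfold mass E
  refine lt_of_lt_of_le (S.pos ω) ?_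
  have := Finset.single_le_sum (f := fun ω' => S.p ω' * ind (X ω' = X ω))
    (fun ω' _ => mul_nonneg (S.pos ω').le (ind_nonneg _)) (Finset.mem_univ ω)
  simpa [ind_pos] using this

theorem mass_le_one (S : Sp) (X : S.Ω → α) (t : α) : S.mass X t ≤ 1 := by
  have := S.E_mono (f := fun ω => ind (X ω = t)) (g := fun _ => 1) fun ω => ind_le_one _
  rwa [E_const] at this

end Sp

/-- `X` determines `Y`. -/
def Det {Ω : Type} (X : Ω → α) (Y : Ω → β) : Prop := ∀ ω ω', X ω = X ω' → Y ω = Y ω'

namespace Sp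

theorem H_mono (S : Sp) {X : S.Ω → α} {Y : S.Ω → β} (h : Det X Y) : S.H Y ≤ S.H X := by
  unfold H
  exact neg_le_neg (S.E_mono fun ω => Real.log_le_log (S.mass_pos X ω)
    (S.E_mono fun ω' => ind_mono (h ω' ω)))

theorem H_congr (S : Sp) {X : S.Ω → α} {Y : S.Ω → β} (h : Det X Y) (h' : Det Y X) :
    S.H X = S.H Y := le_antisymm (S.H_mono h') (S.H_mono h)

theorem H_nonneg (S : Sp) (X : S.Ω → α) : 0 ≤ S.H X := by
  unfold H
  have := S.E_mono (f := fun ω => Real.log (S.mass X (X ω))) (g := fun _ => 0)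
    fun ω => Real.log_nonpos (S.mass_nonneg _ _) (S.mass_le_one _ _)
  rw [E_const] at this
  linarith

theorem submod_pair (S : Sp) {X : S.Ω → α} {Y : S.Ω → β} {Z : S.Ω → γ}
    (hX : Det X Z) (hY : Det Y Z) :
    S.H (fun ω => (X ω, Y ω)) + S.H Z ≤ S.H X + S.H Y := by
  set U : S.Ω → α × β := fun ω => (X ω, Y ω) with hU
  have key : S.E (fun ω => S.mass X (X ω) * S.mass Y (Y ω) /
      (S.mass U (U ω) * S.mass Z (Z ω))) ≤ 1 := by
    have e1 : ∀ ω, S.mass X (X ω) * S.mass Y (Y ω) / (S.mass U (U ω) * S.mass Z (Z ω)) =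
        S.E fun x => S.E fun y => ind (U ω = (X x, Y y)) /
          (S.mass U (U ω) * S.mass Z (Z ω)) := by
      intro ω
      simp only [E_div]
      congr 1
      unfold mass
      rw [← E_mul]
      refine S.E_congr fun x => ?_
      rw [mul_comm, ← E_mul]
      refine S.E_congr fun y => ?_
      rw [← ind_and]
      exact ind_congr ⟨fun h => Prod.ext h.2.symm h.1.symm,
        fun h => ⟨(congrArg Prod.snd h).symm, (congrArg Prod.fst h).symm⟩⟩
    rw [S.E_congr e1, E_comm]
    have e2 : ∀ x, (S.E fun ω => S.E fun y => ind (U ω = (X x, Y y)) /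
          (S.mass U (U ω) * S.mass Z (Z ω))) ≤ 1 := by
      intro x
      rw [E_comm]
      have e3 : ∀ y, (S.E fun ω => ind (U ω = (X x, Y y)) /
          (S.mass U (U ω) * S.mass Z (Z ω))) ≤
          ind (Z y = Z x) / S.mass Z (Z x) := by
        intro y
        by_cases hex : ∃ ω, U ω = (X x, Y y)
        · obtain ⟨ω0, h0⟩ := hex
          have hx : X ω0 = X x := congrArg Prod.fst h0
          have hy : Y ω0 = Y y := congrArg Prod.snd h0
          have hz : Z y = Z x := (hY _ _ hy).symm.trans (hX _ _ hx)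
          have : ∀ ω, ind (U ω = (X x, Y y)) /
              (S.mass U (U ω) * S.mass Z (Z ω)) = ind (U ω = U ω0) /
              (S.mass U (U ω0) * S.mass Z (Z x)) := by
            intro ω
            rw [← h0]
            by_cases h1 : U ω = U ω0
            · have : Z ω = Z x := (hX _ _ (congrArg Prod.fst h1)).trans (hX _ _ hx)
              rw [h1, this]
            · simp [ind_neg h1]
          rw [S.E_congr this, E_div, ind_pos hz]
          have p1 := S.mass_pos U ω0
          have p2 := S.mass_pos Z x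
          change S.mass U (U ω0) / _ ≤ _
          rw [div_le_div_iff₀ (by positivity) p2]
          linarith
        · push Not at hex
          have : ∀ ω, ind (U ω = (X x, Y y)) /
              (S.mass U (U ω) * S.mass Z (Z ω)) = 0 := fun ω => by simp [ind_neg (hex ω)]
          rw [S.E_congr this, E_const]
          exact div_nonneg (ind_nonneg _) (S.mass_nonneg _ _)
      refine (S.E_mono e3).trans ?_
      rw [E_div]
      exact (div_self (S.mass_pos Z x).ne').le
    have := S.E_mono e2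
    rwa [E_const] at this
  have step : ∀ ω, Real.log (S.mass X (X ω)) + Real.log (S.mass Y (Y ω)) -
      (Real.log (S.mass U (U ω)) + Real.log (S.mass Z (Z ω))) ≤
      S.mass X (X ω) * S.mass Y (Y ω) / (S.mass U (U ω) * S.mass Z (Z ω)) - 1 := by
    intro ω
    have p1 := S.mass_pos X ω
    have p2 := S.mass_pos Y ω
    have p3 := S.mass_pos U ω
    have p4 := S.mass_pos Z ω
    rw [← Real.log_mul p1.ne' p2.ne', ← Real.log_mul p3.ne' p4.ne',
      ← Real.log_div (by positivity) (by positivity)]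
    exact Real.log_le_sub_one_of_pos (by positivity)
  have := S.E_mono step
  rw [E_sub, E_add, E_add, E_sub, E_const] at this
  unfold H
  linarith

/-- Submodularity. -/
theorem submod (S : Sp) {X : S.Ω → α} {Y : S.Ω → β} {Z : S.Ω → γ} {U : S.Ω → δ}
    (hX : Det X Z) (hY : Det Y Z)
    (hU : ∀ ω ω', X ω = X ω' → Y ω = Y ω' → U ω = U ω') :
    S.H U + S.H Z ≤ S.H X + S.H Y := by
  have h1 := S.submod_pair hX hY
  have h2 : S.H U ≤ S.H fun ω => (X ω, Y ω) :=
    S.H_mono fun ω ω' h => hU ω ω' (congrArg Prod.fst h) (congrArg Prod.snd h)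
  linarith

theorem H_le_log (S : Sp) (X : S.Ω → α) (T : Finset α) (h : ∀ ω, X ω ∈ T) :
    S.H X ≤ Real.log T.card := by
  have hne : Nonempty S.Ω := by
    by_contra hh
    rw [not_nonempty_iff] at hh
    have := S.tot
    simp at this
  obtain ⟨ω0⟩ := hne
  have hT : (0:ℝ) < T.card := by exact_mod_cast Finset.card_pos.2 ⟨_, h ω0⟩
  have key : S.E (fun ω => 1 / S.mass X (X ω)) ≤ T.card := by
    have e1 : ∀ ω, 1 / S.mass X (X ω) =
        ∑ t ∈ T, ind (X ω = t) / S.mass X t := by
      intro ω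
      rw [Finset.sum_eq_single (X ω)]
      · simp [ind_pos]
      · intro t _ ht; simp [ind_neg (Ne.symm ht)]
      · intro hh; exact absurd (h ω) hh
    rw [S.E_congr e1]
    have e2 : S.E (fun ω => ∑ t ∈ T, ind (X ω = t) / S.mass X t) =
        ∑ t ∈ T, S.mass X t / S.mass X t := by
      unfold mass
      simp only [← E_div]
      unfold E
      simp only [Finset.mul_sum]
      rw [Finset.sum_comm]
    rw [e2]
    calc ∑ t ∈ T, S.mass X t / S.mass X t ≤ ∑ _t ∈ T, (1:ℝ) :=
          Finset.sum_le_sum fun t _ => div_self_le_one _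
      _ = T.card := by simp
  have step : ∀ ω, -Real.log (S.mass X (X ω)) - Real.log T.card ≤
      1 / S.mass X (X ω) / T.card - 1 := by
    intro ω
    have p1 := S.mass_pos X ω
    have := Real.log_le_sub_one_of_pos (x := 1 / S.mass X (X ω) / T.card) (by positivity)
    rw [Real.log_div (by positivity) hT.ne', Real.log_div one_ne_zero p1.ne', Real.log_one] at this
    linarith
  have h1 := S.E_mono step
  rw [E_sub, E_sub, E_const, E_const, E_div] at h1
  have h2 : S.E (fun ω => -Real.log (S.mass X (X ω))) = S.H X := by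
    unfold H E; rw [← Finset.sum_neg_distrib]; exact Finset.sum_congr rfl fun _ _ => by ring
  have h3 : S.E (fun ω => 1 / S.mass X (X ω)) / T.card ≤ 1 := (div_le_one hT).2 key
  linarith

end Sp

/-- `X` on `S` and `X'` on `S'` have the same law. -/
def Law (S : Sp) (X : S.Ω → α) (S' : Sp) (X' : S'.Ω → α) : Prop :=
  ∀ f : α → ℝ, S.E (fun ω => f (X ω)) = S'.E fun ω => f (X' ω)

theorem Law.refl (S : Sp) (X : S.Ω → α) : Law S X S X := fun _ => rfl

theorem Law.symm {S S' : Sp} {X : S.Ω → α} {X' : S'.Ω → α} (h : Law S X S' X') :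
    Law S' X' S X := fun f => (h f).symm

theorem Law.trans {S S' S'' : Sp} {X : S.Ω → α} {X' : S'.Ω → α} {X'' : S''.Ω → α}
    (h : Law S X S' X') (h' : Law S' X' S'' X'') : Law S X S'' X'' := fun f => (h f).trans (h' f)

theorem Law.comp {S S' : Sp} {X : S.Ω → α} {X' : S'.Ω → α} (h : Law S X S' X') (F : α → β) :
    Law S (fun ω => F (X ω)) S' fun ω => F (X' ω) := fun f => h fun t => f (F t)

theorem Law.mass {S S' : Sp} {X : S.Ω → α} {X' : S'.Ω → α} (h : Law S X S' X') :
    S.mass X = S'.mass X' := funext fun t => h fun s => ind (s = t)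

theorem Law.H {S S' : Sp} {X : S.Ω → α} {X' : S'.Ω → α} (h : Law S X S' X') :
    S.H X = S'.H X' := by
  unfold Sp.H
  rw [h.mass, h fun t => Real.log (S'.mass X' t)]

/-- Measure preserving maps. -/
def MP (S S' : Sp) (φ : S.Ω → S'.Ω) : Prop := Law S φ S' fun ω => ω

theorem MP.law {S S' : Sp} {φ : S.Ω → S'.Ω} (h : MP S S' φ) (X : S'.Ω → α) :
    Law S (fun ω => X (φ ω)) S' X := Law.comp h X

theorem MP.H {S S' : Sp} {φ : S.Ω → S'.Ω} (h : MP S S' φ) (X : S'.Ω → α) :
    S.H (fun ω => X (φ ω)) = S'.H X := (h.law X).H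

theorem MP.comp {S S' S'' : Sp} {φ : S.Ω → S'.Ω} {ψ : S'.Ω → S''.Ω} (h : MP S S' φ)
    (h' : MP S' S'' ψ) : MP S S'' fun ω => ψ (φ ω) := (h.law ψ).trans h'

theorem MP.id (S : Sp) : MP S S fun ω => ω := Law.refl _ _

section Glue

variable (S T : Sp) (Z : S.Ω → γ) (Z' : T.Ω → γ)

theorem glue_sum (F : S.Ω → T.Ω → ℝ) :
    ∑ x : {x : S.Ω × T.Ω // Z x.1 = Z' x.2},
      S.p x.1.1 * T.p x.1.2 / T.mass Z' (Z x.1.1) * F x.1.1 x.1.2 =
    S.E fun s => T.E (fun t => ind (Z' t = Z s) * F s t) / T.mass Z' (Z s) := by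
  rw [← Finset.sum_subtype (Finset.univ.filter fun x : S.Ω × T.Ω => Z x.1 = Z' x.2)
    (p := fun x : S.Ω × T.Ω => Z x.1 = Z' x.2) (by simp)
    (fun x => S.p x.1 * T.p x.2 / T.mass Z' (Z x.1) * F x.1 x.2)]
  rw [Finset.sum_filter, Fintype.sum_prod_type]
  unfold Sp.E
  refine Finset.sum_congr rfl fun s _ => ?_
  simp only
  rw [Finset.sum_div, Finset.mul_sum]
  refine Finset.sum_congr rfl fun t _ => ?_
  by_cases h : Z s = Z' t
  · rw [if_pos h, ind_pos h.symm]; ring
  · rw [if_neg h, ind_neg (Ne.symm h)]; simp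

/-- Conditionally independent gluing of `S` and `T` along `Z` and `Z'`. -/
noncomputable def glue (h : Law S Z T Z') : Sp where
  Ω := {x : S.Ω × T.Ω // Z x.1 = Z' x.2}
  fin := inferInstance
  p x := S.p x.1.1 * T.p x.1.2 / T.mass Z' (Z x.1.1)
  pos x := by
    have h1 := S.pos x.1.1
    have h2 := T.pos x.1.2
    have h3 : 0 < T.mass Z' (Z x.1.1) := by rw [← h.mass]; exact S.mass_pos Z _
    positivity
  tot := by
    have := glue_sum S T Z Z' fun _ _ => 1
    simp only [mul_one] at this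
    rw [this, S.E_congr (g := fun _ => 1), Sp.E_const]
    intro s
    have h3 : 0 < T.mass Z' (Z s) := by rw [← h.mass]; exact S.mass_pos Z _
    exact div_self h3.ne'

variable {S T Z Z'}

theorem glue_E (h : Law S Z T Z') (F : S.Ω → T.Ω → ℝ) :
    (glue S T Z Z' h).E (fun x => F x.1.1 x.1.2) =
    S.E fun s => T.E (fun t => ind (Z' t = Z s) * F s t) / T.mass Z' (Z s) :=
  glue_sum S T Z Z' F

theorem glue_fst (h : Law S Z T Z') : MP (glue S T Z Z' h) S fun x => x.1.1 := by
  intro f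
  rw [glue_E h fun s _ => f s]
  refine S.E_congr fun s => ?_
  have h3 : 0 < T.mass Z' (Z s) := by rw [← h.mass]; exact S.mass_pos Z _
  rw [Sp.E_mul]
  change T.mass Z' (Z s) * f s / _ = _
  field_simp

theorem glue_snd (h : Law S Z T Z') : MP (glue S T Z Z' h) T fun x => x.1.2 := by
  intro f
  rw [glue_E h fun _ t => f t]
  simp only [← Sp.E_div]
  rw [Sp.E_comm]
  refine T.E_congr fun t => ?_
  have h3 : 0 < S.mass Z (Z' t) := by rw [h.mass]; exact T.mass_pos Z' _
  rw [S.E_congr (g := fun s => ind (Z s = Z' t) * (f t / S.mass Z (Z' t))) fun s => by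
    by_cases hs : Z s = Z' t
    · rw [ind_pos hs, ind_pos hs.symm, hs, h.mass]; ring
    · rw [ind_neg hs, ind_neg (Ne.symm hs)]; simp, Sp.E_mul]
  change S.mass Z (Z' t) * _ = _
  field_simp

theorem glue_map {S' : Sp} {φ : S'.Ω → S.Ω} (hφ : MP S' S φ) (h : Law S Z T Z')
    (h' : Law S' (fun ω => Z (φ ω)) T Z') :
    Law (glue S' T _ Z' h') (fun x => (φ x.1.1, x.1.2)) (glue S T Z Z' h)
      fun x => (x.1.1, x.1.2) := by
  intro f
  rw [glue_E h' fun s t => f (φ s, t), glue_E h fun s t => f (s, t)]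
  exact hφ fun s => T.E (fun t => ind (Z' t = Z s) * f (s, t)) / T.mass Z' (Z s)

/-- Conditional independence in the glued space. -/
theorem glue_ci (h : Law S Z T Z') {X : S.Ω → α} {Y : T.Ω → β} (hX : Det X Z) (hY : Det Y Z') :
    (glue S T Z Z' h).H (fun x => (X x.1.1, Y x.1.2)) + T.H Z' = S.H X + T.H Y := by
  have key : ∀ x : (glue S T Z Z' h).Ω,
      (glue S T Z Z' h).mass (fun x => (X x.1.1, Y x.1.2)) (X x.1.1, Y x.1.2) =
      S.mass X (X x.1.1) * (T.mass Y (Y x.1.2) / T.mass Z' (Z' x.1.2)) := by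
    intro x
    refine (glue_E h fun s t => ind ((X s, Y t) = (X x.1.1, Y x.1.2))).trans ?_
    refine Eq.trans (S.E_congr fun s => ?_) (S.E_mul (fun s => ind (X s = X x.1.1)) _)
    by_cases hs : X s = X x.1.1
    · have hz : Z s = Z' x.1.2 := (hX _ _ hs).trans x.2
      rw [ind_pos hs, one_mul, hz]
      congr 1
      refine T.E_congr fun t => ?_
      rw [← ind_and]
      exact ind_congr ⟨fun hh => congrArg Prod.snd hh.2, fun ht => ⟨hY _ _ ht, Prod.ext hs ht⟩⟩
    · rw [ind_neg hs, zero_mul, T.E_congr (g := fun _ => 0), Sp.E_const, zero_div]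
      intro t
      rw [ind_neg (P := (X s, Y t) = _) fun hh => hs (congrArg Prod.fst hh), mul_zero]
  have e1 : ∀ x : (glue S T Z Z' h).Ω, Real.log
      ((glue S T Z Z' h).mass (fun x => (X x.1.1, Y x.1.2)) (X x.1.1, Y x.1.2)) =
      Real.log (S.mass X (X x.1.1)) + (Real.log (T.mass Y (Y x.1.2)) -
        Real.log (T.mass Z' (Z' x.1.2))) := by
    intro x
    have p1 := S.mass_pos X x.1.1
    have p2 := T.mass_pos Y x.1.2
    have p3 := T.mass_pos Z' x.1.2
    rw [key, Real.log_mul p1.ne' (by positivity), Real.log_div p2.ne' p3.ne']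
  unfold Sp.H
  rw [Sp.E_congr _ e1, Sp.E_add, Sp.E_sub]
  have a1 := glue_fst h fun s => Real.log (S.mass X (X s))
  have a2 := glue_snd h fun t => Real.log (T.mass Y (Y t))
  have a3 := glue_snd h fun t => Real.log (T.mass Z' (Z' t))
  simp only at a1 a2 a3
  rw [a1, a2, a3]
  ring

end Glue

end Pool.Agent.MP_4b405e_nt.H17
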