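import Pool.Agent.MP_4b405e_nt.H17.Local

/-! Inequalities that hold once finitely many slopes are controlled, and the descent. -/

namespace Pool.Agent.MP_4b405e_nt.H17

open scoped Classical

variable {Z : Type} [AddCommGroup Z] [Module ℚ Z]

/-- Admissible triples of slopes. -/
def Adm (B : Finset ℚ) (τ : ℚ × ℚ × ℚ) : Prop :=
  τ.1 ∉ B ∧ τ.2.1 ∉ B ∧ τ.2.2 ∉ B ∧ τ.2.1 ≠ τ.1 ∧ τ.2.2 ≠ τ.1

noncomputable def Cfg.iot (Γ : Cfg Z) (τ : ℚ × ℚ × ℚ) : ℝ := Γ.io τ.1 τ.2.1 τ.2.2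

/-- `P Γ b j` holds whenever `b` bounds the entropies of finitely many projections with slopes
outside `B` and `j ≥ 0` is below finitely many mutual informations. -/
def Ev (B : Finset ℚ) (P : Cfg Z → ℝ → ℝ → Prop) : Prop :=
  ∃ (R : Finset ℚ) (T : Finset (ℚ × ℚ × ℚ)), (∀ r ∈ R, r ∉ B) ∧ (∀ τ ∈ T, Adm B τ) ∧
    ∀ Γ b j, (∀ r ∈ R, Γ.b r ≤ b) → 0 ≤ j → (∀ τ ∈ T, j ≤ Γ.iot τ) → P Γ b j

namespace Ev

variable {B : Finset ℚ} {P Q : Cfg Z → ℝ → ℝ → Prop}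

theorem of_all (h : ∀ Γ b j, 0 ≤ j → P Γ b j) : Ev B P :=
  ⟨∅, ∅, by simp, by simp, fun Γ b j _ hj _ => h Γ b j hj⟩

theorem mono (h : Ev B P) (h' : ∀ Γ b j, 0 ≤ j → P Γ b j → Q Γ b j) : Ev B Q := by
  obtain ⟨R, T, h1, h2, h3⟩ := h
  exact ⟨R, T, h1, h2, fun Γ b j a1 a2 a3 => h' Γ b j a2 (h3 Γ b j a1 a2 a3)⟩

theorem and (h : Ev B P) (h' : Ev B Q) : Ev B fun Γ b j => P Γ b j ∧ Q Γ b j := by
  obtain ⟨R, T, h1, h2, h3⟩ := h
  obtain ⟨R', T', h1', h2', h3'⟩ := h'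
  refine ⟨R ∪ R', T ∪ T', fun r hr => (Finset.mem_union.1 hr).elim (h1 r) (h1' r),
    fun r hr => (Finset.mem_union.1 hr).elim (h2 r) (h2' r), fun Γ b j a1 a2 a3 => ⟨?_, ?_⟩⟩
  · exact h3 Γ b j (fun r hr => a1 r (Finset.mem_union_left _ hr)) a2
      fun r hr => a3 r (Finset.mem_union_left _ hr)
  · exact h3' Γ b j (fun r hr => a1 r (Finset.mem_union_right _ hr)) a2
      fun r hr => a3 r (Finset.mem_union_right _ hr)

theorem fin {ι : Type} (s : Finset ι) {P : ι → Cfg Z → ℝ → ℝ → Prop} (h : ∀ i ∈ s, Ev B (P i)) :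
    Ev B fun Γ b j => ∀ i ∈ s, P i Γ b j := by
  induction s using Finset.induction_on with
  | empty => exact of_all (by simp)
  | insert i s _ ih =>
    refine ((h i (Finset.mem_insert_self _ _)).and
      (ih fun k hk => h k (Finset.mem_insert_of_mem hk))).mono fun Γ b j _ hh k hk => ?_
    rcases Finset.mem_insert.1 hk with rfl | hk
    · exact hh.1
    · exact hh.2 k hk

theorem slope {r : ℚ} (hr : r ∉ B) : Ev B fun (Γ : Cfg Z) b _ => Γ.b r ≤ b :=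
  ⟨{r}, ∅, by simpa using hr, by simp, fun _ _ _ h _ _ => h r (Finset.mem_singleton_self r)⟩

theorem triple {τ : ℚ × ℚ × ℚ} (h : Adm B τ) : Ev B fun (Γ : Cfg Z) _ j => j ≤ Γ.iot τ :=
  ⟨∅, {τ}, by simp, by simpa using h, fun _ _ _ _ _ h => h τ (Finset.mem_singleton_self τ)⟩

theorem nonneg : Ev B fun (_ : Cfg Z) b _ => 0 ≤ b := by
  obtain ⟨r, hr⟩ := Infinite.exists_notMem_finset B
  exact (slope hr).mono fun Γ _ _ _ h => (Γ.b_nonneg r).trans h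

theorem use (h : Ev B P) : ∃ R : Finset ℚ, (∀ r ∈ R, r ∉ B) ∧
    ∀ Γ b, (∀ r ∈ R, Γ.b r ≤ b) → P Γ b 0 := by
  obtain ⟨R, T, h1, _, h3⟩ := h
  exact ⟨R, h1, fun Γ b a1 => h3 Γ b 0 a1 le_rfl fun τ _ => Γ.io_nonneg _ _ _⟩

theorem of_use {P : Cfg Z → ℝ → Prop} {R : Finset ℚ} (h1 : ∀ r ∈ R, r ∉ B)
    (h : ∀ Γ b, (∀ r ∈ R, Γ.b r ≤ b) → P Γ b) : Ev B fun Γ b _ => P Γ b :=
  ⟨R, ∅, h1, by simp, fun Γ b _ a1 _ _ => h Γ b a1⟩

theorem zero (h : Ev B P) : Ev B fun Γ b _ => P Γ b 0 := by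
  obtain ⟨R, h1, h2⟩ := h.use
  exact of_use h1 h2

theorem weaken {B' : Finset ℚ} (h : Ev B' P) (hB : B ⊆ B') : Ev B P := by
  obtain ⟨R, T, h1, h2, h3⟩ := h
  exact ⟨R, T, fun r hr hb => h1 r hr (hB hb), fun τ hτ => ⟨fun hb => (h2 τ hτ).1 (hB hb),
    fun hb => (h2 τ hτ).2.1 (hB hb), fun hb => (h2 τ hτ).2.2.1 (hB hb), (h2 τ hτ).2.2.2⟩, h3⟩

end Ev

theorem exists_adm (B : Finset ℚ) : ∃ τ, Adm B τ := by
  obtain ⟨e, he⟩ := Infinite.exists_notMem_finset B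
  obtain ⟨r, hr⟩ := Infinite.exists_notMem_finset (insert e B)
  rw [Finset.mem_insert, not_or] at hr
  exact ⟨(e, r, r), he, hr.2, hr.2, hr.1, hr.1⟩

theorem descent {B : Finset ℚ} {Φ : Cfg Z → ℝ → ℝ → Prop} {C : ℝ} (hC : 0 < C)
    (h : ∀ τ, Adm B τ → Ev B fun Γ b j => ∀ x, Φ Γ b x → x + C * j ≤ C * Γ.iot τ)
    {ε : ℝ} (hε : 0 < ε) : Ev B fun Γ b _ => ∀ x, Φ Γ b x → x ≤ ε * b := by
  have claim : ∀ J : ℕ, ∀ τ, Adm B τ →
      Ev B fun (Γ : Cfg Z) b _ => ∀ x, Φ Γ b x → J * x ≤ C * Γ.iot τ := by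
    intro J
    induction J with
    | zero =>
      intro τ _
      refine Ev.of_all fun Γ b j _ x _ => ?_
      have := mul_nonneg hC.le (Γ.io_nonneg τ.1 τ.2.1 τ.2.2)
      simpa [Cfg.iot] using this
    | succ J ih =>
      intro τ hτ
      obtain ⟨R, T, h1, h2, h3⟩ := h τ hτ
      refine ((Ev.fin T fun σ hσ => ih σ (h2 σ hσ)).and
        (Ev.fin R fun r hr => Ev.slope (h1 r hr))).mono fun Γ b j _ hh x hx => ?_
      push_cast
      rcases le_total x 0 with h0 | h0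
      · have := mul_nonneg hC.le (Γ.io_nonneg τ.1 τ.2.1 τ.2.2)
        have h5 : ((J:ℝ) + 1) * x ≤ 0 := mul_nonpos_of_nonneg_of_nonpos (by positivity) h0
        exact h5.trans this
      · have := h3 Γ b (J * x / C) hh.2 (by positivity) (fun σ hσ => by
          rw [div_le_iff₀ hC, mul_comm _ C]; exact hh.1 σ hσ x hx) x hx
        rw [mul_div_cancel₀ _ hC.ne'] at this
        linarith
  obtain ⟨τ, hτ⟩ := exists_adm B
  obtain ⟨J, hJ⟩ := exists_nat_gt (C / ε)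
  have hJ0 : (0:ℝ) < J := lt_trans (by positivity) hJ
  refine ((claim J τ hτ).and (Ev.slope hτ.2.1)).mono fun Γ b j _ hh x hx => ?_
  have h1 := hh.1 x hx
  have h2 : Γ.iot τ ≤ b := (Γ.io_le _ _ _).trans hh.2
  have h3 : 0 ≤ b := (Γ.b_nonneg _).trans hh.2
  rw [div_lt_iff₀ hε] at hJ
  have h4 : J * x ≤ J * (ε * b) := by nlinarith [mul_le_mul_of_nonneg_left h2 hC.le]
  exact le_of_mul_le_mul_left h4 hJ0

theorem exists_bad (D B : Finset ℚ) (g : ℚ → ℚ) (hg : Set.InjOn g (D : Set ℚ)ᶜ) :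
    ∃ B' : Finset ℚ, ∀ r ∉ B', r ∉ D ∧ g r ∉ B := by
  have h1 : ((D : Set ℚ)ᶜ ∩ g ⁻¹' (B : Set ℚ)).Finite :=
    Set.Finite.of_finite_image (B.finite_toSet.subset (by
      rintro _ ⟨r, hr, rfl⟩; exact hr.2)) (hg.mono Set.inter_subset_left)
  refine ⟨D ∪ h1.toFinset, fun r hr => ?_⟩
  rw [Finset.mem_union, not_or, Set.Finite.mem_toFinset] at hr
  exact ⟨hr.1, fun hb => hr.2 ⟨hr.1, hb⟩⟩

/-- Slopes usable in the configuration conditioned on `ν`. -/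
theorem bad_nu (B : Finset ℚ) {e f t : ℚ} (hef : e ≠ f) (ht : t ≠ 0) :
    ∃ (B' : Finset ℚ) (s : ℚ → ℚ), ∀ r ∉ B', r ∉ B ∧ r ≠ e ∧ s r ∉ B ∧ s r ≠ e ∧
      (s r - e) * (t * (r - e) - 1) = t * (f - e) * (r - e) := by
  have hfe : f - e ≠ 0 := sub_ne_zero.2 hef.symm
  have hD : ∀ r : ℚ, r ∉ insert e (insert (e + 1 / t) B) → r ∉ B ∧ r ≠ e ∧ t * (r - e) - 1 ≠ 0 := by
    intro r hr
    simp only [Finset.mem_insert, not_or] at hr
    refine ⟨hr.2.2, hr.1, fun h => hr.2.1 ?_⟩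
    field_simp
    linarith
  obtain ⟨B', hB'⟩ := exists_bad (insert e (insert (e + 1 / t) B)) (insert e B)
    (fun r => e + t * (f - e) * (r - e) / (t * (r - e) - 1)) (by
      intro x hx y hy h
      have h1 := (hD x hx).2.2
      have h2 := (hD y hy).2.2
      simp only [add_right_inj] at h
      rw [div_eq_div_iff h1 h2] at h
      have : t * (f - e) * (x - y) = 0 := by linear_combination -h
      simpa [ht, hfe, sub_eq_zero] using this)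
  refine ⟨B', fun r => e + t * (f - e) * (r - e) / (t * (r - e) - 1), fun r hr => ?_⟩
  obtain ⟨h1, h2⟩ := hB' r hr
  rw [Finset.mem_insert, not_or] at h2
  obtain ⟨a1, a2, a3⟩ := hD r h1
  refine ⟨a1, a2, h2.2, h2.1, ?_⟩
  simp only [add_sub_cancel_left]
  exact div_mul_cancel₀ _ a3

/-- Slopes usable in the configuration conditioned on `μ`. -/
theorem bad_mu (B : Finset ℚ) (e : ℚ) {f c t : ℚ} (hcf : c ≠ f) (ht : t ≠ 0) :
    ∃ (B' : Finset ℚ) (s : ℚ → ℚ), ∀ r ∉ B', r ∉ B ∧ r ≠ f ∧ s r ≠ 0 ∧ e + 1 / s r ∉ B ∧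
      s r * (f - r) = t * (c - r) := by
  have hfe : c - f ≠ 0 := sub_ne_zero.2 hcf
  have hD : ∀ r : ℚ, r ∉ insert f (insert c B) → r ∉ B ∧ f - r ≠ 0 ∧ c - r ≠ 0 := by
    intro r hr
    simp only [Finset.mem_insert, not_or] at hr
    exact ⟨hr.2.2, sub_ne_zero.2 (Ne.symm hr.1), sub_ne_zero.2 (Ne.symm hr.2.1)⟩
  obtain ⟨B', hB'⟩ := exists_bad (insert f (insert c B)) B
    (fun r => e + 1 / (t * (c - r) / (f - r))) (by
      intro x hx y hy h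
      obtain ⟨-, h1, h2⟩ := hD x hx
      obtain ⟨-, h3, h4⟩ := hD y hy
      simp only [add_right_inj, one_div, inv_inj] at h
      rw [div_eq_div_iff h1 h3] at h
      have : t * (c - f) * (x - y) = 0 := by linear_combination h
      simpa [ht, hfe, sub_eq_zero] using this)
  refine ⟨B', fun r => t * (c - r) / (f - r), fun r hr => ?_⟩
  obtain ⟨h1, h2⟩ := hB' r hr
  obtain ⟨a1, a2, a3⟩ := hD r h1
  refine ⟨a1, (sub_ne_zero.1 a2).symm, by positivity, h2, ?_⟩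
  field_simp

end Pool.Agent.MP_4b405e_nt.H17
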