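import Pool.Agent.MP_4b405e_nt.H17.Main
import Pool.Agent.MP_4b405e_nt.H19.Final

/-! The sum-difference bound `29 / 16` for four equally spaced slopes. -/

namespace Pool.Agent.MP_4b405e_nt.H17

open scoped Classical

variable {Z : Type} [AddCommGroup Z] [Module ℚ Z]

namespace Cfg

variable (Γ : Cfg Z)

/-- Difference of the two directions of a pair. -/
noncomputable def dl (e : ℚ) (x : (Γ.V e).Ω) : Z := Γ.d (Γ.v1 e x) - Γ.d (Γ.v2 e x)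

/-- The first point of a pair, conditioned on the difference of directions. -/
noncomputable def Dl (e : ℚ) : Cfg Z := Γ.cond (Γ.v1 e) (Γ.dl e)

noncomputable def hd (e : ℚ) : ℝ := (Γ.Dl e).hW - Γ.hW

theorem V_H' (e : ℚ) : (Γ.V e).H (fun x => (Γ.g (Γ.v1 e x), Γ.g (Γ.v2 e x))) + Γ.S.H (Γ.wp e) =
    Γ.S.H Γ.g + Γ.S.H Γ.g := att_ci (MP.id Γ.S) (Γ.det_g_wp e) (Γ.det_g_wp e)

theorem dl_A (e : ℚ) : 2 * Γ.A - Γ.b e - Γ.hd e ≤ (Γ.Dl e).A := by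
  have h1 := Γ.V_H' e
  have h2 : (Γ.V e).H (fun x => (Γ.g (Γ.v1 e x), Γ.g (Γ.v2 e x))) ≤
      (Γ.Dl e).S.H (Γ.Dl e).g := by
    refine (Γ.V e).H_mono fun x y h => ?_
    have hW : Γ.W (Γ.v1 e x) = Γ.W (Γ.v1 e y) := (Prod.mk.inj (Prod.mk.inj h).1).1
    have hn : Γ.dl e x = Γ.dl e y := (Prod.mk.inj (Prod.mk.inj h).1).2
    have hd : Γ.d (Γ.v1 e x) = Γ.d (Γ.v1 e y) := (Prod.mk.inj h).2
    refine pm (pm hW hd) (pm ?_ ?_)
    · rw [V_W, V_W, hW]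
    · unfold dl at hn; rw [hd] at hn; exact sub_right_injective hn
  unfold A b hd at *
  linarith

theorem pi_dl (e r : ℚ) (x : (Γ.V e).Ω) :
    (r - e) • Γ.dl e x = Γ.pi r (Γ.v1 e x) - Γ.pi r (Γ.v2 e x) := by
  have h := Γ.V_pi e x
  unfold dl
  unfold pi at *
  linear_combination (norm := module) h

theorem dl_b {e r : ℚ} (hr : r ≠ e) : (Γ.Dl e).b r ≤ 2 * Γ.b r - Γ.hd e := by
  have h2 : (Γ.Dl e).S.H ((Γ.Dl e).wp r) ≤
      (Γ.V e).H (fun x => (Γ.W (Γ.v1 e x), Γ.pi r (Γ.v1 e x), Γ.pi r (Γ.v2 e x))) := by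
    refine (Γ.V e).H_mono fun x y h => ?_
    have hW : Γ.W (Γ.v1 e x) = Γ.W (Γ.v1 e y) := (Prod.mk.inj h).1
    have h1 : Γ.pi r (Γ.v1 e x) = Γ.pi r (Γ.v1 e y) := (Prod.mk.inj (Prod.mk.inj h).2).1
    have h2 : Γ.pi r (Γ.v2 e x) = Γ.pi r (Γ.v2 e y) := (Prod.mk.inj (Prod.mk.inj h).2).2
    refine pm (pm hW (smul_cancel (sub_ne_zero.2 hr) ?_)) h1
    rw [pi_dl, pi_dl, h1, h2]
  have h3 := Γ.io_nonneg e r r
  unfold io u b hd at *
  linarith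

theorem dl_low {e f c : ℚ} (hf : f ≠ e) (hc : c - e = 2 * (f - e)) :
    2 * (2 * Γ.A - Γ.b e) ≤ Γ.b e + Γ.b f + 2 * Γ.b c + Γ.hd e := by
  have hce : c - e ≠ 0 := by rw [hc]; exact mul_ne_zero two_ne_zero (sub_ne_zero.2 hf)
  let ν : (Γ.V e).Ω → Z := fun x => (2 : ℚ) • Γ.pi f (Γ.v1 e x) - Γ.pi c (Γ.v2 e x)
  have k1 : ∀ x, ν x = Γ.pi e (Γ.v1 e x) + (c - e) • Γ.dl e x := by
    intro x
    have h := Γ.V_pi e x
    simp only [ν]
    unfold dl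
    unfold pi at *
    linear_combination (norm := module) (-1 : ℚ) • h - hc • Γ.d (Γ.v1 e x)
  have k2 : ∀ x, (c - e) • Γ.d (Γ.v2 e x) = Γ.pi c (Γ.v1 e x) - ν x := by
    intro x
    rw [k1]
    unfold dl pi
    module
  have h1 := Γ.V_H' e
  have ha := (Γ.V e).submod (X := fun x => (Γ.W (Γ.v1 e x), ν x))
    (Y := fun x => Γ.wp c (Γ.v1 e x)) (Z := fun x => Γ.W (Γ.v1 e x))
    (U := fun x => (Γ.g (Γ.v1 e x), Γ.g (Γ.v2 e x)))
    (fun _ _ h => (Prod.mk.inj h).1) (fun _ _ h => (Prod.mk.inj h).1) (by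
      intro x y h1 h2
      have hW : Γ.W (Γ.v1 e x) = Γ.W (Γ.v1 e y) := (Prod.mk.inj h1).1
      have hn : ν x = ν y := (Prod.mk.inj h1).2
      have hp : Γ.pi c (Γ.v1 e x) = Γ.pi c (Γ.v1 e y) := (Prod.mk.inj h2).2
      have hW2 : Γ.W (Γ.v2 e x) = Γ.W (Γ.v2 e y) := by rw [V_W, V_W, hW]
      have hd2 : Γ.d (Γ.v2 e x) = Γ.d (Γ.v2 e y) := smul_cancel hce (by rw [k2, k2, hn, hp])
      have he : Γ.pi e (Γ.v1 e x) = Γ.pi e (Γ.v1 e y) := by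
        rw [← V_pi, ← V_pi]; exact g_pi hW2 hd2 e
      exact pm (pm hW (pi_pi (sub_ne_zero.1 hce) hp he)) (pm hW2 hd2))
  have hb := (Γ.V e).submod
    (X := fun x => (Γ.W (Γ.v1 e x), Γ.pi f (Γ.v1 e x), Γ.pi c (Γ.v2 e x)))
    (Y := (Γ.Dl e).wp e) (Z := fun x => (Γ.W (Γ.v1 e x), ν x))
    (U := fun x => (Γ.g (Γ.v1 e x), Γ.g (Γ.v2 e x)))
    (by
      intro x y h
      refine pm (Prod.mk.inj h).1 ?_
      simp only [ν]
      rw [(Prod.mk.inj (Prod.mk.inj h).2).1, (Prod.mk.inj (Prod.mk.inj h).2).2])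
    (by
      intro x y h
      have hW : Γ.W (Γ.v1 e x) = Γ.W (Γ.v1 e y) := (Prod.mk.inj (Prod.mk.inj h).1).1
      have hn : Γ.dl e x = Γ.dl e y := (Prod.mk.inj (Prod.mk.inj h).1).2
      have hp : Γ.pi e (Γ.v1 e x) = Γ.pi e (Γ.v1 e y) := (Prod.mk.inj h).2
      exact pm hW (by rw [k1, k1, hn, hp]))
    (by
      intro x y h1 h2
      have hW : Γ.W (Γ.v1 e x) = Γ.W (Γ.v1 e y) := (Prod.mk.inj h1).1
      have hq : Γ.pi f (Γ.v1 e x) = Γ.pi f (Γ.v1 e y) := (Prod.mk.inj (Prod.mk.inj h1).2).1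
      have hn : Γ.dl e x = Γ.dl e y := (Prod.mk.inj (Prod.mk.inj h2).1).2
      have hp : Γ.pi e (Γ.v1 e x) = Γ.pi e (Γ.v1 e y) := (Prod.mk.inj h2).2
      have hd : Γ.d (Γ.v1 e x) = Γ.d (Γ.v1 e y) := pi_pi hf hq hp
      refine pm (pm hW hd) (pm (by rw [V_W, V_W, hW]) ?_)
      unfold dl at hn; rw [hd] at hn; exact sub_right_injective hn)
  have hc' : (Γ.Dl e).b e ≤ Γ.b e := (Γ.condSub (Γ.mp_v1 e) (Γ.dl e)).b_le e
  have h3 := Γ.io_nonneg e f c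
  rw [(Γ.mp_v1 e).H, (Γ.mp_v1 e).H] at ha
  have h4 : (Γ.V e).H ((Γ.Dl e).wp e) = (Γ.Dl e).S.H ((Γ.Dl e).wp e) := rfl
  unfold io u b hd A hW at *
  linarith

/-- The weighted three-slope bound. -/
theorem three {e f c : ℚ} (hf : f ≠ e) (hc : c - e = 2 * (f - e)) :
    6 * Γ.A ≤ 4 * Γ.b e + 3 * Γ.b f + 4 * Γ.b c := by
  have hce : c ≠ e := sub_ne_zero.1 (by
    rw [hc]; exact mul_ne_zero two_ne_zero (sub_ne_zero.2 hf))
  have hfc : f ≠ c := fun h => hf (by linarith)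
  have h1 := Γ.dl_A e
  have h2 := Γ.dl_b hf
  have h3 := Γ.dl_b hce
  have h4 := Γ.dl_low hf hc
  have h5 := (Γ.Dl e).A_le_two hfc
  linarith

/-- The weighted four-slope bound. -/
theorem four : 32 * Γ.A ≤ 21 * Γ.b 0 + 13 * Γ.b 1 + 16 * Γ.b 2 + 8 * Γ.b 3 := by
  have h1 := Γ.dl_A 0
  have h2 := Γ.dl_b (e := 0) (r := 1) (by norm_num)
  have h3 := Γ.dl_b (e := 0) (r := 2) (by norm_num)
  have h4 := Γ.dl_b (e := 0) (r := 3) (by norm_num)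
  have h5 := Γ.dl_low (e := 0) (f := 1) (c := 2) (by norm_num) (by norm_num)
  have h6 := (Γ.Dl 0).three (e := 1) (f := 2) (c := 3) (by norm_num) (by norm_num)
  linarith

end Cfg

/-- From an entropy bound on the slopes `0, …, k - 1` to the finite bound. -/
theorem sdfin_of_nat {β : ℝ} {k : ℕ} (hk : 0 < k)
    (hR : ∀ (Γ : Cfg (ℕ → ℚ)) (M : ℝ), (∀ i : ℕ, i < k → Γ.b i ≤ M) → Γ.A ≤ β * M) :
    H19.SDfin β 1 k := by
  intro m G N hinj hN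
  rcases G.eq_empty_or_nonempty with rfl | hG
  · simp only [Finset.card_empty, Nat.cast_zero, one_mul]; positivity
  have hd : ∀ x y : G, emb x.1.2 = emb y.1.2 → x = y := fun x y h =>
    Subtype.ext (hinj x.2 y.2 (emb_inj h))
  let Γ : Cfg (ℕ → ℚ) := ⟨unif G hG, Unit, fun _ => (), fun x => emb x.1.1,
    fun x => emb x.1.2, fun x y _ h => by rw [hd x y h]⟩
  have hW : Γ.hW = 0 := H_unit _
  have hA : Γ.A = Real.log G.card := by
    unfold Cfg.A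
    rw [hW, sub_zero]
    exact unif_H G hG _ fun x y h => hd x y (Prod.mk.inj h).2
  have hN1 : (1:ℝ) ≤ N := by
    have := (hG.image fun p => p.1 + ((0:ℕ) : ℤ) • p.2).card_pos.trans_le (hN 0 hk)
    exact_mod_cast this
  have hb : ∀ i : ℕ, i < k → Γ.b i ≤ Real.log N := by
    intro i hi
    unfold Cfg.b
    rw [hW, sub_zero]
    have h1 : Γ.S.H (Γ.wp i) ≤ Γ.S.H fun x : G => x.1.1 + (i : ℤ) • x.1.2 := by
      refine Γ.S.H_mono fun x y h => pm rfl ?_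
      have key : ∀ z : G, Γ.pi i z = emb (z.1.1 + (i : ℤ) • z.1.2) := by
        intro z
        rw [emb_lin]
        simp only [Cfg.pi, Γ]
        push_cast
        rfl
      exact (key x).trans ((congrArg emb h).trans (key y).symm)
    have h2 := Γ.S.H_le_log (fun x : G => x.1.1 + (i : ℤ) • x.1.2)
      (G.image fun p => p.1 + (i : ℤ) • p.2) fun x => Finset.mem_image_of_mem _ x.2
    refine h1.trans (h2.trans (Real.log_le_log ?_ ?_))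
    · exact_mod_cast (hG.image _).card_pos
    · exact_mod_cast hN i hi
  have h := hR Γ _ hb
  rw [hA] at h
  have hc0 : (0:ℝ) < G.card := by exact_mod_cast hG.card_pos
  rw [one_mul, Real.rpow_def_of_pos (by linarith), ← Real.exp_log hc0, Real.exp_le_exp]
  linarith

/-- The covering bound for a fixed length. -/
theorem ap_fixed {α : ℝ} {k : ℕ} (hα : 0 < α) (hk : H19.SDfin α 1 k) (n : ℕ) :
    ∃ c : ℝ, 0 < c ∧ ∀ B : Set (EuclideanSpace ℝ (Fin n)),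
      (∀ r : EuclideanSpace ℝ (Fin n), (∀ i, r i ∈ Set.Icc (0 : ℝ) 1) →
        ∃ a : EuclideanSpace ℝ (Fin n), ∀ j : ℕ, j < k → a + (j : ℝ) • r ∈ B) →
      ∀ δ : ℝ, 0 < δ → ∀ 𝒰 : Finset (Set (EuclideanSpace ℝ (Fin n))),
        (∀ U ∈ 𝒰, ∀ x ∈ U, ∀ y ∈ U, dist x y ≤ δ) → B ⊆ (⋃ U ∈ 𝒰, U) →
        c * δ ^ (-((n : ℝ) / α)) ≤ (𝒰.card : ℝ) := by
  obtain ⟨c, hc, h1⟩ := H19.ap_cover hk hα one_pos n
  exact ⟨c * 2 ^ (-((n : ℝ) / α)), by positivity, fun B hB δ hδ 𝒰 hd hU =>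
    H19.sets_of_balls hc (h1 B hB) δ hδ 𝒰 hd hU⟩

theorem sdfin_four : H19.SDfin (29 / 16) 1 4 := by
  refine sdfin_of_nat (by norm_num) fun Γ M h => ?_
  have h0 := h 0 (by norm_num)
  have h1 := h 1 (by norm_num)
  have h2 := h 2 (by norm_num)
  have h3 := h 3 (by norm_num)
  have h4 := Γ.four
  push_cast at h0 h1 h2 h3
  linarith

end Pool.Agent.MP_4b405e_nt.H17
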