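import Mathlib

/-! Integer vectors, and a small verified elimination procedure. -/

namespace Pool.Agent.MP_4b405e_nt.H17

/-- Sparse integer vectors. -/
abbrev SV := List (ℤ × ℕ)

variable {Z : Type} [AddCommGroup Z] [Module ℚ Z]

def ev : SV → (ℕ → Z) → Z
  | [], _ => 0
  | p :: v, y => p.1 • y p.2 + ev v y

def act (π : ℕ → ℕ) (v : SV) : SV := v.map fun p => (p.1, π p.2)

def sc (c : ℤ) (v : SV) : SV := v.map fun p => (c * p.1, p.2)

theorem ev_act (π : ℕ → ℕ) (v : SV) (y : ℕ → Z) : ev (act π v) y = ev v fun j => y (π j) := by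
  induction v with
  | nil => rfl
  | cons p v ih => simp only [act, List.map_cons, ev] at ih ⊢; rw [ih]

theorem ev_sc (c : ℤ) (v : SV) (y : ℕ → Z) : ev (sc c v) y = c • ev v y := by
  induction v with
  | nil => simp [sc, ev]
  | cons p v ih => simp only [sc, List.map_cons, ev] at ih ⊢; rw [ih, smul_add, mul_smul]

theorem ev_append (u v : SV) (y : ℕ → Z) : ev (u ++ v) y = ev u y + ev v y := by
  induction u with
  | nil => simp [ev]
  | cons p u ih => simp only [List.cons_append, ev, ih, add_assoc]

theorem ev_sub (v : SV) (y y' : ℕ → Z) : ev v (y - y') = ev v y - ev v y' := by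
  induction v with
  | nil => simp [ev]
  | cons p v ih => simp only [ev, ih, Pi.sub_apply, smul_sub]; abel

def evD : List ℤ → (ℕ → Z) → Z
  | [], _ => 0
  | c :: v, y => c • y 0 + evD v fun j => y (j + 1)

theorem evD_sub (v : List ℤ) (y y' : ℕ → Z) : evD v (y - y') = evD v y - evD v y' := by
  induction v generalizing y y' with
  | nil => simp [evD]
  | cons c v ih =>
    have := ih (fun j => y (j + 1)) fun j => y' (j + 1)
    simp only [evD, Pi.sub_apply, smul_sub]
    rw [show (fun j => y (j + 1) - y' (j + 1)) = (fun j => y (j + 1)) - fun j => y' (j + 1)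
      from rfl, this]
    abel

def single : ℕ → ℤ → List ℤ
  | 0, c => [c]
  | j + 1, c => 0 :: single j c

theorem evD_single (j : ℕ) (c : ℤ) (y : ℕ → Z) : evD (single j c) y = c • y j := by
  induction j generalizing y with
  | zero => simp [single, evD]
  | succ j ih => simp [single, evD, ih]

def addAt : List ℤ → ℕ → ℤ → List ℤ
  | [], j, c => single j c
  | a :: l, 0, c => (a + c) :: l
  | a :: l, j + 1, c => a :: addAt l j c

theorem evD_addAt (l : List ℤ) (j : ℕ) (c : ℤ) (y : ℕ → Z) :
    evD (addAt l j c) y = c • y j + evD l y := by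
  induction l generalizing j y with
  | nil => simp [addAt, evD_single, evD]
  | cons a l ih =>
    cases j with
    | zero => simp only [addAt, evD, add_smul]; abel
    | succ j => simp only [addAt, evD, ih]; abel

def dense : SV → List ℤ
  | [] => []
  | p :: v => addAt (dense v) p.2 p.1

theorem evD_dense (v : SV) (y : ℕ → Z) : evD (dense v) y = ev v y := by
  induction v with
  | nil => rfl
  | cons p v ih => simp only [dense, evD_addAt, ev, ih]

def isZ (t : List ℤ) : Bool := t.all fun c => c == 0

theorem evD_isZ {t : List ℤ} (h : isZ t = true) (y : ℕ → Z) : evD t y = 0 := by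
  induction t generalizing y with
  | nil => rfl
  | cons c t ih =>
    simp only [isZ, List.all_cons, Bool.and_eq_true, beq_iff_eq] at h
    simp only [evD, h.1, zero_smul, zero_add]
    exact ih h.2 _

theorem evD_map (q : ℤ) (s : List ℤ) (y : ℕ → Z) :
    evD (s.map fun b => q * b) y = q • evD s y := by
  induction s generalizing y with
  | nil => simp [evD]
  | cons b s ih => simp only [List.map_cons, evD, ih, smul_add, mul_smul]

/-- `p • t + q • s`. -/
def lc (p q : ℤ) : List ℤ → List ℤ → List ℤ
  | [], s => s.map fun b => q * b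
  | a :: t, [] => (p * a) :: lc p q t []
  | a :: t, b :: s => (p * a + q * b) :: lc p q t s

theorem evD_lc (p q : ℤ) (t s : List ℤ) (y : ℕ → Z) :
    evD (lc p q t s) y = p • evD t y + q • evD s y := by
  induction t generalizing s y with
  | nil => simp [lc, evD_map, evD]
  | cons a t ih =>
    cases s with
    | nil => simp only [lc, evD, ih, smul_add, mul_smul, smul_zero, add_zero]
    | cons b s => simp only [lc, evD, ih, smul_add, mul_smul, add_smul]; abel

def piv : List ℤ → List ℤ → ℤ × ℤ
  | [], _ => (0, 0)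
  | c :: b, t => if c = 0 then piv b t.tail else (c, t.headD 0)

theorem piv_ne (b t : List ℤ) (h : (piv b t).2 ≠ 0) : (piv b t).1 ≠ 0 := by
  induction b generalizing t with
  | nil => exact absurd rfl h
  | cons c b ih =>
    unfold piv at h ⊢
    split_ifs at h ⊢ with hc
    · exact ih _ h
    · exact hc

def elimBy (pq : ℤ × ℤ) (b t : List ℤ) : List ℤ := if pq.2 = 0 then t else lc pq.1 (-pq.2) t b

def elim (b t : List ℤ) : List ℤ := elimBy (piv b t) b t

theorem zsmul_zero_iff {p : ℤ} (hp : p ≠ 0) {x : Z} : p • x = 0 ↔ x = 0 := by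
  refine ⟨fun h => ?_, fun h => by rw [h, smul_zero]⟩
  have h1 : (p : ℚ) • x = 0 := by rw [Int.cast_smul_eq_zsmul]; exact h
  exact (smul_eq_zero.1 h1).resolve_left (by exact_mod_cast hp)

theorem elim_iff {b : List ℤ} {y : ℕ → Z} (hb : evD b y = 0) (t : List ℤ) :
    evD (elim b t) y = 0 ↔ evD t y = 0 := by
  unfold elim elimBy
  split_ifs with h
  · rfl
  · rw [evD_lc, hb, smul_zero, add_zero, zsmul_zero_iff (piv_ne b t h)]

def red : List (List ℤ) → List ℤ → List ℤ
  | [], t => t
  | b :: B, t => red B (elim b t)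

/-- All vectors of `B` vanish at `y`. -/
def Ker (y : ℕ → Z) (B : List (List ℤ)) : Prop := ∀ b ∈ B, evD b y = 0

theorem red_iff {B : List (List ℤ)} {y : ℕ → Z} (hB : Ker y B) (t : List ℤ) :
    evD (red B t) y = 0 ↔ evD t y = 0 := by
  induction B generalizing t with
  | nil => rfl
  | cons b B ih =>
    rw [red, ih fun c hc => hB c (List.mem_cons_of_mem _ hc),
      elim_iff (hB b List.mem_cons_self)]

def mem (B : List (List ℤ)) (v : SV) : Bool := isZ (red B (dense v))

theorem mem_sound {B : List (List ℤ)} {y : ℕ → Z} (hB : Ker y B) {v : SV}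
    (h : mem B v = true) : ev v y = 0 := by
  rw [← evD_dense, ← red_iff hB]
  exact evD_isZ h y

def ins (B : List (List ℤ)) (v : SV) : List (List ℤ) := B ++ [red B (dense v)]

theorem ins_ker {B : List (List ℤ)} {y : ℕ → Z} (hB : Ker y B) {v : SV} (h : ev v y = 0) :
    Ker y (ins B v) := by
  intro b hb
  rcases List.mem_append.1 hb with hb | hb
  · exact hB b hb
  · rw [List.mem_singleton.1 hb, red_iff hB, evD_dense, h]

def insL : List (List ℤ) → List SV → List (List ℤ)
  | B, [] => B
  | B, v :: K => insL (ins B v) K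

theorem insL_ker {K : List SV} {B : List (List ℤ)} {y : ℕ → Z} (hB : Ker y B)
    (h : ∀ v ∈ K, ev v y = 0) : Ker y (insL B K) := by
  induction K generalizing B with
  | nil => exact hB
  | cons v K ih =>
    exact ih (ins_ker hB (h v List.mem_cons_self)) fun w hw => h w (List.mem_cons_of_mem _ hw)

/-- Apply the rules `y (N + l) = 0 → y l = 0`. -/
def clo (N : ℕ) : List (List ℤ) → List ℕ → List (List ℤ)
  | B, [] => B
  | B, l :: r => if l < N ∧ mem B [(1, N + l)] = true then clo N (ins B [(1, l)]) r else B

theorem clo_ker {N : ℕ} {r : List ℕ} {B : List (List ℤ)} {y : ℕ → Z} (hB : Ker y B)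
    (h : ∀ l < N, y (N + l) = 0 → y l = 0) : Ker y (clo N B r) := by
  induction r generalizing B with
  | nil => exact hB
  | cons l r ih =>
    unfold clo
    split_ifs with hl
    · refine ih (ins_ker hB ?_)
      have := mem_sound hB hl.2
      simp only [ev, one_smul, add_zero] at this ⊢
      exact h l hl.1 this
    · exact hB

def detAux (B : List (List ℤ)) (T : List SV) : Bool := T.all fun t => mem B t

def det (N : ℕ) (B : List (List ℤ)) (K T : List SV) (r : List ℕ) : Bool :=
  detAux (clo N (insL B K) r) T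

theorem det_sound {N : ℕ} {B : List (List ℤ)} {K T : List SV} {r : List ℕ} {y : ℕ → Z}
    (hd : det N B K T r = true) (hB : Ker y B) (h : ∀ l < N, y (N + l) = 0 → y l = 0)
    (hK : ∀ v ∈ K, ev v y = 0) : ∀ v ∈ T, ev v y = 0 := fun v hv =>
  mem_sound (clo_ker (insL_ker hB hK) h) (List.all_eq_true.1 hd v hv)

end Pool.Agent.MP_4b405e_nt.H17
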