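import Pool.Agent.MP_4b405e_nt.H17.Cfg

/-! The local inequalities for the four conditionings. -/

namespace Pool.Agent.MP_4b405e_nt.H17

variable {Z : Type} [AddCommGroup Z] [Module ℚ Z]

namespace Cfg

variable (Γ : Cfg Z)

theorem pi_split (c h r : ℚ) (ω : Γ.S.Ω) :
    (h - r) • Γ.pi c ω = (c - r) • Γ.pi h ω + (h - c) • Γ.pi r ω := by
  unfold pi; module

/-! ### Pairs -/

noncomputable def nu (e f t : ℚ) (x : (Γ.V e).Ω) : Z := Γ.d (Γ.v2 e x) + t • Γ.pi f (Γ.v1 e x)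

noncomputable def Nu (e f t : ℚ) : Cfg Z := Γ.cond (Γ.v2 e) (Γ.nu e f t)

noncomputable def n (e f t : ℚ) : ℝ := (Γ.Nu e f t).hW - Γ.hW

theorem V_H (e : ℚ) : (Γ.V e).H (fun x => (Γ.g (Γ.v1 e x), Γ.g (Γ.v2 e x))) + Γ.S.H (Γ.wp e) =
    Γ.S.H Γ.g + Γ.S.H Γ.g := att_ci (MP.id Γ.S) (Γ.det_g_wp e) (Γ.det_g_wp e)

theorem nu_A {e f t : ℚ} (hef : e ≠ f) (ht : t ≠ 0) :
    2 * Γ.A - Γ.b e - Γ.n e f t ≤ (Γ.Nu e f t).A := by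
  have h1 := Γ.V_H e
  have h2 : (Γ.V e).H (fun x => (Γ.g (Γ.v1 e x), Γ.g (Γ.v2 e x))) ≤
      (Γ.Nu e f t).S.H (Γ.Nu e f t).g := by
    refine (Γ.V e).H_mono fun x y h => ?_
    have hW : Γ.W (Γ.v2 e x) = Γ.W (Γ.v2 e y) := (Prod.mk.inj (Prod.mk.inj h).1).1
    have hn : Γ.nu e f t x = Γ.nu e f t y := (Prod.mk.inj (Prod.mk.inj h).1).2
    have hd : Γ.d (Γ.v2 e x) = Γ.d (Γ.v2 e y) := (Prod.mk.inj h).2
    refine pm (pm ?_ (pi_pi hef ?_ (smul_cancel ht ?_))) (pm hW hd)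
    · rw [← V_W, ← V_W, hW]
    · rw [← V_pi, ← V_pi]; exact g_pi hW hd e
    · unfold nu at hn; rw [hd] at hn; exact add_left_cancel hn
  unfold A b n at *
  linarith

theorem nu_b {e f t r s : ℚ} (hr : r ≠ e) (hs : (s - e) * (t * (r - e) - 1) = t * (f - e) * (r - e)) :
    (Γ.Nu e f t).b r ≤ Γ.b s + Γ.b r - Γ.io e s r - Γ.n e f t := by
  have key : ∀ x, (r - e) • Γ.nu e f t x =
      Γ.pi r (Γ.v2 e x) + (t * (r - e) - 1) • Γ.pi s (Γ.v1 e x) := by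
    intro x
    have h := Γ.V_pi e x
    unfold nu
    unfold pi at *
    linear_combination (norm := module) (-1 : ℚ) • h - hs • Γ.d (Γ.v1 e x)
  have h2 : (Γ.Nu e f t).S.H ((Γ.Nu e f t).wp r) ≤
      (Γ.V e).H (fun x => (Γ.W (Γ.v1 e x), Γ.pi s (Γ.v1 e x), Γ.pi r (Γ.v2 e x))) := by
    refine (Γ.V e).H_mono fun x y h => ?_
    have hW : Γ.W (Γ.v1 e x) = Γ.W (Γ.v1 e y) := (Prod.mk.inj h).1
    have h1 : Γ.pi s (Γ.v1 e x) = Γ.pi s (Γ.v1 e y) := (Prod.mk.inj (Prod.mk.inj h).2).1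
    have h2 : Γ.pi r (Γ.v2 e x) = Γ.pi r (Γ.v2 e y) := (Prod.mk.inj (Prod.mk.inj h).2).2
    refine pm (pm ?_ (smul_cancel (sub_ne_zero.2 hr) ?_)) h2
    · rw [V_W, V_W, hW]
    · rw [key, key, h1, h2]
  unfold io u b n at *
  linarith

theorem nu_r0 {e f t r : ℚ} (hef : e ≠ f) (ht : t ≠ 0) (hr : t * (r - e) = 1) :
    (Γ.Nu e f t).A ≤ (Γ.Nu e f t).b r := by
  have key : ∀ x, (t * (f - e)) • Γ.d (Γ.v1 e x) = Γ.nu e f t x - t • Γ.pi r (Γ.v2 e x) := by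
    intro x
    have h := Γ.V_pi e x
    unfold nu
    unfold pi at *
    linear_combination (norm := module) t • h + hr • Γ.d (Γ.v2 e x)
  have h2 : (Γ.Nu e f t).S.H (Γ.Nu e f t).g ≤ (Γ.Nu e f t).S.H ((Γ.Nu e f t).wp r) := by
    refine (Γ.V e).H_mono fun x y h => ?_
    have hW : Γ.W (Γ.v2 e x) = Γ.W (Γ.v2 e y) := (Prod.mk.inj (Prod.mk.inj h).1).1
    have hn : Γ.nu e f t x = Γ.nu e f t y := (Prod.mk.inj (Prod.mk.inj h).1).2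
    have hp : Γ.pi r (Γ.v2 e x) = Γ.pi r (Γ.v2 e y) := (Prod.mk.inj h).2
    have hd : Γ.d (Γ.v1 e x) = Γ.d (Γ.v1 e y) :=
      smul_cancel (mul_ne_zero ht (sub_ne_zero.2 hef.symm)) (by rw [key, key, hn, hp])
    have hW1 : Γ.W (Γ.v1 e x) = Γ.W (Γ.v1 e y) := by rw [← V_W, ← V_W, hW]
    refine pm (pm hW hn) ?_
    unfold nu at hn
    rw [g_pi hW1 hd f] at hn
    exact add_right_cancel hn
  unfold A b
  linarith

/-! ### Corners -/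

noncomputable def C (e f : ℚ) : Sp := Γ.att e (Γ.mp_v1 f)

noncomputable def c1 (e f : ℚ) (x : (Γ.C e f).Ω) : Γ.S.Ω := new (Γ.mp_v1 f) x

noncomputable def c2 (e f : ℚ) (x : (Γ.C e f).Ω) : Γ.S.Ω := Γ.v1 f (old (Γ.mp_v1 f) x)

noncomputable def c3 (e f : ℚ) (x : (Γ.C e f).Ω) : Γ.S.Ω := Γ.v2 f (old (Γ.mp_v1 f) x)

theorem mp_c1 (e f : ℚ) : MP (Γ.C e f) Γ.S (Γ.c1 e f) := mp_new _

theorem mp_c3 (e f : ℚ) : MP (Γ.C e f) Γ.S (Γ.c3 e f) := (mp_old _).comp (Γ.mp_v2 f)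

theorem C_W1 (e f : ℚ) (x : (Γ.C e f).Ω) : Γ.W (Γ.c1 e f x) = Γ.W (Γ.c3 e f x) :=
  (att_W _ x).trans (Γ.V_W f _).symm

theorem C_W2 (e f : ℚ) (x : (Γ.C e f).Ω) : Γ.W (Γ.c2 e f x) = Γ.W (Γ.c3 e f x) :=
  (Γ.V_W f _).symm

theorem C_e (e f : ℚ) (x : (Γ.C e f).Ω) : Γ.pi e (Γ.c2 e f x) = Γ.pi e (Γ.c1 e f x) :=
  (att_pi _ x).symm

theorem C_f (e f : ℚ) (x : (Γ.C e f).Ω) : Γ.pi f (Γ.c2 e f x) = Γ.pi f (Γ.c3 e f x) :=
  (Γ.V_pi f _).symm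

noncomputable def mu (e f c t : ℚ) (x : (Γ.C e f).Ω) : Z := Γ.d (Γ.c1 e f x) + t • Γ.pi c (Γ.c3 e f x)

noncomputable def Mu (e f c t : ℚ) : Cfg Z := Γ.cond (Γ.c3 e f) (Γ.mu e f c t)

noncomputable def m (e f c t : ℚ) : ℝ := (Γ.Mu e f c t).hW - Γ.hW

theorem mu_A {e f : ℚ} (c t : ℚ) (hef : e ≠ f) :
    3 * Γ.A - Γ.b e - Γ.b f - Γ.m e f c t ≤ (Γ.Mu e f c t).A := by
  have h0 := Γ.V_H f
  have h1 := att_ci (Γ.mp_v1 f) (e := e) (X := fun x => (Γ.g (Γ.v1 f x), Γ.g (Γ.v2 f x)))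
    (fun x y h => Γ.det_g_wp e _ _ (Prod.mk.inj h).1) (Γ.det_g_wp e)
  have h2 : (Γ.C e f).H (fun x => ((Γ.g (Γ.c2 e f x), Γ.g (Γ.c3 e f x)), Γ.g (Γ.c1 e f x))) ≤
      (Γ.Mu e f c t).S.H (Γ.Mu e f c t).g := by
    refine (Γ.C e f).H_mono fun x y h => ?_
    have hW : Γ.W (Γ.c3 e f x) = Γ.W (Γ.c3 e f y) := (Prod.mk.inj (Prod.mk.inj h).1).1
    have hn : Γ.mu e f c t x = Γ.mu e f c t y := (Prod.mk.inj (Prod.mk.inj h).1).2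
    have hd : Γ.d (Γ.c3 e f x) = Γ.d (Γ.c3 e f y) := (Prod.mk.inj h).2
    have hW1 : Γ.W (Γ.c1 e f x) = Γ.W (Γ.c1 e f y) := by rw [C_W1, C_W1, hW]
    have hd1 : Γ.d (Γ.c1 e f x) = Γ.d (Γ.c1 e f y) := by
      unfold mu at hn
      rw [g_pi hW hd c] at hn
      exact add_right_cancel hn
    refine pm (pm (pm ?_ (pi_pi hef ?_ ?_)) (pm hW hd)) (pm hW1 hd1)
    · rw [C_W2, C_W2, hW]
    · rw [C_e, C_e]; exact g_pi hW1 hd1 e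
    · rw [C_f, C_f]; exact g_pi hW hd f
  have h3 : (Γ.C e f).H (fun x => ((Γ.g (Γ.c2 e f x), Γ.g (Γ.c3 e f x)), Γ.g (Γ.c1 e f x))) +
    Γ.S.H (Γ.wp e) = _ := h1
  unfold A b m at *
  linarith

theorem mu_b {e f c t r t' : ℚ} (hr : r ≠ f) (ht : t' * (f - r) = t * (c - r)) :
    (Γ.Mu e f c t).b r ≤ Γ.b r + Γ.n e f t' - Γ.m e f c t := by
  have key : ∀ x, (f - r) • Γ.mu e f c t x =
      (f - r) • (Γ.d (Γ.c1 e f x) + t' • Γ.pi f (Γ.c2 e f x)) +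
        (t * (f - c)) • Γ.pi r (Γ.c3 e f x) := by
    intro x
    rw [C_f]
    unfold mu
    linear_combination (norm := module) t • Γ.pi_split c f r (Γ.c3 e f x) -
      ht • Γ.pi f (Γ.c3 e f x)
  have h1 := (Γ.C e f).submod (X := fun x => Γ.wp r (Γ.c3 e f x))
    (Y := fun x => (Γ.W (Γ.c1 e f x), Γ.d (Γ.c1 e f x) + t' • Γ.pi f (Γ.c2 e f x)))
    (Z := fun x => Γ.W (Γ.c3 e f x)) (U := (Γ.Mu e f c t).wp r)
    (fun _ _ h => (Prod.mk.inj h).1)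
    (fun x y h => (Γ.C_W1 e f x).symm.trans ((Prod.mk.inj h).1.trans (Γ.C_W1 e f y)))
    (fun x y h1 h2 => pm (pm (Prod.mk.inj h1).1 (smul_cancel (sub_ne_zero.2 hr.symm) (by
      rw [key, key, (Prod.mk.inj h1).2, (Prod.mk.inj h2).2]))) (Prod.mk.inj h1).2)
  have h2 : (Γ.C e f).H (fun x => (Γ.W (Γ.c1 e f x), Γ.d (Γ.c1 e f x) + t' • Γ.pi f (Γ.c2 e f x)))
      = (Γ.Nu e f t').hW :=
    ((att_map (Γ.mp_v1 f)).comp fun z => (Γ.W z.2, Γ.d z.2 + t' • Γ.pi f z.1)).H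
  rw [h2, (Γ.mp_c3 e f).H, (Γ.mp_c3 e f).H] at h1
  have h3 : (Γ.C e f).H ((Γ.Mu e f c t).wp r) = (Γ.Mu e f c t).S.H ((Γ.Mu e f c t).wp r) := rfl
  unfold b n m hW at *
  linarith

theorem corner_low (e f c : ℚ) : Γ.A + Γ.b c - Γ.io f e c + Γ.hW ≤
    (Γ.C e f).H fun x => (Γ.g (Γ.c1 e f x), Γ.pi c (Γ.c3 e f x)) := by
  have h1 := att_ci (Γ.mp_v1 f) (e := e)
    (X := fun x => (Γ.W (Γ.v1 f x), Γ.pi e (Γ.v1 f x), Γ.pi c (Γ.v2 f x)))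
    (fun x y h => pm (Prod.mk.inj h).1 (Prod.mk.inj (Prod.mk.inj h).2).1) (Γ.det_g_wp e)
  have h2 : (Γ.C e f).H (fun x => ((Γ.W (Γ.c2 e f x), Γ.pi e (Γ.c2 e f x), Γ.pi c (Γ.c3 e f x)),
      Γ.g (Γ.c1 e f x))) ≤ (Γ.C e f).H fun x => (Γ.g (Γ.c1 e f x), Γ.pi c (Γ.c3 e f x)) := by
    refine (Γ.C e f).H_mono fun x y h => ?_
    have hg : Γ.g (Γ.c1 e f x) = Γ.g (Γ.c1 e f y) := (Prod.mk.inj h).1
    refine pm (pm ?_ (pm ?_ (Prod.mk.inj h).2)) hg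
    · rw [C_W2, C_W2, ← C_W1, ← C_W1]; exact (Prod.mk.inj hg).1
    · rw [C_e, C_e]; exact g_pi (Prod.mk.inj hg).1 (Prod.mk.inj hg).2 e
  have h3 : (Γ.C e f).H (fun x => ((Γ.W (Γ.c2 e f x), Γ.pi e (Γ.c2 e f x), Γ.pi c (Γ.c3 e f x)),
      Γ.g (Γ.c1 e f x))) + Γ.S.H (Γ.wp e) = _ := h1
  unfold io u A b at *
  linarith

theorem mu_c (e f c t : ℚ) : Γ.A + Γ.b c - Γ.io f e c - Γ.m e f c t ≤ (Γ.Mu e f c t).b c := by
  have h1 := Γ.corner_low e f c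
  have h2 : ((Γ.C e f).H fun x => (Γ.g (Γ.c1 e f x), Γ.pi c (Γ.c3 e f x))) ≤
      (Γ.Mu e f c t).S.H ((Γ.Mu e f c t).wp c) := by
    refine (Γ.C e f).H_mono fun x y h => ?_
    have hW : Γ.W (Γ.c3 e f x) = Γ.W (Γ.c3 e f y) := (Prod.mk.inj (Prod.mk.inj h).1).1
    have hn : Γ.mu e f c t x = Γ.mu e f c t y := (Prod.mk.inj (Prod.mk.inj h).1).2
    have hp : Γ.pi c (Γ.c3 e f x) = Γ.pi c (Γ.c3 e f y) := (Prod.mk.inj h).2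
    refine pm (pm ?_ ?_) hp
    · rw [C_W1, C_W1, hW]
    · unfold mu at hn
      rw [hp] at hn
      exact add_right_cancel hn
  unfold b m at *
  linarith

theorem m_low (e f c t : ℚ) : Γ.A - Γ.io f e c ≤ Γ.m e f c t := by
  have h1 := Γ.mu_c e f c t
  have h2 : (Γ.Mu e f c t).b c ≤ Γ.b c := (Γ.condSub (Γ.mp_c3 e f) _).b_le c
  linarith

/-! ### Paths with four points -/

noncomputable def P (e f h : ℚ) : Sp := Γ.att h (Γ.mp_c3 e f)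

noncomputable def p0 (e f h : ℚ) (x : (Γ.P e f h).Ω) : (Γ.C e f).Ω := old (Γ.mp_c3 e f) x

noncomputable def p1 (e f h : ℚ) (x : (Γ.P e f h).Ω) : Γ.S.Ω := Γ.c1 e f (Γ.p0 e f h x)

noncomputable def p4 (e f h : ℚ) (x : (Γ.P e f h).Ω) : Γ.S.Ω := new (Γ.mp_c3 e f) x

theorem mp_p0 (e f h : ℚ) : MP (Γ.P e f h) (Γ.C e f) (Γ.p0 e f h) := mp_old _

theorem mp_p1 (e f h : ℚ) : MP (Γ.P e f h) Γ.S (Γ.p1 e f h) := (mp_old _).comp (Γ.mp_c1 e f)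

theorem mp_p4 (e f h : ℚ) : MP (Γ.P e f h) Γ.S (Γ.p4 e f h) := mp_new _

theorem P_W3 (e f h : ℚ) (x : (Γ.P e f h).Ω) :
    Γ.W (Γ.c3 e f (Γ.p0 e f h x)) = Γ.W (Γ.p4 e f h x) := (att_W _ x).symm

theorem P_W1 (e f h : ℚ) (x : (Γ.P e f h).Ω) : Γ.W (Γ.p1 e f h x) = Γ.W (Γ.p4 e f h x) :=
  (Γ.C_W1 e f _).trans (Γ.P_W3 e f h x)

theorem P_h (e f h : ℚ) (x : (Γ.P e f h).Ω) :
    Γ.pi h (Γ.c3 e f (Γ.p0 e f h x)) = Γ.pi h (Γ.p4 e f h x) := (att_pi _ x).symm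

noncomputable def psi (e f h c u : ℚ) (x : (Γ.P e f h).Ω) : Z :=
  Γ.d (Γ.p1 e f h x) + u • Γ.pi c (Γ.p4 e f h x)

noncomputable def Psi (e f h c u : ℚ) : Cfg Z := Γ.cond (Γ.p4 e f h) (Γ.psi e f h c u)

noncomputable def m2 (e f h c u : ℚ) : ℝ := (Γ.Psi e f h c u).hW - Γ.hW

theorem path_low (e f h : ℚ) : 2 * Γ.A - Γ.io f e h + Γ.hW ≤
    (Γ.P e f h).H fun x => (Γ.g (Γ.p1 e f h x), Γ.g (Γ.p4 e f h x)) := by
  have h0 := Γ.corner_low e f h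
  have h1 := att_ci (Γ.mp_c3 e f) (e := h)
    (X := fun x => (Γ.g (Γ.c1 e f x), Γ.pi h (Γ.c3 e f x)))
    (fun x y hh => pm ((Γ.C_W1 e f x).symm.trans ((Prod.mk.inj (Prod.mk.inj hh).1).1.trans
      (Γ.C_W1 e f y))) (Prod.mk.inj hh).2) (Γ.det_g_wp h)
  have h2 : (Γ.P e f h).H (fun x => ((Γ.g (Γ.p1 e f h x), Γ.pi h (Γ.c3 e f (Γ.p0 e f h x))),
      Γ.g (Γ.p4 e f h x))) ≤ (Γ.P e f h).H fun x => (Γ.g (Γ.p1 e f h x), Γ.g (Γ.p4 e f h x)) := by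
    refine (Γ.P e f h).H_mono fun x y hh => ?_
    have hg : Γ.g (Γ.p4 e f h x) = Γ.g (Γ.p4 e f h y) := (Prod.mk.inj hh).2
    refine pm (pm (Prod.mk.inj hh).1 ?_) hg
    rw [P_h, P_h]; exact g_pi (Prod.mk.inj hg).1 (Prod.mk.inj hg).2 h
  have h3 : (Γ.P e f h).H (fun x => ((Γ.g (Γ.p1 e f h x), Γ.pi h (Γ.c3 e f (Γ.p0 e f h x))),
      Γ.g (Γ.p4 e f h x))) + Γ.S.H (Γ.wp h) = _ := h1
  unfold A b at *
  linarith

theorem psi_A (e f h c u : ℚ) :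
    2 * Γ.A - Γ.io f e h - Γ.m2 e f h c u ≤ (Γ.Psi e f h c u).A := by
  have h1 := Γ.path_low e f h
  have h2 : ((Γ.P e f h).H fun x => (Γ.g (Γ.p1 e f h x), Γ.g (Γ.p4 e f h x))) ≤
      (Γ.Psi e f h c u).S.H (Γ.Psi e f h c u).g := by
    refine (Γ.P e f h).H_mono fun x y hh => ?_
    have hW : Γ.W (Γ.p4 e f h x) = Γ.W (Γ.p4 e f h y) := (Prod.mk.inj (Prod.mk.inj hh).1).1
    have hn : Γ.psi e f h c u x = Γ.psi e f h c u y := (Prod.mk.inj (Prod.mk.inj hh).1).2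
    have hd : Γ.d (Γ.p4 e f h x) = Γ.d (Γ.p4 e f h y) := (Prod.mk.inj hh).2
    refine pm (pm ?_ ?_) (pm hW hd)
    · rw [P_W1, P_W1, hW]
    · unfold psi at hn
      rw [g_pi hW hd c] at hn
      exact add_right_cancel hn
  unfold A m2 at *
  linarith

theorem psi_b {e f h c u r t' : ℚ} (hr : r ≠ h) (ht : t' * (h - r) = u * (c - r)) :
    (Γ.Psi e f h c u).b r ≤ Γ.b r + Γ.m e f h t' - Γ.m2 e f h c u := by
  have key : ∀ x, (h - r) • Γ.psi e f h c u x =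
      (h - r) • Γ.mu e f h t' (Γ.p0 e f h x) + (u * (h - c)) • Γ.pi r (Γ.p4 e f h x) := by
    intro x
    unfold mu psi p1
    rw [P_h]
    linear_combination (norm := module) u • Γ.pi_split c h r (Γ.p4 e f h x) -
      ht • Γ.pi h (Γ.p4 e f h x)
  have h1 := (Γ.P e f h).submod (X := fun x => Γ.wp r (Γ.p4 e f h x))
    (Y := fun x => (Γ.Mu e f h t').W (Γ.p0 e f h x))
    (Z := fun x => Γ.W (Γ.p4 e f h x)) (U := (Γ.Psi e f h c u).wp r)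
    (fun _ _ h => (Prod.mk.inj h).1)
    (fun x y hh => (Γ.P_W3 e f h x).symm.trans ((Prod.mk.inj hh).1.trans (Γ.P_W3 e f h y)))
    (fun x y h1 h2 => pm (pm (Prod.mk.inj h1).1 (smul_cancel (sub_ne_zero.2 hr.symm) (by
      rw [key, key, (Prod.mk.inj h1).2, (Prod.mk.inj h2).2]))) (Prod.mk.inj h1).2)
  rw [(Γ.mp_p4 e f h).H, (Γ.mp_p4 e f h).H] at h1
  have h3 : (Γ.P e f h).H ((Γ.Psi e f h c u).wp r) =
    (Γ.Psi e f h c u).S.H ((Γ.Psi e f h c u).wp r) := rfl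
  have h4 : ((Γ.P e f h).H fun x => (Γ.Mu e f h t').W (Γ.p0 e f h x)) = (Γ.Mu e f h t').hW :=
    (Γ.mp_p0 e f h).H (Γ.Mu e f h t').W
  unfold b m2 m at *
  unfold hW at *
  linarith

/-! ### The noise step -/

theorem chi {c : ℚ} (X : Ext Γ c) (e f h : ℚ) : ∃ (Γ' : Cfg Z) (w T : ℝ),
    Γ.A + X.cfg.A - Γ.io f e h ≤ T ∧ T - w ≤ Γ'.A ∧ T - Γ.A ≤ w ∧
      ∀ r u : ℚ, u * (r - c) = -1 → Γ'.b r ≤ X.cfg.b r + Γ.m2 e f h c u - w := by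
  have hl : Law (Γ.P e f h) (fun x => Γ.wp c (Γ.p4 e f h x)) X.S fun y => Γ.wp c (X.ψ y) :=
    ((Γ.mp_p4 e f h).law _).trans (X.mp.law _).symm
  let Q := glue _ _ _ _ hl
  let q1 : Q.Ω → (Γ.P e f h).Ω := fun x => x.1.1
  let q2 : Q.Ω → X.S.Ω := fun x => x.1.2
  have m1 : MP Q _ q1 := glue_fst hl
  have m2' : MP Q _ q2 := glue_snd hl
  have qW : ∀ x, Γ.W (Γ.p4 e f h (q1 x)) = Γ.W (X.ψ (q2 x)) := fun x => (Prod.mk.inj x.2).1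
  have qc : ∀ x, Γ.pi c (Γ.p4 e f h (q1 x)) = X.cfg.pi c (q2 x) := fun x =>
    (Prod.mk.inj x.2).2.trans (X.hc _).symm
  let χ : Q.Ω → Z := fun x => X.d (q2 x) + Γ.d (Γ.p1 e f h (q1 x))
  let Γ' : Cfg Z := X.cfg.cond q2 χ
  let Y : (Γ.P e f h).Ω → (Γ.τ × Z) × Z := fun x => (Γ.g (Γ.p1 e f h x), Γ.pi c (Γ.p4 e f h x))
  have hWX : X.cfg.hW = Γ.hW := X.mp.H Γ.W
  have hY : Det Y fun x => Γ.wp c (Γ.p4 e f h x) := fun x y hh =>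
    pm ((Γ.P_W1 e f h x).symm.trans ((Prod.mk.inj (Prod.mk.inj hh).1).1.trans
      (Γ.P_W1 e f h y))) (Prod.mk.inj hh).2
  have full : ∀ x y : Q.Ω, Γ.W (X.ψ (q2 x)) = Γ.W (X.ψ (q2 y)) → X.d (q2 x) = X.d (q2 y) →
      Γ.d (Γ.p1 e f h (q1 x)) = Γ.d (Γ.p1 e f h (q1 y)) →
      (Y (q1 x), X.cfg.g (q2 x)) = (Y (q1 y), X.cfg.g (q2 y)) := by
    intro x y hW hd hd1
    refine pm (pm (pm ?_ hd1) ?_) (pm hW hd)
    · rw [P_W1, P_W1, qW, qW, hW]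
    · rw [qc, qc]; exact g_pi (Γ := X.cfg) hW hd c
  refine ⟨Γ', Γ'.hW - Γ.hW, Q.H (fun x => (Y (q1 x), X.cfg.g (q2 x))) - Γ.hW, ?_, ?_, ?_, ?_⟩
  · have h1 : Q.H (fun x => (Y (q1 x), X.cfg.g (q2 x))) + _ = _ :=
      glue_ci hl (X := Y) (Y := X.cfg.g) hY fun x y hh => pm (Prod.mk.inj hh).1 (by
        rw [← X.hc, ← X.hc]; exact g_pi (Γ := X.cfg) (Prod.mk.inj hh).1 (Prod.mk.inj hh).2 c)
    have h2 := (Γ.P e f h).submod (X := Y) (Y := fun x => Γ.g (Γ.p4 e f h x))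
      (U := fun x => (Γ.g (Γ.p1 e f h x), Γ.g (Γ.p4 e f h x))) hY
      (fun x y hh => Γ.det_g_wp c _ _ hh) (fun x y h1 h2 => pm (Prod.mk.inj h1).1 h2)
    rw [(Γ.mp_p4 e f h).H, (Γ.mp_p4 e f h).H] at h2
    rw [X.mp.H] at h1
    have h3 := Γ.path_low e f h
    have h4 : X.S.H X.cfg.g = X.cfg.S.H X.cfg.g := rfl
    unfold A at *
    linarith
  · have h2 : Q.H (fun x => (Y (q1 x), X.cfg.g (q2 x))) ≤ Γ'.S.H Γ'.g := by
      refine Q.H_mono fun x y hh => ?_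
      have hd : X.d (q2 x) = X.d (q2 y) := (Prod.mk.inj hh).2
      have hx : χ x = χ y := (Prod.mk.inj (Prod.mk.inj hh).1).2
      refine full x y (Prod.mk.inj (Prod.mk.inj hh).1).1 hd ?_
      simp only [χ] at hx
      rw [hd] at hx
      exact add_left_cancel hx
    unfold A
    linarith
  · have h2 := Q.submod (X := Γ'.W) (Y := fun x => Γ.g (Γ.p1 e f h (q1 x)))
      (Z := fun x => Γ.W (Γ.p1 e f h (q1 x))) (U := fun x => (Y (q1 x), X.cfg.g (q2 x)))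
      (fun x y hh => by
        have hW : Γ.W (X.ψ (q2 x)) = Γ.W (X.ψ (q2 y)) := (Prod.mk.inj hh).1
        simp only
        rw [P_W1, P_W1, qW, qW, hW])
      (fun _ _ hh => (Prod.mk.inj hh).1) (fun x y h1 h2 => by
        have hd : Γ.d (Γ.p1 e f h (q1 x)) = Γ.d (Γ.p1 e f h (q1 y)) := (Prod.mk.inj h2).2
        have hx : χ x = χ y := (Prod.mk.inj h1).2
        refine full x y (Prod.mk.inj h1).1 ?_ hd
        simp only [χ] at hx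
        rw [hd] at hx
        exact add_right_cancel hx)
    rw [(m1.comp (Γ.mp_p1 e f h)).H, (m1.comp (Γ.mp_p1 e f h)).H] at h2
    have h4 : Q.H Γ'.W = Γ'.hW := rfl
    unfold A
    unfold hW at *
    linarith
  · intro r u hu
    have hr : r - c ≠ 0 := by
      intro h0; rw [h0] at hu; simp at hu
    have key : ∀ x, (r - c) • χ x = X.cfg.pi r (q2 x) + (r - c) • Γ.psi e f h c u (q1 x) := by
      intro x
      unfold psi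
      rw [qc]
      simp only [χ, pi, Ext.cfg]
      linear_combination (norm := module) (-1 : ℚ) • hu • (X.a (q2 x) + c • X.d (q2 x))
    have h1 := Q.submod (X := fun x => X.cfg.wp r (q2 x))
      (Y := fun x => (Γ.Psi e f h c u).W (q1 x))
      (Z := fun x => X.cfg.W (q2 x)) (U := Γ'.wp r)
      (fun _ _ h => (Prod.mk.inj h).1)
      (fun x y hh => (qW x).symm.trans ((Prod.mk.inj hh).1.trans (qW y)))
      (fun x y h1 h2 => pm (pm (Prod.mk.inj h1).1 (smul_cancel hr (by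
        rw [key, key, (Prod.mk.inj h1).2, (Prod.mk.inj h2).2]))) (Prod.mk.inj h1).2)
    have h3 : Q.H (Γ'.wp r) = Γ'.S.H (Γ'.wp r) := rfl
    have h4 : (Q.H fun x => (Γ.Psi e f h c u).W (q1 x)) = (Γ.Psi e f h c u).hW :=
      m1.H (Γ.Psi e f h c u).W
    have h5 : (Q.H fun x => X.cfg.W (q2 x)) = X.cfg.hW := m2'.H X.cfg.W
    have h6 : (Q.H fun x => X.cfg.wp r (q2 x)) = X.cfg.S.H (X.cfg.wp r) := m2'.H (X.cfg.wp r)
    unfold b m2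
    linarith

end Cfg

end Pool.Agent.MP_4b405e_nt.H17
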