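import Pool.Agent.MP_4b405e_nt.H17.Steps
import Pool.Agent.MP_4b405e_nt.H19.Disc

/-! The numerical iteration and the finite sum-difference bound. -/

namespace Pool.Agent.MP_4b405e_nt.H17

open scoped Classical

theorem sd_final (Z : Type) [AddCommGroup Z] [Module ℚ Z] : SD Z (167253 / 100000) := by
  have h0 : SD Z (17501 / 10000) ∧ MB Z 14 7 := by
    have hM : MB Z 14 7 := muSD sd_two (nuSD (p := 5) (q := 2) sd_two (by norm_num) (by norm_num)
      (by norm_num)) (by norm_num) (by norm_num) (by norm_num) (by norm_num)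
    exact ⟨sdOf hM (by norm_num) (by norm_num), hM⟩
  have h1 : SD Z (16896701 / 10000000) ∧
      MB Z (10385469 / 500000) (352903 / 31250) :=
    round (P := (17498667 / 500000)) (Q := (4892449 / 250000))
      (p1 := (6415819 / 1000000)) (q1 := (1460387 / 500000)) h0
      (by norm_num) (by norm_num) (by norm_num) (by norm_num) (by norm_num) (by norm_num)
      (by norm_num) (by norm_num) (by norm_num) (by norm_num) (by norm_num) (by norm_num)
  have h2 : SD Z (16764417 / 10000000) ∧
      MB Z (2781869 / 125000) (12275113 / 1000000) :=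
    round (P := (10667623 / 200000)) (Q := (31159009 / 1000000))
      (p1 := (3324863 / 500000)) (q1 := (1542039 / 500000)) h1
      (by norm_num) (by norm_num) (by norm_num) (by norm_num) (by norm_num) (by norm_num)
      (by norm_num) (by norm_num) (by norm_num) (by norm_num) (by norm_num) (by norm_num)
  have h3 : SD Z (3346831 / 2000000) ∧
      MB Z (22676729 / 1000000) (2510233 / 200000) :=
    round (P := (28816653 / 500000)) (Q := (4246857 / 125000))
      (p1 := (6718971 / 1000000)) (q1 := (3131269 / 1000000)) h2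
      (by norm_num) (by norm_num) (by norm_num) (by norm_num) (by norm_num) (by norm_num)
      (by norm_num) (by norm_num) (by norm_num) (by norm_num) (by norm_num) (by norm_num)
  have h4 : SD Z (2090907 / 1250000) ∧
      MB Z (22773151 / 1000000) (6307199 / 500000) :=
    round (P := (29417949 / 500000)) (Q := (34756749 / 1000000))
      (p1 := (1683647 / 250000)) (q1 := (785487 / 250000)) h3
      (by norm_num) (by norm_num) (by norm_num) (by norm_num) (by norm_num) (by norm_num)
      (by norm_num) (by norm_num) (by norm_num) (by norm_num) (by norm_num) (by norm_num)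
  have h5 : SD Z (16725681 / 10000000) ∧
      MB Z (22795391 / 1000000) (12628977 / 1000000) :=
    round (P := (59111707 / 1000000)) (Q := (34936383 / 1000000))
      (p1 := (6738193 / 1000000)) (q1 := (3144411 / 1000000)) h4
      (by norm_num) (by norm_num) (by norm_num) (by norm_num) (by norm_num) (by norm_num)
      (by norm_num) (by norm_num) (by norm_num) (by norm_num) (by norm_num) (by norm_num)
  have h6 : SD Z (16725319 / 10000000) ∧
      MB Z (22800471 / 1000000) (12632309 / 1000000) :=
    round (P := (5917529 / 100000)) (Q := (34977783 / 1000000))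
      (p1 := (842377 / 125000)) (q1 := (1572487 / 500000)) h5
      (by norm_num) (by norm_num) (by norm_num) (by norm_num) (by norm_num) (by norm_num)
      (by norm_num) (by norm_num) (by norm_num) (by norm_num) (by norm_num) (by norm_num)
  have h7 : SD Z (167253 / 100000) ∧
      MB Z (22801639 / 1000000) (6316537 / 500000) :=
    round (P := (14797457 / 250000)) (Q := (34987253 / 1000000))
      (p1 := (1347841 / 200000)) (q1 := (3145103 / 1000000)) h6
      (by norm_num) (by norm_num) (by norm_num) (by norm_num) (by norm_num) (by norm_num)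
      (by norm_num) (by norm_num) (by norm_num) (by norm_num) (by norm_num) (by norm_num)
  exact h7.1

/-- The uniform measure on a nonempty finite set. -/
noncomputable def unif {α : Type} (G : Finset α) (h : G.Nonempty) : Sp where
  Ω := G
  fin := inferInstance
  p _ := 1 / G.card
  pos _ := by have := h.card_pos; positivity
  tot := by
    have : (G.card : ℝ) ≠ 0 := by have := h.card_pos; positivity
    simp only [Finset.sum_const, Finset.card_univ, Fintype.card_coe, nsmul_eq_mul]
    field_simp

theorem unif_H {α β : Type} (G : Finset α) (h : G.Nonempty) (X : (unif G h).Ω → β)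
    (hX : Function.Injective X) : (unif G h).H X = Real.log G.card := by
  have key : ∀ ω, (unif G h).mass X (X ω) = 1 / G.card := by
    intro ω
    unfold Sp.mass Sp.E
    rw [Finset.sum_eq_single ω]
    · exact (congrArg (_ * ·) (ind_pos rfl)).trans (mul_one _)
    · intro ω' _ hne; simp only; rw [ind_neg fun hh => hne (hX hh), mul_zero]
    · intro hh; exact absurd (Finset.mem_univ ω) hh
  unfold Sp.H
  simp only [key]
  rw [Sp.E_const, one_div, Real.log_inv, neg_neg]

theorem H_unit (S : Sp) : S.H (fun _ => ()) = 0 := by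
  refine le_antisymm ?_ (S.H_nonneg _)
  simpa using S.H_le_log (fun _ => ()) {()} fun _ => Finset.mem_singleton_self _

/-- Embedding of integer vectors into a fixed rational vector space. -/
def emb {m : ℕ} (x : Fin m → ℤ) : ℕ → ℚ := fun i => if h : i < m then (x ⟨i, h⟩ : ℚ) else 0

theorem emb_inj {m : ℕ} : Function.Injective (emb (m := m)) := by
  intro x y h
  funext i
  have := congrFun h i
  simp only [emb, i.2, dif_pos] at this
  exact_mod_cast this

theorem emb_lin {m : ℕ} (x y : Fin m → ℤ) (i : ℤ) :
    emb (x + i • y) = emb x + (i : ℚ) • emb y := by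
  funext j
  by_cases h : j < m <;> simp [emb, h]

theorem clear (R : Finset ℚ) : ∃ (L : ℕ) (i0 : ℤ) (k : ℕ), 0 < L ∧ 0 < k ∧
    ∀ r ∈ R, ∃ i : ℕ, i < k ∧ (i : ℚ) = i0 + r * L := by
  induction R using Finset.induction_on with
  | empty => exact ⟨1, 0, 1, one_pos, one_pos, by simp⟩
  | insert s R _ ih =>
    obtain ⟨L, i0, k, hL, hk, h⟩ := ih
    let c : ℕ := (s.num * L).natAbs + (i0 * s.den).natAbs
    have hd := s.den_pos
    refine ⟨L * s.den, i0 * s.den + c, k * s.den + 3 * c + 1, by positivity, by positivity, ?_⟩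
    intro r hr
    rcases Finset.mem_insert.1 hr with rfl | hr
    · refine ⟨(i0 * r.den + c + r.num * L).toNat, ?_, ?_⟩
      · omega
      · have h1 : (((i0 * r.den + c + r.num * L).toNat : ℤ)) = i0 * r.den + c + r.num * L := by
          omega
        have h2 : (((i0 * r.den + c + r.num * L).toNat : ℕ) : ℚ) =
            ((i0 * r.den + c + r.num * L : ℤ) : ℚ) := by exact_mod_cast h1
        rw [h2]
        push_cast
        have := Rat.mul_den_eq_num r
        linear_combination (-(L : ℚ)) * this
    · obtain ⟨i, hi, e⟩ := h r hr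
      refine ⟨i * s.den + c, ?_, ?_⟩
      · have : i * s.den ≤ k * s.den := Nat.mul_le_mul_right _ hi.le
        omega
      · push_cast
        rw [e]; ring

theorem sdfin_of {β : ℝ} (hS : SD (ℕ → ℚ) β) :
    ∃ k, 0 < k ∧ H19.SDfin β 1 k := by
  obtain ⟨R, -, hR⟩ := (hS ∅).use
  obtain ⟨L, i0, k, hL, hk, hc⟩ := clear R
  refine ⟨k, hk, fun m G N hinj hN => ?_⟩
  rcases G.eq_empty_or_nonempty with rfl | hG
  · simp only [Finset.card_empty, Nat.cast_zero, one_mul]; positivity
  have hL' : (L : ℚ) ≠ 0 := by positivity
  have hsnd : ∀ x y : G, x.1.2 = y.1.2 → x = y := fun x y h => Subtype.ext (hinj x.2 y.2 h)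
  have hd : ∀ x y : G, (L : ℚ) • emb x.1.2 = (L : ℚ) • emb y.1.2 → x = y := fun x y h =>
    hsnd x y (emb_inj (smul_cancel hL' h))
  let Γ : Cfg (ℕ → ℚ) := ⟨unif G hG, Unit, fun _ => (), fun x => emb x.1.1 + (i0 : ℚ) • emb x.1.2,
    fun x => (L : ℚ) • emb x.1.2, fun x y _ h => by rw [hd x y h]⟩
  have hW : Γ.hW = 0 := H_unit _
  have hA : Γ.A = Real.log G.card := by
    unfold Cfg.A
    rw [hW, sub_zero]
    exact unif_H G hG _ fun x y h => hd x y (Prod.mk.inj h).2
  have hN1 : (1:ℝ) ≤ N := by
    have := (hG.image fun p => p.1 + ((0:ℕ) : ℤ) • p.2).card_pos.trans_le (hN 0 hk)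
    exact_mod_cast this
  have hb : ∀ r ∈ R, Γ.b r ≤ Real.log N := by
    intro r hr
    obtain ⟨i, hi, e⟩ := hc r hr
    unfold Cfg.b
    rw [hW, sub_zero]
    have h1 : Γ.S.H (Γ.wp r) ≤ Γ.S.H fun x : G => x.1.1 + (i : ℤ) • x.1.2 := by
      refine Γ.S.H_mono fun x y h => pm rfl ?_
      have key : ∀ z : G, Γ.pi r z = emb (z.1.1 + (i : ℤ) • z.1.2) := by
        intro z
        rw [emb_lin]
        simp only [Cfg.pi, Γ]
        push_cast
        rw [e]
        module
      exact (key x).trans ((congrArg emb h).trans (key y).symm)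
    have h2 := Γ.S.H_le_log (fun x : G => x.1.1 + (i : ℤ) • x.1.2)
      (G.image fun p => p.1 + (i : ℤ) • p.2) fun x => Finset.mem_image_of_mem _ x.2
    refine h1.trans (h2.trans (Real.log_le_log ?_ ?_))
    · exact_mod_cast (hG.image _).card_pos
    · exact_mod_cast hN i hi
  have h := hR Γ _ hb
  rw [hA] at h
  have hc0 : (0:ℝ) < G.card := by exact_mod_cast hG.card_pos
  rw [one_mul, Real.rpow_def_of_pos (by linarith), ← Real.exp_log hc0, Real.exp_le_exp]
  linarith

theorem sdfin : ∃ k, 0 < k ∧ H19.SDfin (167253 / 100000) 1 k :=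
  sdfin_of (sd_final _)

end Pool.Agent.MP_4b405e_nt.H17
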