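import Pool.Agent.MP_4b405e_nt.H17.Ent

/-! Several conditionally independent copies of a finite probability space. -/

namespace Pool.Agent.MP_4b405e_nt.H17

open Finset
open scoped Classical

variable {α β γ : Type}

section Pow

variable (S : Sp) (Z : S.Ω → γ) (ι : Type) [Fintype ι] [DecidableEq ι]

theorem pow_sum (F : S.Ω → ℝ) (G : ι → S.Ω → ℝ) :
    ∑ q : {q : S.Ω × (ι → S.Ω) // ∀ i, Z (q.2 i) = Z q.1},
      (S.p q.1.1 * ∏ i, S.p (q.1.2 i) / S.mass Z (Z q.1.1)) * (F q.1.1 * ∏ i, G i (q.1.2 i)) =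
    S.E fun x => F x * ∏ i, S.E (fun y => ind (Z y = Z x) * G i y) / S.mass Z (Z x) := by
  rw [← Finset.sum_subtype (Finset.univ.filter fun q : S.Ω × (ι → S.Ω) => ∀ i, Z (q.2 i) = Z q.1)
    (p := fun q : S.Ω × (ι → S.Ω) => ∀ i, Z (q.2 i) = Z q.1) (by simp)
    (fun q => (S.p q.1 * ∏ i, S.p (q.2 i) / S.mass Z (Z q.1)) * (F q.1 * ∏ i, G i (q.2 i)))]
  rw [Finset.sum_filter, Fintype.sum_prod_type]
  unfold Sp.E
  refine Finset.sum_congr rfl fun x _ => ?_
  simp only [Finset.sum_div]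
  rw [Finset.prod_univ_sum, Fintype.piFinset_univ, Finset.mul_sum, Finset.mul_sum]
  refine Finset.sum_congr rfl fun f _ => ?_
  by_cases h : ∀ i, Z (f i) = Z x
  · rw [if_pos h]
    have : ∏ i, S.p (f i) * (ind (Z (f i) = Z x) * G i (f i)) / S.mass Z (Z x) =
        (∏ i, S.p (f i) / S.mass Z (Z x)) * ∏ i, G i (f i) := by
      rw [← Finset.prod_mul_distrib]
      refine Finset.prod_congr rfl fun i _ => ?_
      rw [ind_pos (h i)]; ring
    rw [this]; ring
  · rw [if_neg h]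
    push Not at h
    obtain ⟨i, hi⟩ := h
    rw [Finset.prod_eq_zero (Finset.mem_univ i) (by rw [ind_neg hi]; simp)]
    simp

/-- Copies of `S` indexed by `ι`, conditionally independent given `Z`. -/
noncomputable def pow : Sp where
  Ω := {q : S.Ω × (ι → S.Ω) // ∀ i, Z (q.2 i) = Z q.1}
  fin := inferInstance
  p q := S.p q.1.1 * ∏ i, S.p (q.1.2 i) / S.mass Z (Z q.1.1)
  pos q := mul_pos (S.pos _) (Finset.prod_pos fun _ _ => div_pos (S.pos _) (S.mass_pos Z _))
  tot := by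
    have := pow_sum S Z ι (fun _ => 1) fun _ _ => 1
    simp only [mul_one, Finset.prod_const_one, one_mul] at this
    rw [this, S.E_congr (g := fun _ => 1), Sp.E_const]
    intro x
    exact Finset.prod_eq_one fun _ _ => div_self (S.mass_pos Z x).ne'

variable {S Z ι}

theorem pow_E (F : S.Ω → ℝ) (G : ι → S.Ω → ℝ) :
    (pow S Z ι).E (fun q => F q.1.1 * ∏ i, G i (q.1.2 i)) =
    S.E fun x => F x * ∏ i, S.E (fun y => ind (Z y = Z x) * G i y) / S.mass Z (Z x) :=
  pow_sum S Z ι F G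

theorem pow_hid : MP (pow S Z ι) S fun q => q.1.1 := by
  intro f
  have := pow_E (Z := Z) (ι := ι) f fun _ _ => 1
  simp only [Finset.prod_const_one, mul_one] at this
  rw [this]
  refine S.E_congr fun x => ?_
  exact (congrArg (f x * ·) (Finset.prod_eq_one fun _ _ =>
    div_self (S.mass_pos Z x).ne')).trans (mul_one _)

theorem pow_cp (i : ι) : MP (pow S Z ι) S fun q => q.1.2 i := by
  intro f
  have := pow_E (Z := Z) (ι := ι) (fun _ => 1) fun j y => if j = i then f y else 1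
  simp only [Finset.prod_ite_eq', Finset.mem_univ, if_true, one_mul] at this
  rw [this]
  have e : ∀ x, ∏ j, S.E (fun y => ind (Z y = Z x) * if j = i then f y else 1) / S.mass Z (Z x) =
      S.E fun y => ind (Z y = Z x) * f y / S.mass Z (Z x) := by
    intro x
    rw [Finset.prod_eq_single i]
    · simp only [if_true, Sp.E_div]
    · intro j _ hj
      simp only [if_neg hj, mul_one]
      exact div_self (S.mass_pos Z x).ne'
    · intro h; exact absurd (Finset.mem_univ i) h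
  rw [S.E_congr e, Sp.E_comm]
  refine S.E_congr fun y => ?_
  rw [S.E_congr (g := fun x => ind (Z x = Z y) * (f y / S.mass Z (Z y))) fun x => by
    by_cases hs : Z x = Z y
    · rw [ind_pos hs, ind_pos hs.symm, hs]; ring
    · rw [ind_neg hs, ind_neg (Ne.symm hs)]; simp, Sp.E_mul]
  have h3 := S.mass_pos Z y
  change S.mass Z (Z y) * _ = _
  field_simp

theorem ind_forall (P : ι → Prop) : ind (∀ i, P i) = ∏ i, ind (P i) := by
  by_cases h : ∀ i, P i
  · rw [ind_pos h, Finset.prod_eq_one fun i _ => ind_pos (h i)]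
  · rw [ind_neg h]
    push Not at h
    obtain ⟨i, hi⟩ := h
    rw [Finset.prod_eq_zero (Finset.mem_univ i) (ind_neg hi)]

theorem E_sum (S : Sp) (f : ι → S.Ω → ℝ) : S.E (fun ω => ∑ i, f i ω) = ∑ i, S.E (f i) := by
  unfold Sp.E
  simp only [Finset.mul_sum]
  rw [Finset.sum_comm]

/-- Entropy of a tuple of variables read on the different copies. -/
theorem pow_H (X : ι → S.Ω → α) (hX : ∀ i, Det (X i) Z) :
    (pow S Z ι).H (fun q => (Z q.1.1, fun i => X i (q.1.2 i))) =
      S.H Z + ∑ i, (S.H (X i) - S.H Z) := by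
  have key : ∀ q : (pow S Z ι).Ω,
      (pow S Z ι).mass (fun q => (Z q.1.1, fun i => X i (q.1.2 i)))
        (Z q.1.1, fun i => X i (q.1.2 i)) =
      S.mass Z (Z q.1.1) * ∏ i, S.mass (X i) (X i (q.1.2 i)) / S.mass Z (Z q.1.1) := by
    intro q
    have h1 := pow_E (Z := Z) (ι := ι) (fun x => ind (Z x = Z q.1.1))
      fun i y => ind (X i y = X i (q.1.2 i))
    have h2 : (pow S Z ι).mass (fun q => (Z q.1.1, fun i => X i (q.1.2 i)))
        (Z q.1.1, fun i => X i (q.1.2 i)) =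
        (pow S Z ι).E (fun r => ind (Z r.1.1 = Z q.1.1) *
          ∏ i, ind (X i (r.1.2 i) = X i (q.1.2 i))) := by
      refine (pow S Z ι).E_congr fun r => ?_
      rw [← ind_forall, ← ind_and]
      exact ind_congr ⟨fun h => ⟨congrArg Prod.fst h, fun i => congrFun (congrArg Prod.snd h) i⟩,
        fun h => Prod.ext h.1 (funext h.2)⟩
    rw [h2, h1]
    refine Eq.trans (S.E_congr fun x => ?_) (S.E_mul (fun x => ind (Z x = Z q.1.1)) _)
    by_cases hx : Z x = Z q.1.1
    · rw [hx]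
      congr 1
      refine Finset.prod_congr rfl fun i _ => ?_
      congr 1
      refine S.E_congr fun y => ?_
      rw [← ind_and]
      exact ind_congr ⟨fun h => h.2, fun h => ⟨(hX i _ _ h).trans (q.2 i), h⟩⟩
    · rw [ind_neg hx, zero_mul, zero_mul]
  have e1 : ∀ q : (pow S Z ι).Ω, Real.log
      ((pow S Z ι).mass (fun q => (Z q.1.1, fun i => X i (q.1.2 i)))
        (Z q.1.1, fun i => X i (q.1.2 i))) =
      Real.log (S.mass Z (Z q.1.1)) + ∑ i, (Real.log (S.mass (X i) (X i (q.1.2 i))) -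
        Real.log (S.mass Z (Z q.1.1))) := by
    intro q
    have p1 := S.mass_pos Z q.1.1
    have p2 : ∀ i, 0 < S.mass (X i) (X i (q.1.2 i)) := fun i => S.mass_pos _ _
    rw [key, Real.log_mul p1.ne' (Finset.prod_pos fun i _ => div_pos (p2 i) p1).ne',
      Real.log_prod fun i _ => (div_pos (p2 i) p1).ne']
    congr 1
    exact Finset.sum_congr rfl fun i _ => Real.log_div (p2 i).ne' p1.ne'
  unfold Sp.H
  rw [Sp.E_congr _ e1, Sp.E_add, E_sum]
  have a1 := pow_hid (Z := Z) (ι := ι) fun s => Real.log (S.mass Z (Z s))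
  have a2 : ∀ i, (pow S Z ι).E (fun q => Real.log (S.mass (X i) (X i (q.1.2 i))) -
        Real.log (S.mass Z (Z q.1.1))) = S.E (fun s => Real.log (S.mass (X i) (X i s))) -
        S.E fun s => Real.log (S.mass Z (Z s)) := by
    intro i
    rw [Sp.E_sub]
    have a3 := pow_cp (Z := Z) i fun s => Real.log (S.mass (X i) (X i s))
    simp only at a1 a3
    rw [a1, a3]
  simp only at a1
  rw [a1, Finset.sum_congr rfl fun i _ => a2 i, neg_add, ← Finset.sum_neg_distrib]
  congr 1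
  exact Finset.sum_congr rfl fun i _ => by ring

end Pow

/-- Weight preserving bijections. -/
def WP (S : Sp) (φ : S.Ω ≃ S.Ω) : Prop := ∀ ω, S.p (φ ω) = S.p ω

theorem WP.mp {S : Sp} {φ : S.Ω ≃ S.Ω} (h : WP S φ) : MP S S φ := by
  intro f
  unfold Sp.E
  rw [← Equiv.sum_comp φ fun ω => S.p ω * f ω]
  exact Finset.sum_congr rfl fun ω _ => by rw [h]

section Aut

variable {S : Sp} {Z : S.Ω → γ} {ι : Type} [Fintype ι] [DecidableEq ι]

/-- Permuting the copies. -/
def powPerm (e : ι ≃ ι) : (pow S Z ι).Ω ≃ (pow S Z ι).Ω where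
  toFun q := ⟨(q.1.1, fun i => q.1.2 (e i)), fun i => q.2 (e i)⟩
  invFun q := ⟨(q.1.1, fun i => q.1.2 (e.symm i)), fun i => q.2 (e.symm i)⟩
  left_inv q := by simp
  right_inv q := by simp

theorem powPerm_wp (e : ι ≃ ι) : WP (pow S Z ι) (powPerm e) := by
  intro q
  change S.p q.1.1 * ∏ i, S.p (q.1.2 (e i)) / S.mass Z (Z q.1.1) = _
  rw [Equiv.prod_comp e fun i => S.p (q.1.2 i) / S.mass Z (Z q.1.1)]
  rfl

/-- Acting on all copies at once. -/
def powLift (φ : S.Ω ≃ S.Ω) (h : ∀ x y, Z (φ x) = Z (φ y) ↔ Z x = Z y) :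
    (pow S Z ι).Ω ≃ (pow S Z ι).Ω where
  toFun q := ⟨(φ q.1.1, fun i => φ (q.1.2 i)), fun i => (h _ _).2 (q.2 i)⟩
  invFun q := ⟨(φ.symm q.1.1, fun i => φ.symm (q.1.2 i)), fun i => (h _ _).1 (by
    simpa using q.2 i)⟩
  left_inv q := by simp
  right_inv q := by simp

theorem powLift_wp {φ : S.Ω ≃ S.Ω} (hφ : WP S φ) (h : ∀ x y, Z (φ x) = Z (φ y) ↔ Z x = Z y) :
    WP (pow S Z ι) (powLift φ h) := by
  intro q
  have hm : S.mass Z (Z (φ q.1.1)) = S.mass Z (Z q.1.1) := by
    have := hφ.mp fun y => ind (Z y = Z (φ q.1.1))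
    unfold Sp.mass
    rw [← this]
    exact S.E_congr fun y => ind_congr (h _ _)
  change S.p (φ q.1.1) * ∏ i, S.p (φ (q.1.2 i)) / S.mass Z (Z (φ q.1.1)) = _
  rw [hm, hφ]
  simp only [hφ _]
  rfl

end Aut

end Pool.Agent.MP_4b405e_nt.H17
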