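import Pool.Agent.MP_4b405e_nt.H17.Ev

/-! The iteration steps. -/

namespace Pool.Agent.MP_4b405e_nt.H17

open scoped Classical

variable (Z : Type) [AddCommGroup Z] [Module ℚ Z]

/-- The sum-difference bound with exponent `β`. -/
def SD (β : ℝ) : Prop := ∀ B, Ev B fun (Γ : Cfg Z) b _ => Γ.A ≤ β * b

def NB (p q : ℝ) : Prop := ∀ (B : Finset ℚ) (e f t : ℚ), e ∉ B → e ≠ f → t ≠ 0 → e + 1 / t ∉ B →
  Ev B fun (Γ : Cfg Z) b j => Γ.n e f t + j ≤ p * b - q * Γ.A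

def MB (p q : ℝ) : Prop := ∀ (B : Finset ℚ) (e f c t : ℚ), e ∉ B → f ∉ B → c ∉ B → e ≠ f →
  c ≠ f → t ≠ 0 →
  Ev B fun (Γ : Cfg Z) b j => Γ.m e f c t + 2 * j ≤ p * b - q * Γ.A + Γ.io f e c

def EX (P Q : ℝ) : Prop := ∀ (B B' : Finset ℚ) (c : ℚ), ∃ R' : Finset ℚ, (∀ r ∈ R', r ∉ B') ∧
  Ev B fun (Γ : Cfg Z) b _ => ∀ (X : Ext Γ c) (b' : ℝ), (∀ r ∈ R', X.cfg.b r ≤ b') →
    X.cfg.A - b' ≤ P * b - Q * Γ.A

variable {Z}

theorem sd_two : SD Z 2 := by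
  intro B
  obtain ⟨τ, hτ⟩ := exists_adm B
  refine ((Ev.slope hτ.1).and (Ev.slope hτ.2.1)).mono fun Γ b _ _ h => ?_
  have := Γ.A_le_two hτ.2.2.2.1
  linarith [h.1, h.2]

theorem nu_ev (B : Finset ℚ) {e f t : ℚ} (he : e ∉ B) (hef : e ≠ f) (ht : t ≠ 0) :
    ∃ B' : Finset ℚ, ∀ R' : Finset ℚ, (∀ r ∈ R', r ∉ B') → Ev B fun (Γ : Cfg Z) b j =>
      ∀ r ∈ R', (Γ.Nu e f t).b r ≤ 2 * b - j - Γ.n e f t := by
  obtain ⟨B', s, hs⟩ := bad_nu B hef ht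
  refine ⟨B', fun R' hR => Ev.fin R' fun r hr => ?_⟩
  obtain ⟨a1, a2, a3, a4, a5⟩ := hs r (hR r hr)
  refine (((Ev.slope a1).and (Ev.slope a3)).and
    (Ev.triple (τ := (e, s r, r)) ⟨he, a3, a1, a4, a2⟩)).mono fun Γ b j _ h => ?_
  have h1 := Γ.nu_b a2 a5
  have h2 : j ≤ Γ.io e (s r) r := h.2
  linarith [h.1.1, h.1.2]

theorem mu_ev {p q : ℝ} (hN : NB Z p q) (B : Finset ℚ) {e f c t : ℚ} (he : e ∉ B) (hef : e ≠ f)
    (hcf : c ≠ f) (ht : t ≠ 0) :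
    ∃ B' : Finset ℚ, ∀ R' : Finset ℚ, (∀ r ∈ R', r ∉ B') → Ev B fun (Γ : Cfg Z) b j =>
      ∀ r ∈ R', (Γ.Mu e f c t).b r ≤ b + (p * b - q * Γ.A - j) - Γ.m e f c t := by
  obtain ⟨B', s, hs⟩ := bad_mu B e hcf ht
  refine ⟨B', fun R' hR => Ev.fin R' fun r hr => ?_⟩
  obtain ⟨a1, a2, a3, a4, a5⟩ := hs r (hR r hr)
  refine ((Ev.slope a1).and (hN B e f (s r) he hef a3 a4)).mono fun Γ b j _ h => ?_
  have h1 := Γ.mu_b (e := e) a2 a5
  linarith [h.1, h.2]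

theorem psi_ev {p q : ℝ} (hM : MB Z p q) (B : Finset ℚ) {e f h c u : ℚ} (he : e ∉ B)
    (hf : f ∉ B) (hh : h ∉ B) (hef : e ≠ f) (hhf : h ≠ f) (hch : c ≠ h) (hu : u ≠ 0) :
    ∃ B' : Finset ℚ, ∀ R' : Finset ℚ, (∀ r ∈ R', r ∉ B') → Ev B fun (Γ : Cfg Z) b j =>
      ∀ r ∈ R', (Γ.Psi e f h c u).b r ≤
        b + (p * b - q * Γ.A + Γ.io f e h - 2 * j) - Γ.m2 e f h c u := by
  obtain ⟨B', s, hs⟩ := bad_mu B e hch hu
  refine ⟨B', fun R' hR => Ev.fin R' fun r hr => ?_⟩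
  obtain ⟨a1, a2, a3, -, a5⟩ := hs r (hR r hr)
  refine ((Ev.slope a1).and (hM B e f h (s r) he hf hh hef hhf a3)).mono fun Γ b j _ h' => ?_
  have h1 := Γ.psi_b (e := e) (f := f) a2 a5
  linarith [h'.1, h'.2]

theorem nuSD {β p q : ℝ} (hS : SD Z β) (h1 : 1 < β) (hp : 2 * β + 1 ≤ (β - 1) * p)
    (hq : (β - 1) * q ≤ 2) : NB Z p q := by
  intro B e f t he hef ht _
  obtain ⟨B', hB'⟩ := nu_ev (Z := Z) B he hef ht
  obtain ⟨R', r1, r2⟩ := (hS B').use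
  refine ((hB' R' r1).and (Ev.slope he)).mono fun Γ b j hj h => ?_
  have a1 := r2 _ _ h.1
  have a2 := Γ.nu_A hef ht
  have a3 : 0 ≤ b := (Γ.b_nonneg e).trans h.2
  have a4 := Γ.A_nonneg
  have a5 := h.2
  refine le_of_mul_le_mul_left (a := β - 1) ?_ (by linarith)
  nlinarith [mul_le_mul_of_nonneg_right hp a3, mul_le_mul_of_nonneg_right hq a4]

theorem muSD {β p q p' q' : ℝ} (hS : SD Z β) (hN : NB Z p q) (h1 : 1 < β) (h2 : β ≤ 2)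
    (hp : β + 2 + β * p ≤ (β - 1) * p') (hq : (β - 1) * q' ≤ 3 + β * q) : MB Z p' q' := by
  intro B e f c t he hf _ hef hcf ht
  obtain ⟨B', hB'⟩ := mu_ev hN B he hef hcf ht
  obtain ⟨R', r1, r2⟩ := (hS B').use
  refine ((hB' R' r1).and ((Ev.slope he).and (Ev.slope hf))).mono fun Γ b j hj h => ?_
  have a1 := r2 _ _ h.1
  have a2 := Γ.mu_A c t hef
  have a3 : 0 ≤ b := (Γ.b_nonneg e).trans h.2.1
  have a4 := Γ.A_nonneg
  have a5 := h.2.1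
  have a6 := h.2.2
  have a7 := Γ.io_nonneg f e c
  refine le_of_mul_le_mul_left (a := β - 1) ?_ (by linarith)
  nlinarith [mul_le_mul_of_nonneg_right hp a3, mul_le_mul_of_nonneg_right hq a4,
    mul_nonneg (sub_nonneg.2 h2) hj, mul_nonneg (sub_nonneg.2 h1.le) a7]

theorem psiSD {β p q : ℝ} (hS : SD Z β) (hM : MB Z p q) (B : Finset ℚ) {e f h c u : ℚ}
    (he : e ∉ B) (hf : f ∉ B) (hh : h ∉ B) (hef : e ≠ f) (hhf : h ≠ f) (hch : c ≠ h)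
    (hu : u ≠ 0) : Ev B fun (Γ : Cfg Z) b j => (β - 1) * Γ.m2 e f h c u ≤
      β * (b + (p * b - q * Γ.A + Γ.io f e h - 2 * j)) - 2 * Γ.A + Γ.io f e h := by
  obtain ⟨B', hB'⟩ := psi_ev hM B he hf hh hef hhf hch hu
  obtain ⟨R', r1, r2⟩ := (hS B').use
  refine (hB' R' r1).mono fun Γ b j _ h' => ?_
  have a1 := r2 _ _ h'
  have a2 := Γ.psi_A e f h c u
  linarith

theorem exOf {β p q P Q : ℝ} (hS : SD Z β) (hM : MB Z p q) (h1 : 1 < β)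
    (hP : β * (1 + p) < (β - 1) * P) (hQ : β * (β - 1) * Q ≤ β * (2 + β * q) + (β - 1)) :
    EX Z P Q := by
  intro B B' c
  obtain ⟨R', r1, r2⟩ := (hS (insert c B')).use
  refine ⟨R', fun r hr hb => r1 r hr (Finset.mem_insert_of_mem hb), ?_⟩
  have hβ : 0 < β := by linarith
  have hβ1 : 0 < β - 1 := by linarith
  have hd := descent (Z := Z) (B := insert c B) (C := 2 * β ^ 2)
    (Φ := fun Γ b x => ∃ (X : Ext Γ c) (b' : ℝ), (∀ r ∈ R', X.cfg.b r ≤ b') ∧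
      x = β * (β - 1) * (X.cfg.A - b') - β ^ 2 * (1 + p) * b + (β * (2 + β * q) + (β - 1)) * Γ.A)
    (by positivity) (fun τ hτ => by
      obtain ⟨f, e, h⟩ := τ
      obtain ⟨hf, he, hh, hef, hhf⟩ := hτ
      have hch : c ≠ h := fun h0 => hh (h0 ▸ Finset.mem_insert_self _ _)
      have hrc : ∀ r ∈ R', r - c ≠ 0 := fun r hr h0 =>
        r1 r hr (sub_eq_zero.1 h0 ▸ Finset.mem_insert_self _ _)
      refine (Ev.fin R' fun r hr => psiSD hS hM (insert c B) (u := -1 / (r - c)) he hf hh hef hhf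
        hch (div_ne_zero (by norm_num) (hrc r hr))).mono fun Γ b j _ hm x hx => ?_
      obtain ⟨X, b', hb', rfl⟩ := hx
      obtain ⟨Γ', w, T, t1, t2, t3, t4⟩ := Γ.chi X e f h
      set M : ℝ := (β * (b + (p * b - q * Γ.A + Γ.io f e h - 2 * j)) - 2 * Γ.A + Γ.io f e h) /
        (β - 1) with hMdef
      have hMe : (β - 1) * M =
          β * (b + (p * b - q * Γ.A + Γ.io f e h - 2 * j)) - 2 * Γ.A + Γ.io f e h := by
        rw [hMdef]; field_simp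
      have a1 := r2 Γ' (b' + M - w) fun r hr => by
        have a2 := t4 r (-1 / (r - c)) (div_mul_cancel₀ _ (hrc r hr))
        have a3 : Γ.m2 e f h c (-1 / (r - c)) ≤ M :=
          le_of_mul_le_mul_left (by rw [hMe]; exact hm r hr) hβ1
        linarith [hb' r hr]
      have a4 : β * (X.cfg.A - b') + Γ.A - β * Γ.io f e h ≤ β * M := by
        nlinarith [mul_le_mul_of_nonneg_left t3 hβ1.le, mul_le_mul_of_nonneg_left t1 hβ.le]
      have a5 := mul_le_mul_of_nonneg_left a4 hβ1.le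
      have a6 : (β - 1) * (β * M) = β * (β * (b + (p * b - q * Γ.A + Γ.io f e h - 2 * j)) -
          2 * Γ.A + Γ.io f e h) := by rw [← hMe]; ring
      change _ ≤ 2 * β ^ 2 * Γ.io f e h
      nlinarith)
    (ε := β * ((β - 1) * P - β * (1 + p))) (mul_pos hβ (by linarith))
  refine (hd.weaken (Finset.subset_insert _ _)).mono fun Γ b _ _ hx X b' hb' => ?_
  have a1 := hx _ ⟨X, b', hb', rfl⟩
  have a4 := Γ.A_nonneg
  refine le_of_mul_le_mul_left (a := β * (β - 1)) ?_ (by positivity)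
  nlinarith [mul_le_mul_of_nonneg_right hQ a4]

theorem nuEX {P Q p q : ℝ} (hX : EX Z P Q) (hQ : 0 ≤ Q) (hD : 0 < P - Q - 1)
    (hp : 2 * P + Q + 3 ≤ (P - Q - 1) * p) (hq : (P - Q - 1) * q ≤ 2 * Q + 3) : NB Z p q := by
  intro B e f t he hef ht hr0
  obtain ⟨B', hB'⟩ := nu_ev (Z := Z) B he hef ht
  obtain ⟨R1, s1, s2⟩ := hX B' B (e + 1 / t)
  obtain ⟨R', r1, r2⟩ := s2.use
  refine ((hB' R' r1).and (((Ev.slope he).and (Ev.slope hr0)).and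
    (Ev.fin R1 fun r hr => Ev.slope (s1 r hr)))).mono fun Γ b j hj h => ?_
  obtain ⟨X, x1, x2⟩ := (Γ.condSub (Γ.mp_v2 e) (Γ.nu e f t)).ext (e + 1 / t)
  have a1 : X.cfg.A - b ≤ P * (2 * b - j - Γ.n e f t) - Q * (Γ.Nu e f t).A :=
    r2 _ _ h.1 X b fun r hr => (x2 r).trans (h.2.2 r hr)
  have a2 := Γ.nu_A hef ht
  have a3 : 0 ≤ b := (Γ.b_nonneg e).trans h.2.1.1
  have a4 := Γ.A_nonneg
  have a5 := h.2.1.1
  have a6 := h.2.1.2
  have a7 := Γ.nu_r0 (r := e + 1 / t) hef ht (by field_simp; ring)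
  have a8 : (Γ.Nu e f t).b (e + 1 / t) + Γ.A - Γ.b (e + 1 / t) ≤ X.cfg.A := x1
  have a9 : 2 * Γ.A - b - Γ.n e f t ≤ (Γ.Nu e f t).A := by linarith
  refine le_of_mul_le_mul_left ?_ hD
  nlinarith [mul_le_mul_of_nonneg_right hp a3, mul_le_mul_of_nonneg_right hq a4,
    mul_le_mul_of_nonneg_left a9 hQ, mul_nonneg hQ hj]

theorem muEX {P Q p q p' q' : ℝ} (hX : EX Z P Q) (hN : NB Z p q) (hQ : 0 ≤ Q)
    (hD : 1 ≤ P - Q - 1) (hD2 : 2 * (P - Q - 1) ≤ P)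
    (hp : P + P * p + 2 * Q + 1 ≤ (P - Q - 1) * p') (hq : (P - Q - 1) * q' ≤ 3 * Q + 2 + P * q) :
    MB Z p' q' := by
  intro B e f c t he hf _ hef hcf ht
  obtain ⟨B', hB'⟩ := mu_ev hN B he hef hcf ht
  obtain ⟨R1, s1, s2⟩ := hX B' B c
  obtain ⟨R', r1, r2⟩ := s2.use
  refine ((hB' R' r1).and (((Ev.slope he).and (Ev.slope hf)).and
    (Ev.fin R1 fun r hr => Ev.slope (s1 r hr)))).mono fun Γ b j hj h => ?_
  obtain ⟨X, x1, x2⟩ := (Γ.condSub (Γ.mp_c3 e f) (Γ.mu e f c t)).ext c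
  have a1 : X.cfg.A - b ≤ P * (b + (p * b - q * Γ.A - j) - Γ.m e f c t) -
      Q * (Γ.Mu e f c t).A := r2 _ _ h.1 X b fun r hr => (x2 r).trans (h.2.2 r hr)
  have a2 := Γ.mu_A c t hef
  have a3 : 0 ≤ b := (Γ.b_nonneg e).trans h.2.1.1
  have a4 := Γ.A_nonneg
  have a5 := h.2.1.1
  have a6 := h.2.1.2
  have a7 := Γ.mu_c e f c t
  have a8 : (Γ.Mu e f c t).b c + Γ.A - Γ.b c ≤ X.cfg.A := x1
  have a9 : 3 * Γ.A - 2 * b - Γ.m e f c t ≤ (Γ.Mu e f c t).A := by linarith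
  have a10 := Γ.io_nonneg f e c
  refine le_of_mul_le_mul_left (a := P - Q - 1) ?_ (by linarith)
  nlinarith [mul_le_mul_of_nonneg_right hp a3, mul_le_mul_of_nonneg_right hq a4,
    mul_le_mul_of_nonneg_left a9 hQ, mul_le_mul_of_nonneg_right hD2 hj,
    mul_le_mul_of_nonneg_right hD a10]

theorem sdOf {p q β : ℝ} (hM : MB Z p q) (hq : 0 < 1 + q) (h : p < β * (1 + q)) : SD Z β := by
  intro B
  have hd := descent (Z := Z) (B := B) (C := 2)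
    (Φ := fun Γ b x => x = (1 + q) * Γ.A - p * b) (by norm_num) (fun τ hτ => by
      obtain ⟨f, e, c⟩ := τ
      obtain ⟨hf, he, hc, hef, hcf⟩ := hτ
      refine (hM B e f c 1 he hf hc hef hcf one_ne_zero).mono fun Γ b j _ hm x hx => ?_
      have := Γ.m_low e f c 1
      change _ ≤ 2 * Γ.io f e c
      rw [hx]
      linarith) (ε := β * (1 + q) - p) (by linarith)
  refine hd.mono fun Γ b _ _ hx => ?_
  have := hx _ rfl
  refine le_of_mul_le_mul_left ?_ hq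
  linarith

theorem round {β p q P Q p1 q1 p' q' β' : ℝ} (h : SD Z β ∧ MB Z p q) (h1 : 1 < β)
    (hP : β * (1 + p) < (β - 1) * P) (hQ : β * (β - 1) * Q ≤ β * (2 + β * q) + (β - 1))
    (hQ0 : 0 ≤ Q) (hD : 1 ≤ P - Q - 1) (hD2 : 2 * (P - Q - 1) ≤ P)
    (hp1 : 2 * P + Q + 3 ≤ (P - Q - 1) * p1) (hq1 : (P - Q - 1) * q1 ≤ 2 * Q + 3)
    (hp : P + P * p1 + 2 * Q + 1 ≤ (P - Q - 1) * p') (hq : (P - Q - 1) * q' ≤ 3 * Q + 2 + P * q1)
    (hq' : 0 < 1 + q') (hβ : p' < β' * (1 + q')) : SD Z β' ∧ MB Z p' q' := by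
  have hX := exOf h.1 h.2 h1 hP hQ
  have hM := muEX hX (nuEX hX hQ0 (by linarith) hp1 hq1) hQ0 hD hD2 hp hq
  exact ⟨sdOf hM hq' hβ, hM⟩

end Pool.Agent.MP_4b405e_nt.H17
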