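import Pool.Agent.MP_4b405e_nt.H17.Pow
import Pool.Agent.MP_4b405e_nt.H17.Lin
import Pool.Agent.MP_4b405e_nt.H17.Cfg

/-! Towers of conditionally independent copies and a checker for entropy certificates. -/

namespace Pool.Agent.MP_4b405e_nt.H17

variable {Z : Type} [AddCommGroup Z] [Module ℚ Z] {τ : Type}

/-- A probability space with a conditioning variable and a family of vector variables. -/
structure Mod (Z τ : Type) where
  S : Sp
  W : S.Ω → τ
  Y : S.Ω → ℕ → Z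

namespace Mod

def X (M : Mod Z τ) (L : List SV) (ω : M.S.Ω) : τ × List Z := (M.W ω, L.map fun v => ev v (M.Y ω))

noncomputable def h (M : Mod Z τ) (L : List SV) : ℝ := M.S.H (M.X L) - M.S.H M.W

theorem X_eq {M : Mod Z τ} {L : List SV} {ω ω' : M.S.Ω} :
    M.X L ω = M.X L ω' ↔ M.W ω = M.W ω' ∧ ∀ v ∈ L, ev v (M.Y ω - M.Y ω') = 0 := by
  simp only [X, Prod.mk.injEq, List.map_inj_left, ev_sub, sub_eq_zero]

theorem det_W (M : Mod Z τ) (L : List SV) : Det (M.X L) M.W := fun _ _ h => (X_eq.1 h).1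

theorem h_nonneg (M : Mod Z τ) (L : List SV) : 0 ≤ M.h L :=
  sub_nonneg.2 (M.S.H_mono (M.det_W L))

/-- The relations `B` and the rules below `N` hold in `M`. -/
def Good (M : Mod Z τ) (N : ℕ) (B : List (List ℤ)) : Prop :=
  (∀ ω, Ker (M.Y ω) B) ∧
    ∀ ω ω', M.W ω = M.W ω' → ∀ l < N, M.Y ω (N + l) = M.Y ω' (N + l) → M.Y ω l = M.Y ω' l

theorem Good.det {M : Mod Z τ} {N : ℕ} {B : List (List ℤ)} (g : M.Good N B) {K T : List SV}
    {r : List ℕ} (hd : det N B K T r = true) : Det (M.X K) (M.X T) := by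
  intro ω ω' h
  obtain ⟨hW, hK⟩ := X_eq.1 h
  refine X_eq.2 ⟨hW, det_sound hd (fun b hb => ?_) (fun l hl h1 => ?_) hK⟩
  · rw [evD_sub, g.1 ω b hb, g.1 ω' b hb, sub_zero]
  · exact sub_eq_zero.2 (g.2 ω ω' hW l hl (sub_eq_zero.1 h1))

theorem h_sub (M : Mod Z τ) {U T K L : List SV} (h1 : Det (M.X K) (M.X T))
    (h2 : Det (M.X L) (M.X T)) (h3 : Det (M.X (K ++ L)) (M.X U)) :
    M.h U + M.h T ≤ M.h K + M.h L := by
  have := M.S.submod h1 h2 (U := M.X U) fun ω ω' a b => h3 ω ω' (X_eq.2 ⟨(X_eq.1 a).1,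
    fun v hv => (List.mem_append.1 hv).elim ((X_eq.1 a).2 v) ((X_eq.1 b).2 v)⟩)
  unfold h
  linarith

/-- `M` sits inside `M'` along the index map `π`. -/
def Emb (M' M : Mod Z τ) (π : ℕ → ℕ) : Prop :=
  ∃ φ : M'.S.Ω → M.S.Ω, MP M'.S M.S φ ∧ (∀ ω, M.W (φ ω) = M'.W ω) ∧
    ∀ ω j, M.Y (φ ω) j = M'.Y ω (π j)

def Aut (M : Mod Z τ) (π : ℕ → ℕ) : Prop :=
  ∃ φ : M.S.Ω ≃ M.S.Ω, WP M.S φ ∧ (∀ ω, M.W (φ ω) = M.W ω) ∧ ∀ ω j, M.Y (φ ω) j = M.Y ω (π j)

theorem Aut.emb {M : Mod Z τ} {π : ℕ → ℕ} (h : M.Aut π) : M.Emb M π := by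
  obtain ⟨φ, h1, h2, h3⟩ := h
  exact ⟨φ, h1.mp, h2, h3⟩

theorem Aut.refl (M : Mod Z τ) : M.Aut fun k => k :=
  ⟨Equiv.refl _, fun _ => rfl, fun _ => rfl, fun _ _ => rfl⟩

theorem Aut.comp {M : Mod Z τ} {π σ : ℕ → ℕ} (h : M.Aut π) (h' : M.Aut σ) :
    M.Aut fun k => π (σ k) := by
  obtain ⟨φ, h1, h2, h3⟩ := h
  obtain ⟨ψ, k1, k2, k3⟩ := h'
  exact ⟨φ.trans ψ, fun ω => (k1 _).trans (h1 ω), fun ω => (k2 _).trans (h2 ω),
    fun ω j => (k3 _ _).trans (h3 _ _)⟩

theorem Emb.comp {A B C : Mod Z τ} {π σ : ℕ → ℕ} (h : A.Emb B π) (h' : B.Emb C σ) :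
    A.Emb C fun k => π (σ k) := by
  obtain ⟨φ, h1, h2, h3⟩ := h
  obtain ⟨ψ, k1, k2, k3⟩ := h'
  exact ⟨fun ω => ψ (φ ω), h1.comp k1, fun ω => (k2 _).trans (h2 ω),
    fun ω j => (k3 _ _).trans (h3 _ _)⟩

theorem X_act {M' M : Mod Z τ} {π : ℕ → ℕ} {φ : M'.S.Ω → M.S.Ω} (h2 : ∀ ω, M.W (φ ω) = M'.W ω)
    (h3 : ∀ ω j, M.Y (φ ω) j = M'.Y ω (π j)) (L : List SV) (ω : M'.S.Ω) :
    M'.X (L.map (act π)) ω = M.X L (φ ω) := by
  simp only [X, List.map_map, h2]
  congr 1
  refine List.map_congr_left fun v _ => ?_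
  simp only [Function.comp, ev_act, ← h3]

theorem Emb.h {M' M : Mod Z τ} {π : ℕ → ℕ} (e : M'.Emb M π) (L : List SV) :
    M'.h (L.map (act π)) = M.h L := by
  obtain ⟨φ, h1, h2, h3⟩ := e
  unfold Mod.h
  rw [← h1.H (M.X L), ← h1.H M.W, funext (X_act h2 h3 L), funext h2]

/-- `m + 1` copies, conditionally independent given the variables `L`. -/
noncomputable def pw (M : Mod Z τ) (m : ℕ) (L : List SV) : Mod Z τ :=
  ⟨pow M.S (M.X L) (Fin (m + 1)), fun q => M.W q.1.1,
    fun q j => M.Y (q.1.2 ⟨j % (m + 1), Nat.mod_lt _ m.succ_pos⟩) (j / (m + 1))⟩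

end Mod

def cp (m i j : ℕ) : ℕ := j * (m + 1) + i

theorem cp_mod {m i : ℕ} (hi : i ≤ m) (j : ℕ) : cp m i j % (m + 1) = i := by
  unfold cp; rw [Nat.mul_add_mod_of_lt (by omega)]

theorem cp_div {m i : ℕ} (hi : i ≤ m) (j : ℕ) : cp m i j / (m + 1) = j := by
  unfold cp
  rw [Nat.add_comm, Nat.add_mul_div_right _ _ m.succ_pos, Nat.div_eq_of_lt (by omega), zero_add]

def swp (i j k : ℕ) : ℕ := if k = i then j else if k = j then i else k

namespace Mod

variable {M : Mod Z τ} {m : ℕ} {L : List SV}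

theorem pw_Y (q : (M.pw m L).S.Ω) (i : Fin (m + 1)) (j : ℕ) :
    (M.pw m L).Y q (cp m i j) = M.Y (q.1.2 i) j := by
  have hi : (i : ℕ) ≤ m := Nat.lt_succ_iff.1 i.2
  simp only [pw, cp_mod hi, cp_div hi]

theorem pw_W (q : (M.pw m L).S.Ω) (i : Fin (m + 1)) : M.W (q.1.2 i) = (M.pw m L).W q :=
  (X_eq.1 (q.2 i)).1

theorem pw_emb {i : ℕ} (hi : i ≤ m) : (M.pw m L).Emb M (cp m i) :=
  ⟨fun q => q.1.2 ⟨i, Nat.lt_succ_iff.2 hi⟩, pow_cp _, fun q => pw_W q _,
    fun q j => (pw_Y q ⟨i, Nat.lt_succ_iff.2 hi⟩ j).symm⟩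

theorem pw_swap {i j : ℕ} (hi : i ≤ m) (hj : j ≤ m) :
    (M.pw m L).Aut fun k => cp m (swp i j (k % (m + 1))) (k / (m + 1)) := by
  let e := Equiv.swap (⟨i, Nat.lt_succ_iff.2 hi⟩ : Fin (m + 1)) ⟨j, Nat.lt_succ_iff.2 hj⟩
  refine ⟨powPerm e, powPerm_wp e, fun _ => rfl, fun q k => ?_⟩
  have : swp i j (k % (m + 1)) = (e ⟨k % (m + 1), Nat.mod_lt _ m.succ_pos⟩ : ℕ) := by
    simp only [swp, e, Equiv.swap_apply_def, Fin.ext_iff]
    split_ifs <;> rfl
  change _ = (M.pw m L).Y q (cp m (swp i j (k % (m + 1))) (k / (m + 1)))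
  rw [this, pw_Y]
  rfl

theorem pw_lift {π : ℕ → ℕ} (a : M.Aut π) (h1 : Det (M.X L) (M.X (L.map (act π))))
    (h2 : Det (M.X (L.map (act π))) (M.X L)) :
    (M.pw m L).Aut fun k => cp m (k % (m + 1)) (π (k / (m + 1))) := by
  obtain ⟨φ, k1, k2, k3⟩ := a
  have hz : ∀ x y, M.X L (φ x) = M.X L (φ y) ↔ M.X L x = M.X L y := by
    intro x y
    rw [← X_act k2 k3, ← X_act k2 k3]
    exact ⟨h2 x y, h1 x y⟩
  refine ⟨powLift φ hz, powLift_wp k1 hz, fun q => k2 _, fun q k => ?_⟩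
  exact (k3 _ _).trans (pw_Y q ⟨k % (m + 1), Nat.mod_lt _ m.succ_pos⟩ _).symm

theorem pw_h (K : ℕ → List SV) (J : List SV) (hK : ∀ i ≤ m, Det (M.X (K i)) (M.X L))
    (hJ : ∀ i ≤ m, Det ((M.pw m L).X J) ((M.pw m L).X ((K i).map (act (cp m i))))) :
    ∑ i ∈ Finset.range (m + 1), M.h (K i) ≤ (M.pw m L).h J + m * M.h L := by
  have h1 := pow_H (Z := M.X L) (ι := Fin (m + 1)) (fun i => M.X (K i))
    fun i => hK i (Nat.lt_succ_iff.1 i.2)
  have key : ∀ (i : Fin (m + 1)) (q : (M.pw m L).S.Ω),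
      (M.pw m L).X ((K i).map (act (cp m i))) q = M.X (K i) (q.1.2 i) := fun i q =>
    X_act (φ := fun q : (M.pw m L).S.Ω => q.1.2 i) (fun q => pw_W q i)
      (fun q j => (pw_Y q i j).symm) _ q
  have h2 : (M.pw m L).S.H (fun q => (M.X L q.1.1, fun i : Fin (m + 1) => M.X (K i) (q.1.2 i))) ≤
      (M.pw m L).S.H ((M.pw m L).X J) := by
    refine (M.pw m L).S.H_mono fun q q' h => ?_
    have e : ∀ i : Fin (m + 1), M.X (K i) (q.1.2 i) = M.X (K i) (q'.1.2 i) := fun i => by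
      rw [← key, ← key]; exact hJ i (Nat.lt_succ_iff.1 i.2) _ _ h
    exact pm ((q.2 0).symm.trans ((hK _ (Nat.zero_le m) _ _ (e 0)).trans (q'.2 0))) (funext e)
  have h3 : (M.pw m L).S.H (M.pw m L).W = M.S.H M.W := pow_hid.H M.W
  have h4 : (M.pw m L).S.H (fun q => (M.X L q.1.1, fun i : Fin (m + 1) => M.X (K i) (q.1.2 i))) =
      M.S.H (M.X L) + ∑ i : Fin (m + 1), (M.S.H (M.X (K i)) - M.S.H (M.X L)) := h1
  rw [Fin.sum_univ_eq_sum_range (fun i => M.S.H (M.X (K i)) - M.S.H (M.X L))] at h4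
  unfold h
  simp only [Finset.sum_sub_distrib, Finset.sum_const, Finset.card_range, nsmul_eq_mul] at h4 ⊢
  push_cast at h4 ⊢
  rw [h3]
  linarith

end Mod

def sparse : List ℤ → ℕ → SV
  | [], _ => []
  | c :: v, k => (c, k) :: sparse v (k + 1)

theorem ev_sparse (v : List ℤ) (k : ℕ) (y : ℕ → Z) :
    ev (sparse v k) y = evD v fun j => y (k + j) := by
  induction v generalizing k with
  | nil => rfl
  | cons c v ih =>
    simp only [sparse, ev, evD, ih, add_zero]
    congr 2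
    funext j
    congr 1
    omega

/-- The relations valid after one more stage. -/
def rels (m : ℕ) (L : List SV) (B : List (List ℤ)) : List SV :=
  (List.range (m + 1)).flatMap fun i => (B.map fun b => act (cp m i) (sparse b 0)) ++
    L.map fun w => act (cp m i) w ++ sc (-1) (act (cp m 0) w)

theorem Mod.Good.pw {M : Mod Z τ} {N : ℕ} {B B' : List (List ℤ)} (g : M.Good N B) {m : ℕ}
    {L : List SV} (hB : detAux (insL [] (rels m L B)) (B'.map fun b => sparse b 0) = true) :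
    (M.pw m L).Good (N * (m + 1)) B' := by
  refine ⟨fun q b hb => ?_, fun q q' hW l hl h => ?_⟩
  · have h1 : Ker ((M.pw m L).Y q) (insL [] (rels m L B)) := by
      refine insL_ker (fun _ h => absurd h List.not_mem_nil) fun v hv => ?_
      obtain ⟨i, hi, hv⟩ := List.mem_flatMap.1 hv
      have hi' := List.mem_range.1 hi
      have e : ∀ w, ev (act (cp m i) w) ((M.pw m L).Y q) = ev w (M.Y (q.1.2 ⟨i, hi'⟩)) := by
        intro w; rw [ev_act]; exact congrArg _ (funext (Mod.pw_Y q ⟨i, hi'⟩))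
      have e0 : ∀ w, ev (act (cp m 0) w) ((M.pw m L).Y q) = ev w (M.Y (q.1.2 0)) := by
        intro w; rw [ev_act]; exact congrArg _ (funext (Mod.pw_Y q 0))
      rcases List.mem_append.1 hv with hv | hv
      · obtain ⟨c, hc, rfl⟩ := List.mem_map.1 hv
        rw [e, ev_sparse]
        simpa using g.1 _ c hc
      · obtain ⟨w, hw, rfl⟩ := List.mem_map.1 hv
        rw [ev_append, ev_sc, e, e0, neg_one_zsmul, ← sub_eq_add_neg, ← ev_sub]
        exact (Mod.X_eq.1 ((q.2 ⟨i, hi'⟩).trans (q.2 0).symm)).2 w hw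
    have := mem_sound h1 (List.all_eq_true.1 hB _ (List.mem_map_of_mem hb))
    rw [ev_sparse] at this
    simpa using this
  · let i : Fin (m + 1) := ⟨l % (m + 1), Nat.mod_lt _ m.succ_pos⟩
    have e1 : l = cp m i (l / (m + 1)) := (Nat.div_add_mod' l (m + 1)).symm
    have e2 : N * (m + 1) + l = cp m i (N + l / (m + 1)) := by
      rw [e1, cp_div (Nat.lt_succ_iff.1 i.2)]; unfold cp; ring
    rw [e2, Mod.pw_Y, Mod.pw_Y] at h
    rw [e1, Mod.pw_Y, Mod.pw_Y]
    exact g.2 _ _ ((Mod.pw_W q i).trans (hW.trans (Mod.pw_W q' i).symm)) _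
      (Nat.div_lt_of_lt_mul (by rwa [Nat.mul_comm] at hl)) h

/-- Generators of symmetries: swap two copies, or lift a word of the stage below. -/
inductive Gen
  | sw (i j : ℕ)
  | up (w h1 h2 : List ℕ)

/-- One stage of a tower. -/
structure Stage where
  m : ℕ
  L : List SV
  B : List (List ℤ)
  G : List Gen

noncomputable def tw (M : Mod Z τ) : List Stage → Mod Z τ
  | [] => M
  | s :: T => (tw M T).pw s.m s.L

def tN : List Stage → ℕ
  | [] => 1
  | s :: T => tN T * (s.m + 1)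

def tB : List Stage → List (List ℤ)
  | [] => []
  | s :: _ => s.B

def gm : List Stage → ℕ → ℕ → ℕ
  | [], _, k => k
  | s :: T, g, k =>
    match s.G[g]? with
    | none => k
    | some (.sw i j) => cp s.m (swp i j (k % (s.m + 1))) (k / (s.m + 1))
    | some (.up w _ _) => cp s.m (k % (s.m + 1)) (w.foldr (gm T) (k / (s.m + 1)))

def wm (T : List Stage) (w : List ℕ) (k : ℕ) : ℕ := w.foldr (gm T) k

def tdet (T : List Stage) (K L : List SV) (r : List ℕ) : Bool := det (tN T) (tB T) K L r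

def genOK (s : Stage) (T : List Stage) : Gen → Bool
  | .sw i j => decide (i ≤ s.m) && decide (j ≤ s.m)
  | .up w h1 h2 => tdet T s.L (s.L.map (act (wm T w))) h1 && tdet T (s.L.map (act (wm T w))) s.L h2

def twOK : List Stage → Bool
  | [] => true
  | s :: T => twOK T && (detAux (insL [] (rels s.m s.L (tB T))) (s.B.map fun b => sparse b 0) &&
      s.G.all (genOK s T))

theorem wm_aut {M : Mod Z τ} {T : List Stage} (h : ∀ g, (tw M T).Aut (gm T g)) (w : List ℕ) :
    (tw M T).Aut (wm T w) := by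
  induction w with
  | nil => exact Mod.Aut.refl _
  | cons g w ih => exact (h g).comp ih

theorem tw_sound {M : Mod Z τ} (g0 : M.Good 1 []) {T : List Stage} (h : twOK T = true) :
    (tw M T).Good (tN T) (tB T) ∧ ∀ g, (tw M T).Aut (gm T g) := by
  induction T with
  | nil => exact ⟨g0, fun _ => Mod.Aut.refl _⟩
  | cons s T ih =>
    simp only [twOK, Bool.and_eq_true] at h
    obtain ⟨i1, i2⟩ := ih h.1
    refine ⟨i1.pw h.2.1, fun g => ?_⟩
    have e : gm (s :: T) g = fun k => match s.G[g]? with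
      | none => k
      | some (.sw i j) => cp s.m (swp i j (k % (s.m + 1))) (k / (s.m + 1))
      | some (.up w _ _) => cp s.m (k % (s.m + 1)) (wm T w (k / (s.m + 1))) := rfl
    rw [e]
    rcases hg : s.G[g]? with _ | x
    · exact Mod.Aut.refl _
    · have hx := List.all_eq_true.1 h.2.2 x (List.mem_of_getElem? hg)
      rcases x with ⟨i, j⟩ | ⟨w, h1, h2⟩
      · simp only [genOK, Bool.and_eq_true, decide_eq_true_eq] at hx
        exact Mod.pw_swap hx.1 hx.2
      · simp only [genOK, Bool.and_eq_true] at hx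
        exact Mod.pw_lift (wm_aut i2 w) (i1.det hx.1) (i1.det hx.2)

theorem twOK_drop {T : List Stage} (h : twOK T = true) (e : ℕ) : twOK (T.drop e) = true := by
  induction e generalizing T with
  | zero => exact h
  | succ e ih =>
    cases T with
    | nil => rfl
    | cons s T =>
      simp only [twOK, Bool.and_eq_true] at h
      exact ih h.1

/-- Index map of a path going down the tower. -/
def pmap : List Stage → List (List ℕ × ℕ) → List ℕ → ℕ → ℕ
  | T, [], w, k => wm T w k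
  | [], _ :: _, _, k => k
  | s :: T, p :: r, w, k => wm (s :: T) p.1 (cp s.m p.2 (pmap T r w k))

def pOK : List Stage → List (List ℕ × ℕ) → Bool
  | _, [] => true
  | [], _ :: _ => false
  | s :: T, p :: r => decide (p.2 ≤ s.m) && pOK T r

theorem pmap_emb {M : Mod Z τ} (g0 : M.Good 1 []) {T : List Stage} (h : twOK T = true)
    {r : List (List ℕ × ℕ)} (hr : pOK T r = true) (w : List ℕ) :
    (tw M T).Emb (tw M (T.drop r.length)) (pmap T r w) := by
  induction r generalizing T with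
  | nil =>
    have : pmap T [] w = wm T w := by funext k; cases T <;> rfl
    rw [this]
    exact (wm_aut (tw_sound g0 h).2 w).emb
  | cons p r ih =>
    cases T with
    | nil => exact absurd hr (by simp [pOK])
    | cons s T =>
      simp only [pOK, Bool.and_eq_true, decide_eq_true_eq] at hr
      exact (wm_aut (tw_sound g0 h).2 p.1).emb.comp
        ((Mod.pw_emb hr.1).comp (ih (twOK_drop h 1) hr.2))

/-- A variable of the table together with the place where it is read. -/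
structure Ref where
  k : ℕ
  r : List (List ℕ × ℕ)
  w : List ℕ

abbrev Tab := List (ℕ × List SV)

def tabD (t : Tab) (k : ℕ) : ℕ × List SV := t.getD k (0, [])

noncomputable def val (M : Mod Z τ) (T : List Stage) (t : Tab) (k : ℕ) : ℝ :=
  (tw M (T.drop (tabD t k).1)).h (tabD t k).2

def Ref.ls (x : Ref) (T : List Stage) (t : Tab) : List SV :=
  (tabD t x.k).2.map (act (pmap T x.r x.w))

def Ref.ok (x : Ref) (T : List Stage) (t : Tab) (e : ℕ) : Bool :=
  pOK (T.drop e) x.r && decide (e + x.r.length = (tabD t x.k).1)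

theorem Ref.sound {M : Mod Z τ} (g0 : M.Good 1 []) {T : List Stage} (h : twOK T = true) {t : Tab}
    {e : ℕ} {x : Ref} (hx : x.ok T t e = true) :
    (tw M (T.drop e)).h (x.ls (T.drop e) t) = val M T t x.k := by
  simp only [Ref.ok, Bool.and_eq_true, decide_eq_true_eq] at hx
  have := (pmap_emb g0 (twOK_drop h e) hx.1 x.w).h (tabD t x.k).2
  rw [List.drop_drop, hx.2] at this
  exact this

/-- Rows of a certificate. -/
inductive Row
  | sub (e : ℕ) (U V X Y : Ref) (h1 h2 h3 : List ℕ)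
  | md (e : ℕ) (J L : Ref) (h : List ℕ) (K : List (Ref × List ℕ × List ℕ))
  | pos (k : ℕ)

def kD (K : List (Ref × List ℕ × List ℕ)) (i : ℕ) : Ref × List ℕ × List ℕ :=
  K.getD i (⟨0, [], []⟩, [], [])

def hd0 (T : List Stage) : Stage := T.headD ⟨0, [], [], []⟩

def Row.form (T : List Stage) : Row → SV
  | .sub _ U V X Y _ _ _ => [(1, U.k), (1, V.k), (-1, X.k), (-1, Y.k)]
  | .md e J L _ K => (-1, J.k) :: (-((hd0 (T.drop e)).m : ℤ), L.k) ::
      (List.range ((hd0 (T.drop e)).m + 1)).map fun i => (1, (kD K i).1.k)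
  | .pos k => [(-1, k)]

def subOK (T : List Stage) (U V X Y : List SV) (h1 h2 h3 : List ℕ) : Bool :=
  tdet T X V h1 && (tdet T Y V h2 && tdet T (X ++ Y) U h3)

def Row.ok (T : List Stage) (t : Tab) : Row → Bool
  | .sub e U V X Y h1 h2 h3 => U.ok T t e && (V.ok T t e && (X.ok T t e && (Y.ok T t e &&
      subOK (T.drop e) (U.ls (T.drop e) t) (V.ls (T.drop e) t) (X.ls (T.drop e) t)
        (Y.ls (T.drop e) t) h1 h2 h3)))
  | .md e J L h K => decide (e < T.length) && (J.ok T t e && (L.ok T t (e + 1) &&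
      (tdet (T.drop (e + 1)) (L.ls (T.drop (e + 1)) t) (hd0 (T.drop e)).L h &&
      (List.range ((hd0 (T.drop e)).m + 1)).all fun i => (kD K i).1.ok T t (e + 1) &&
        (tdet (T.drop (e + 1)) ((kD K i).1.ls (T.drop (e + 1)) t) (hd0 (T.drop e)).L (kD K i).2.1 &&
        tdet (T.drop e) (J.ls (T.drop e) t)
          (((kD K i).1.ls (T.drop (e + 1)) t).map (act (cp (hd0 (T.drop e)).m i))) (kD K i).2.2))))
  | .pos _ => true

theorem ev_range (f : ℕ → ℕ) (n : ℕ) (y : ℕ → ℝ) :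
    ev ((List.range n).map fun i => (1, f i)) y = ∑ i ∈ Finset.range n, y (f i) := by
  induction n with
  | zero => rfl
  | succ n ih =>
    rw [List.range_succ, List.map_append, ev_append, ih, Finset.sum_range_succ]
    simp [ev]

theorem Row.sound {M : Mod Z τ} (g0 : M.Good 1 []) {T : List Stage} (h : twOK T = true) {t : Tab}
    {r : Row} (hr : r.ok T t = true) : ev (r.form T) (val M T t) ≤ 0 := by
  rcases r with ⟨e, U, V, X, Y, h1, h2, h3⟩ | ⟨e, J, L, hL, K⟩ | k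
  · simp only [Row.ok, subOK, Bool.and_eq_true] at hr
    obtain ⟨a1, a2, a3, a4, b1, b2, b3⟩ := hr
    have g := (tw_sound g0 (twOK_drop h e)).1
    have := (tw M (T.drop e)).h_sub (g.det b1) (g.det b2) (g.det b3)
    rw [Ref.sound g0 h a1, Ref.sound g0 h a2, Ref.sound g0 h a3, Ref.sound g0 h a4] at this
    simp only [Row.form, ev, one_smul, neg_smul]
    linarith
  · simp only [Row.ok, Bool.and_eq_true, decide_eq_true_eq, List.all_eq_true, List.mem_range] at hr
    obtain ⟨a0, a1, a2, a3, a4⟩ := hr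
    have hT : T.drop e = T[e] :: T.drop (e + 1) := List.drop_eq_getElem_cons a0
    have h0 : hd0 (T.drop e) = T[e] := by rw [hT]; rfl
    have g := (tw_sound g0 (twOK_drop h e)).1
    have g' := (tw_sound g0 (twOK_drop h (e + 1))).1
    have hw : tw M (T.drop e) = (tw M (T.drop (e + 1))).pw T[e].m T[e].L := by rw [hT]; rfl
    rw [h0] at a3 a4
    have := Mod.pw_h (M := tw M (T.drop (e + 1))) (m := T[e].m) (L := T[e].L)
      (fun i => (kD K i).1.ls (T.drop (e + 1)) t) (J.ls (T.drop e) t)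
      (fun i hi => g'.det (a4 i (Nat.lt_succ_iff.2 hi)).2.1)
      (fun i hi => by rw [← hw]; exact g.det (a4 i (Nat.lt_succ_iff.2 hi)).2.2)
    rw [← hw, Ref.sound g0 h a1, Finset.sum_congr rfl fun i hi =>
      Ref.sound g0 h (a4 i (Finset.mem_range.1 hi)).1] at this
    have h5 : (tw M (T.drop (e + 1))).h T[e].L ≤ val M T t L.k := by
      rw [← Ref.sound g0 h a2]
      exact sub_le_sub_right ((tw M (T.drop (e + 1))).S.H_mono (g'.det a3)) _
    have h6 := mul_le_mul_of_nonneg_left h5 (Nat.cast_nonneg (α := ℝ) T[e].m)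
    simp only [Row.form, ev, ev_range, h0, neg_smul, one_smul, natCast_zsmul, nsmul_eq_mul]
    linarith
  · simp only [Row.form, ev, neg_smul, one_smul, add_zero]
    exact neg_nonpos.2 (Mod.h_nonneg _ _)

def total (T : List Stage) : List (ℕ × Row) → SV
  | [] => []
  | r :: R => sc r.1 (r.2.form T) ++ total T R

theorem total_sound {M : Mod Z τ} (g0 : M.Good 1 []) {T : List Stage} (h : twOK T = true) {t : Tab}
    {R : List (ℕ × Row)} (hR : (R.all fun r => r.2.ok T t) = true) :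
    ev (total T R) (val M T t) ≤ 0 := by
  induction R with
  | nil => exact le_rfl
  | cons r R ih =>
    simp only [List.all_cons, Bool.and_eq_true] at hR
    have h1 := Row.sound g0 h hR.1 (M := M)
    have h2 := ih hR.2
    rw [total, ev_append, ev_sc, natCast_zsmul, nsmul_eq_mul]
    have := mul_nonpos_of_nonneg_of_nonpos (Nat.cast_nonneg (α := ℝ) r.1) h1
    linarith

theorem cert_sound {M : Mod Z τ} (g0 : M.Good 1 []) {T : List Stage} (h : twOK T = true) {t : Tab}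
    {R : List (ℕ × Row)} (hR : (R.all fun r => r.2.ok T t) = true) {g : SV}
    (hg : isZ (dense (total T R ++ sc (-1) g)) = true) : ev g (val M T t) ≤ 0 := by
  have h1 := total_sound g0 h hR (M := M)
  have h2 := evD_isZ hg (val M T t)
  rw [evD_dense, ev_append, ev_sc, neg_one_zsmul] at h2
  linarith

/-- The model of a configuration. -/
def Cfg.mod (Γ : Cfg Z) : Mod Z Γ.τ := ⟨Γ.S, Γ.W, fun ω j => if j = 0 then Γ.a ω else Γ.d ω⟩

theorem Cfg.mod_good (Γ : Cfg Z) : Γ.mod.Good 1 [] := by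
  refine ⟨fun _ _ h => absurd h List.not_mem_nil, fun ω ω' hW l hl h => ?_⟩
  obtain rfl : l = 0 := by omega
  exact Γ.det ω ω' hW h

theorem Cfg.mod_A (Γ : Cfg Z) : Γ.mod.h [[(1, 1)]] = Γ.A := by
  unfold Mod.h Cfg.A Cfg.hW
  congr 1
  refine Γ.S.H_congr (fun ω ω' h => ?_) fun ω ω' h => ?_
  · simpa [Mod.X, Cfg.mod, ev, Cfg.g] using h
  · simpa [Mod.X, Cfg.mod, ev, Cfg.g] using h

theorem Cfg.mod_b (Γ : Cfg Z) (r : ℤ) : Γ.mod.h [[(1, 0), (r, 1)]] = Γ.b r := by
  unfold Mod.h Cfg.b Cfg.hW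
  congr 1
  refine Γ.S.H_congr (fun ω ω' h => ?_) fun ω ω' h => ?_
  · simpa [Mod.X, Cfg.mod, ev, Cfg.wp, Cfg.pi, Int.cast_smul_eq_zsmul] using h
  · simpa [Mod.X, Cfg.mod, ev, Cfg.wp, Cfg.pi, Int.cast_smul_eq_zsmul] using h

end Pool.Agent.MP_4b405e_nt.H17
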